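import Pool.Agent.H12P.Stm
import Pool.Agent.H373R2.T7.Minor

/-! **ALLP**: the theorem for all `K` and almost all arrays (project PA, helper12; written by helper95). -/

set_option autoImplicit false

namespace Pool.Agent.H12P.ALLP

open Finset
open Pool.Agent.H13K
open Pool.Agent.H373R2.T7 (lamz pz Vz mem_pz ev_log' ev_L')

theorem lead_count_v {m : ℕ} (dd : Fin m → ℕ) (H : ℕ) (i : Fin m) (v : ℤ) :
    (2 * H + 1) * ((bx dd H).filter (fun a => a i (Fin.last (dd i)) = v)).card ≤ (bx dd H).card := by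
  classical
  have h1 : (2 * H + 1) * ((bx dd H).filter (fun a => a i (Fin.last (dd i)) = v)).card =
      ((Icc (-(H : ℤ)) H) ×ˢ ((bx dd H).filter (fun a => a i (Fin.last (dd i)) = v))).card := by
    rw [card_product, Int.card_Icc]
    congr 1
    omega
  rw [h1]
  apply card_le_card_of_injOn
    (fun q : ℤ × (∀ i : Fin m, Fin (dd i + 1) → ℤ) =>
      Function.update q.2 i (Function.update (q.2 i) (Fin.last (dd i)) q.1))
  · intro q hq
    rw [mem_coe, mem_product, mem_filter] at hq
    rw [mem_coe]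
    unfold bx at hq ⊢
    rw [Fintype.mem_piFinset] at hq ⊢
    intro j
    rw [Fintype.mem_piFinset]
    intro l
    dsimp only
    by_cases hj : j = i
    · subst hj
      rw [Function.update_self]
      by_cases hl : l = Fin.last (dd j)
      · subst hl
        rw [Function.update_self]
        exact hq.1
      · rw [Function.update_of_ne hl]
        exact (Fintype.mem_piFinset.1 (hq.2.1 j)) l
    · rw [Function.update_of_ne hj]
      exact (Fintype.mem_piFinset.1 (hq.2.1 j)) l
  · intro q hq q' hq' heq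
    rw [mem_coe, mem_product, mem_filter] at hq hq'
    dsimp only at heq
    have e1 : q.1 = q'.1 := by
      have := congrFun (congrFun heq i) (Fin.last (dd i))
      rwa [Function.update_self, Function.update_self, Function.update_self, Function.update_self] at this
    have e2 : q.2 = q'.2 := by
      funext j l
      by_cases hj : j = i
      · subst hj
        by_cases hl : l = Fin.last (dd j)
        · subst hl
          rw [hq.2.2, hq'.2.2]
        · have := congrFun (congrFun heq j) l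
          rwa [Function.update_self, Function.update_self, Function.update_of_ne hl,
            Function.update_of_ne hl] at this
      · have := congrFun (congrFun heq j) l
        rwa [Function.update_of_ne hj, Function.update_of_ne hj] at this
    exact Prod.ext e1 e2

/-- the arrays with a small leading coefficient are few -/
theorem small_lead {m : ℕ} (dd : Fin m → ℕ) (H : ℕ) :
    (((bx dd H) \ (bl dd H)).card : ℝ) * (2 * H + 1) ≤ m * (2 * √(H : ℝ) + 1) * ((bx dd H).card : ℝ) := by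
  classical
  set s := Nat.sqrt H with hs
  have hsub : (bx dd H) \ (bl dd H) ⊆ (univ : Finset (Fin m)).biUnion (fun i =>
      (Icc (-(s : ℤ)) s).biUnion (fun v => (bx dd H).filter (fun a => a i (Fin.last (dd i)) = v))) := by
    intro a ha
    rw [mem_sdiff] at ha
    obtain ⟨ha1, ha2⟩ := ha
    unfold bl at ha2
    rw [mem_filter] at ha2
    push Not at ha2
    obtain ⟨i, hi⟩ := ha2 ha1
    rw [mem_biUnion]
    refine ⟨i, mem_univ _, ?_⟩
    rw [mem_biUnion]
    refine ⟨a i (Fin.last (dd i)), ?_, mem_filter.2 ⟨ha1, rfl⟩⟩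
    set v := a i (Fin.last (dd i)) with hv
    have h1 : ((v.natAbs : ℕ) : ℝ) < √(H : ℝ) := by
      rw [Nat.cast_natAbs, Int.cast_abs]
      exact hi
    have h2 : v.natAbs ≤ s := by
      rw [hs, Nat.le_sqrt']
      have h3 : ((v.natAbs : ℕ) : ℝ) ^ 2 < H := by
        have := Real.lt_sqrt (Nat.cast_nonneg v.natAbs) (y := (H : ℝ))
        exact this.1 h1
      have h4 : v.natAbs ^ 2 < H := by exact_mod_cast h3
      exact h4.le
    rw [mem_Icc]
    omega
  have hcard : (((bx dd H) \ (bl dd H)).card : ℕ) * (2 * H + 1) ≤ m * (2 * s + 1) * (bx dd H).card := by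
    have h1 : ((bx dd H) \ (bl dd H)).card ≤ ∑ i : Fin m, ∑ v ∈ Icc (-(s : ℤ)) s,
        ((bx dd H).filter (fun a => a i (Fin.last (dd i)) = v)).card := by
      refine (card_le_card hsub).trans (card_biUnion_le.trans ?_)
      exact sum_le_sum fun i _ => card_biUnion_le
    calc ((bx dd H) \ (bl dd H)).card * (2 * H + 1)
        ≤ (∑ i : Fin m, ∑ v ∈ Icc (-(s : ℤ)) s,
        ((bx dd H).filter (fun a => a i (Fin.last (dd i)) = v)).card) * (2 * H + 1) :=
          Nat.mul_le_mul_right _ h1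
      _ = ∑ i : Fin m, ∑ v ∈ Icc (-(s : ℤ)) s,
        (2 * H + 1) * ((bx dd H).filter (fun a => a i (Fin.last (dd i)) = v)).card := by
          rw [sum_mul]
          refine sum_congr rfl fun i _ => ?_
          rw [sum_mul]
          exact sum_congr rfl fun v _ => mul_comm _ _
      _ ≤ ∑ _i : Fin m, ∑ _v ∈ Icc (-(s : ℤ)) s, (bx dd H).card :=
          sum_le_sum fun i _ => sum_le_sum fun v _ => lead_count_v dd H i v
      _ = m * (2 * s + 1) * (bx dd H).card := by
          simp only [sum_const, smul_eq_mul, card_univ, Fintype.card_fin, Int.card_Icc]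
          rw [mul_assoc]
          congr 2
          omega
  have hsr : (s : ℝ) ≤ √(H : ℝ) := Real.nat_sqrt_le_real_sqrt
  have h2 : (((bx dd H) \ (bl dd H)).card : ℝ) * (2 * H + 1) ≤ m * (2 * s + 1) * ((bx dd H).card : ℝ) := by
    exact_mod_cast hcard
  refine h2.trans ?_
  gcongr

theorem t : S_BLKP → S_LOWCP → S_ALLP := by
  intro hBLK hLOW m dd A hdd
  classical
  obtain ⟨E1, hE1⟩ := hBLK m dd (A + 3) hdd
  obtain ⟨c, D, hc, hLC⟩ := hLOW m dd
  refine ⟨max E1 1, fun E hE => ?_⟩
  have hE1' : E1 ≤ E := le_trans (le_max_left _ _) hE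
  have hE1'' : 1 ≤ E := le_trans (le_max_right _ _) hE
  obtain ⟨B0, H0, hH0⟩ := hE1 E hE1'
  obtain ⟨H3, hH3⟩ := ev_log' A (3 * m)
  obtain ⟨H4, hH4⟩ := ev_L' (Real.exp 4)
  refine ⟨B0 + 2, max (max H0 H3) (max H4 1), fun H hH => ?_⟩
  have hHa : H0 ≤ H := le_trans (le_trans (le_max_left _ _) (le_max_left _ _)) hH
  have hHb : H3 ≤ H := le_trans (le_trans (le_max_right _ _) (le_max_left _ _)) hH
  have hHc : H4 ≤ H := le_trans (le_trans (le_max_left _ _) (le_max_right _ _)) hH
  have hHd : 1 ≤ H := le_trans (le_trans (le_max_right _ _) (le_max_right _ _)) hH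
  have a3 := hH3 H hHb
  have a4 := hH4 H hHc
  have aS := hH0 H hHa
  have hHr : (1 : ℝ) ≤ H := by exact_mod_cast hHd
  have hHpos : (0 : ℝ) < H := by linarith
  set L := Real.log H with hL
  have he4 : (5 : ℝ) ≤ Real.exp 4 := by
    have := Real.add_one_le_exp (4 : ℝ)
    linarith
  have hL5 : 5 ≤ L := by linarith
  have hL1 : 1 ≤ L := by linarith
  have hL0 : 0 < L := by linarith
  have hlogL : 4 ≤ Real.log L := by
    rw [Real.le_log_iff_exp_le hL0]
    exact a4
  set l := Real.log L with hl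
  have hl0 : 0 < l := by linarith
  have hlL : l ≤ L := by
    have := Real.log_le_sub_one_of_pos hL0
    linarith
  set z := ⌊L ^ E⌋₊ with hz
  have hLE : L ≤ L ^ E := by
    calc L = L ^ 1 := (pow_one L).symm
      _ ≤ L ^ E := pow_le_pow_right₀ hL1 hE1''
  have hz3 : 3 ≤ z := Nat.le_floor (by push_cast; linarith)
  have hlz0 : 0 < Real.log z := Real.log_pos (by
    have : (3 : ℝ) ≤ z := by exact_mod_cast hz3
    linarith)
  -- the blocks
  have hbk : ∀ k : ℕ, ∃ Bad : Finset (∀ i : Fin m, Fin (dd i + 1) → ℤ), Bad ⊆ bl dd H ∧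
      ((L ^ B0 ≤ 2 ^ k ∧ 2 ^ k * L ^ B0 ≤ H) → (Bad.card : ℝ) ≤ ((bx dd H).card : ℝ) / (k : ℝ) ^ (A + 3) ∧
      ∀ a ∈ bl dd H, a ∉ Bad → (∀ p ∈ pz z, om1 p a ≠ p - 1) →
        ∀ K : ℕ, 2 ^ k ≤ K → K ≤ 2 ^ (k + 1) →
        |P1 a K - C1 z a * L1 a K| ≤ C1 z a * L1 a K / Real.log K ^ (A + 3)) := by
    intro k
    by_cases hk : L ^ B0 ≤ 2 ^ k ∧ 2 ^ k * L ^ B0 ≤ H
    · obtain ⟨Bad, h1, h2, h3⟩ := aS k hk.1 hk.2
      exact ⟨Bad, h1, fun _ => ⟨h2, h3⟩⟩
    · exact ⟨∅, empty_subset _, fun h => absurd h hk⟩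
  choose Bk hBk1 hBk2 using hbk
  set S : Finset ℕ := (range (Nat.log 2 H + 1)).filter
    (fun k => L ^ (B0 + 1) ≤ 2 ^ k ∧ 2 ^ k * L ^ B0 ≤ H) with hS
  have hL0p : ∀ n : ℕ, (1 : ℝ) ≤ L ^ n := fun n => one_le_pow₀ hL1
  have hSk : ∀ k ∈ S, (L ^ B0 ≤ 2 ^ k ∧ 2 ^ k * L ^ B0 ≤ H) ∧ l ≤ (k : ℝ) := by
    intro k hk
    rw [hS, mem_filter] at hk
    obtain ⟨-, hk1, hk2⟩ := hk
    refine ⟨⟨le_trans (pow_le_pow_right₀ hL1 (by omega)) hk1, hk2⟩, ?_⟩
    have h1 : L ≤ 2 ^ k := by
      refine le_trans ?_ hk1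
      calc L = L ^ 1 := (pow_one L).symm
        _ ≤ L ^ (B0 + 1) := pow_le_pow_right₀ hL1 (by omega)
    have h2 : l ≤ k * Real.log 2 := by
      rw [← Real.log_pow]
      exact Real.log_le_log hL0 h1
    refine h2.trans ?_
    have h3 : Real.log 2 ≤ 1 := by have := Real.log_two_lt_d9; linarith
    calc (k : ℝ) * Real.log 2 ≤ k * 1 := by gcongr
      _ = k := mul_one _
  set X : ℝ := ((bx dd H).card : ℝ) with hX
  have hX0 : 0 ≤ X := Nat.cast_nonneg _
  have hblbx : bl dd H ⊆ bx dd H := filter_subset _ _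
  refine ⟨((bx dd H) \ (bl dd H)) ∪ S.biUnion Bk, ?_, ?_, ?_⟩
  · apply union_subset sdiff_subset
    exact biUnion_subset.2 fun k _ => (hBk1 k).trans hblbx
  · have h1 : (((((bx dd H) \ (bl dd H)) ∪ S.biUnion Bk).card : ℕ) : ℝ) ≤
        (((bx dd H) \ (bl dd H)).card : ℝ) + ((S.biUnion Bk).card : ℝ) := by
      exact_mod_cast card_union_le _ _
    have h2 : ((S.biUnion Bk).card : ℝ) ≤ 2 * X / l ^ (A + 1) := by
      have h3 : ((S.biUnion Bk).card : ℝ) ≤ ∑ k ∈ S, ((Bk k).card : ℝ) := by
        exact_mod_cast card_biUnion_le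
      refine h3.trans ?_
      have h4 : ∀ k ∈ S, ((Bk k).card : ℝ) ≤ X / l ^ (A + 1) * ((k : ℝ) ^ 2)⁻¹ := by
        intro k hk
        obtain ⟨g1, g2⟩ := hSk k hk
        have g3 := (hBk2 k g1).1
        have hk0 : (0 : ℝ) < k := by linarith
        refine g3.trans ?_
        calc X / (k : ℝ) ^ (A + 3) = X / (k : ℝ) ^ (A + 1) * ((k : ℝ) ^ 2)⁻¹ := by
              rw [show A + 3 = (A + 1) + 2 by ring, pow_add]
              field_simp
          _ ≤ X / l ^ (A + 1) * ((k : ℝ) ^ 2)⁻¹ := by gcongr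
      calc ∑ k ∈ S, ((Bk k).card : ℝ) ≤ ∑ k ∈ S, X / l ^ (A + 1) * ((k : ℝ) ^ 2)⁻¹ := sum_le_sum h4
        _ = X / l ^ (A + 1) * ∑ k ∈ S, ((k : ℝ) ^ 2)⁻¹ := by rw [mul_sum]
        _ ≤ X / l ^ (A + 1) * 2 := by
            apply mul_le_mul_of_nonneg_left _ (by positivity)
            have h5 : ∑ k ∈ S, ((k : ℝ) ^ 2)⁻¹ ≤ ∑ k ∈ Ioo 0 (Nat.log 2 H + 1), ((k : ℝ) ^ 2)⁻¹ := by
              apply sum_le_sum_of_subset_of_nonneg
              · intro k hk
                have hk1 := (hSk k hk).2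
                have hk2 : (0 : ℝ) < k := by linarith
                rw [hS, mem_filter, mem_range] at hk
                rw [mem_Ioo]
                exact ⟨by exact_mod_cast hk2, hk.1⟩
              · intro k _ _
                positivity
            have h6 := sum_Ioo_inv_sq_le (α := ℝ) 0 (Nat.log 2 H + 1)
            norm_num at h6
            exact h5.trans h6
        _ = 2 * X / l ^ (A + 1) := by ring
    have h3 : (((bx dd H) \ (bl dd H)).card : ℝ) ≤ X / l ^ A / 2 := by
      have h4 := small_lead dd H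
      rw [← hX] at h4
      rw [div_div, le_div_iff₀ (by positivity)]
      set Y : ℝ := (((bx dd H) \ (bl dd H)).card : ℝ) with hY
      have hY0 : 0 ≤ Y := Nat.cast_nonneg _
      have hsq : √(H : ℝ) * √(H : ℝ) = H := Real.mul_self_sqrt hHpos.le
      have hsq1 : 1 ≤ √(H : ℝ) := Real.one_le_sqrt.2 hHr
      have h5 : 3 * (m : ℝ) * l ^ A ≤ √(H : ℝ) := by
        refine le_trans ?_ a3
        gcongr
      have h6 : Y * (2 * H + 1) ≤ X * (3 * m * √(H : ℝ)) := by
        refine h4.trans ?_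
        calc m * (2 * √(H : ℝ) + 1) * X ≤ m * (3 * √(H : ℝ)) * X := by
              gcongr
              linarith
          _ = X * (3 * m * √(H : ℝ)) := by ring
      have h7 : Y * (l ^ A * 2) * (2 * H + 1) ≤ X * (2 * H + 1) := by
        calc Y * (l ^ A * 2) * (2 * H + 1) = (Y * (2 * H + 1)) * (l ^ A * 2) := by ring
          _ ≤ (X * (3 * m * √(H : ℝ))) * (l ^ A * 2) := by gcongr
          _ = 2 * X * √(H : ℝ) * (3 * m * l ^ A) := by ring
          _ ≤ 2 * X * √(H : ℝ) * √(H : ℝ) := by gcongr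
          _ = X * (2 * H) := by rw [mul_assoc (2 * X), hsq]; ring
          _ ≤ X * (2 * H + 1) := by
              apply mul_le_mul_of_nonneg_left _ hX0
              linarith
      exact le_of_mul_le_mul_right h7 (by positivity)
    have h4 : 2 * X / l ^ (A + 1) ≤ X / l ^ A / 2 := by
      rw [div_div, div_le_div_iff₀ (by positivity) (by positivity)]
      calc 2 * X * (l ^ A * 2) = X * l ^ A * 4 := by ring
        _ ≤ X * l ^ A * l := by gcongr
        _ = X * l ^ (A + 1) := by ring
    linarith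
  · intro a ha hbad
    rw [mem_union, not_or, mem_sdiff] at hbad
    obtain ⟨hb1, hb2⟩ := hbad
    have hal : a ∈ bl dd H := by
      by_contra hcon
      exact hb1 ⟨ha, hcon⟩
    have hlead : ∀ i, a i (Fin.last (dd i)) ≠ 0 := by
      intro i h
      unfold bl at hal
      rw [mem_filter] at hal
      have h1 := hal.2 i
      rw [h] at h1
      simp only [Int.cast_zero, abs_zero] at h1
      have h2 : 0 < √(H : ℝ) := Real.sqrt_pos.2 hHpos
      linarith
    refine ⟨hlead, fun hom => ?_⟩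
    obtain ⟨hC0, hC1, hC2⟩ := hLC z a hz3
    have hC3 := hC2 hom
    have hCpos : 0 < C1 z a := lt_of_lt_of_le (by positivity) hC3
    refine ⟨hCpos, fun K hK1 hK2 => ?_⟩
    have hK0' : (0 : ℝ) < K := lt_of_lt_of_le (by positivity) hK1
    have hKpos : K ≠ 0 := by
      rintro rfl
      simp at hK0'
    set k := Nat.log 2 K with hk
    have hk1 : 2 ^ k ≤ K := Nat.pow_log_le_self 2 hKpos
    have hk2 : K < 2 ^ (k + 1) := Nat.lt_pow_succ_log_self (by norm_num) K
    have hk1r : (2 : ℝ) ^ k ≤ K := by exact_mod_cast hk1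
    have hk2r : (K : ℝ) < 2 ^ (k + 1) := by exact_mod_cast hk2
    have hKL : L ≤ K := by
      refine le_trans ?_ hK1
      calc L = L ^ 1 := (pow_one L).symm
        _ ≤ L ^ (B0 + 2) := pow_le_pow_right₀ hL1 (by omega)
    have hlogK : 1 ≤ Real.log K := by
      have h1 := Real.log_le_log hL0 hKL
      linarith
    have hkS : k ∈ S := by
      rw [hS, mem_filter, mem_range]
      refine ⟨?_, ?_, ?_⟩
      · have h1 : (K : ℝ) ≤ H := by
          refine le_trans ?_ hK2
          have := hL0p (B0 + 2)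
          nlinarith
        have h2 : K ≤ H := by exact_mod_cast h1
        have := Nat.log_mono_right (b := 2) h2
        omega
      · have h1 : L ^ (B0 + 2) ≤ 2 * 2 ^ k := by
          have : (2 : ℝ) ^ (k + 1) = 2 * 2 ^ k := by ring
          linarith
        have h2 : 2 * L ^ (B0 + 1) ≤ L ^ (B0 + 2) := by
          calc 2 * L ^ (B0 + 1) ≤ L * L ^ (B0 + 1) := by gcongr; linarith
            _ = L ^ (B0 + 2) := by ring
        linarith
      · calc (2 : ℝ) ^ k * L ^ B0 ≤ K * L ^ (B0 + 2) := by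
              apply mul_le_mul hk1r (pow_le_pow_right₀ hL1 (by omega)) (by positivity) (by positivity)
          _ ≤ H := hK2
    have hnot : a ∉ Bk k := by
      intro h
      exact hb2 (mem_biUnion.2 ⟨k, hkS, h⟩)
    have hfin := (hBk2 k (hSk k hkS).1).2 a hal hnot hom K hk1 hk2.le
    refine hfin.trans ?_
    have hpos : 0 ≤ C1 z a * L1 a K := by
      by_contra hneg
      push Not at hneg
      have h1 : C1 z a * L1 a K / Real.log K ^ (A + 3) < 0 := div_neg_of_neg_of_pos hneg (by positivity)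
      have h2 := abs_nonneg (P1 a K - C1 z a * L1 a K)
      linarith
    apply div_le_div_of_nonneg_left hpos (by positivity)
    exact pow_le_pow_right₀ hlogK (by omega)

end Pool.Agent.H12P.ALLP
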