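import Pool.Agent.H12P.Stm
import Pool.Agent.H13K.AV
import Pool.Agent.H13K.CRT

/-!
# AVP: mean of `Ym` over the reduced residues
-/

set_option autoImplicit false

namespace Pool.Agent.H12P.AVP

open Finset
open Pool.Agent.H373R2.T7 (lamz pz Vz mem_pz)
open Pool.Agent.H13K
open Pool.Agent.H13K.AV (ga cnt_dvd)

/-- sums over the reduced residues -/
lemma RP_sum (z : ℕ) (f : ℕ → ℝ) :
    ∑ α ∈ RP z, f α = ∑ α ∈ range (∏ p ∈ pz z, p), (∏ p ∈ pz z, if p ∣ α then (0 : ℝ) else 1) * f α := by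
  unfold RP
  rw [sum_filter]
  refine sum_congr rfl fun α _ => ?_
  split_ifs with h
  · rw [prod_eq_one (fun p hp => if_neg (h p hp)), one_mul]
  · push Not at h
    obtain ⟨p, hp, hpa⟩ := h
    have h0 : (∏ p ∈ pz z, if p ∣ α then (0 : ℝ) else 1) = 0 := prod_eq_zero hp (if_pos hpa)
    rw [h0, zero_mul]

lemma sum_one (p : ℕ) (hp : 0 < p) : ∑ α ∈ range p, (if p ∣ α then (0 : ℝ) else 1) = (p : ℝ) - 1 := by
  obtain ⟨k, rfl⟩ : ∃ k, p = k + 1 := ⟨p - 1, by omega⟩
  rw [sum_range_succ']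
  have h1 : ∀ α ∈ range k, (if k + 1 ∣ α + 1 then (0 : ℝ) else 1) = 1 := by
    intro α hα
    rw [mem_range] at hα
    exact if_neg fun h => absurd (Nat.le_of_dvd (by omega) h) (by omega)
  rw [sum_congr rfl h1, if_pos (dvd_zero _), sum_const, card_range, nsmul_eq_mul]
  push_cast
  ring

lemma sum_two (p : ℕ) (hp : 0 < p) (n : ℤ) (hn : ¬ (p : ℤ) ∣ n) (c : ℝ) :
    ∑ α ∈ range p, (if p ∣ α then (0 : ℝ) else 1) * (1 + if (p : ℤ) ∣ n - α then c else 0) = ((p : ℝ) - 1) + c := by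
  have h1 : ∀ α ∈ range p, (if p ∣ α then (0 : ℝ) else 1) * (1 + if (p : ℤ) ∣ n - α then c else 0) =
      (if p ∣ α then (0 : ℝ) else 1) + c * (if (p : ℤ) ∣ n - α then (1 : ℝ) else 0) := by
    intro α _
    by_cases h : (p : ℤ) ∣ n - α
    · have h2 : ¬ p ∣ α := by
        intro h3
        apply hn
        have h4 : (p : ℤ) ∣ α := Int.natCast_dvd_natCast.2 h3
        have := dvd_add h h4
        rwa [sub_add_cancel] at this
      rw [if_neg h2, if_pos h, if_pos h]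
      ring
    · rw [if_neg h, if_neg h]
      ring
  rw [sum_congr rfl h1, sum_add_distrib, sum_one p hp, ← mul_sum, Pool.Agent.H13K.AV.sum_ind p p n,
    cnt_dvd p p hp (dvd_refl p) n, div_self (by exact_mod_cast hp.ne'), mul_one]

theorem t : S_AVP := by
  intro m z n hn
  have hs : ∀ p ∈ pz z, p.Prime := fun p hp => (mem_pz.1 hp).2
  rw [RP_sum z (fun α => Ym m z (n - α))]
  have h1 : ∀ α ∈ range (∏ p ∈ pz z, p), (∏ p ∈ pz z, if p ∣ α then (0 : ℝ) else 1) * Ym m z (n - α) =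
      ∏ p ∈ pz z, (if p ∣ α then (0 : ℝ) else 1) * (1 + if (p : ℤ) ∣ n - α then ga m p else 0) := by
    intro α _
    have h2 : Ym m z (n - α) = ∏ p ∈ pz z, (1 + (if (p : ℤ) ∣ n - α then ga m p else 0)) := by
      unfold Ym
      rw [Finset.prod_filter]
      apply Finset.prod_congr rfl
      intro p _
      unfold ga
      split_ifs <;> ring
    rw [h2, ← prod_mul_distrib]
  rw [sum_congr rfl h1]
  rw [Pool.Agent.H13K.CRT.prod_sum (pz z) hs (fun p α => (if p ∣ α then (0 : ℝ) else 1) *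
    (1 + if (p : ℤ) ∣ n - α then ga m p else 0)) ?_]
  · unfold ph Y1
    rw [← prod_mul_distrib]
    refine prod_congr rfl fun p hp => ?_
    have hpp := hs p hp
    rw [sum_two p hpp.pos n (hn p hp) (ga m p)]
    have h3 : (2 : ℝ) ≤ p := by exact_mod_cast hpp.two_le
    have h4 : (p : ℝ) - 1 ≠ 0 := by linarith
    unfold ga
    field_simp
  · intro p hp α
    have e1 : p ∣ α % p ↔ p ∣ α := Nat.dvd_mod_iff (dvd_refl p)
    have e2 : (p : ℤ) ∣ n - ((α % p : ℕ) : ℤ) ↔ (p : ℤ) ∣ n - α := by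
      refine dvd_iff_dvd_of_dvd_sub ?_
      have h : (p : ℤ) ∣ ((α % p : ℕ) : ℤ) - (α : ℤ) := by
        push_cast
        have := Int.dvd_self_sub_emod (x := (α : ℤ)) (m := (p : ℤ))
        rw [← neg_sub]
        exact (dvd_neg).2 this
      have h5 : n - ((α % p : ℕ) : ℤ) - (n - (α : ℤ)) = -(((α % p : ℕ) : ℤ) - (α : ℤ)) := by ring
      rw [h5]
      exact (dvd_neg).2 h
    simp only [e1, e2]

end Pool.Agent.H12P.AVP
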