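import Pool.Agent.H13K.StmS

/-!
# Project PA (helper12): prime values of almost all systems of polynomials at PRIME arguments

Notation: `L = log H`, `ℓ = log K` (or `log N`). Arrays `a i l`, `F_i(n) = Fv (a i) n`, box `bx dd H` as in `Pool/Agent/H13K/StmS.lean`.
Stub `X`: file `Pool/Agent/H12P/X.lean` (`import Pool.Agent.H12P.Stm`), theorem `Pool.Agent.H12P.X.t` of the type given in the
table `pastubs` (an implication between the statements below). The files `Pool/Agent/H13K/T1, SM, AV, CRT, T2, TV, LOWC, LOWL,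
SEC, ALL .lean` contain the proofs of the analogues over all integers: import them and use their lemmas, or copy and adapt.
-/

set_option autoImplicit false

namespace Pool.Agent.H12P

open Finset
open Pool.Agent.H373R2.T7 (lamz pz Vz)
open Pool.Agent.H13K

/-- weights of the primes `> z` -/
noncomputable def th (z n : ℕ) : ℝ := if n.Prime ∧ z < n then Real.log n else 0

/-- the reduced residues modulo `∏_{p ≤ z} p` -/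
noncomputable def RP (z : ℕ) : Finset ℕ := (range (∏ p ∈ pz z, p)).filter (fun α => ∀ p ∈ pz z, ¬ p ∣ α)

noncomputable def ph (z : ℕ) : ℝ := ∏ p ∈ pz z, ((p : ℝ) - 1)

/-- number of the zeros of `∏ F_i` modulo `p` which are prime to `p` -/
def om1 {m : ℕ} {dd : Fin m → ℕ} (p : ℕ) (a : ∀ i : Fin m, Fin (dd i + 1) → ℤ) : ℕ :=
  ((range p).filter (fun n : ℕ => ¬ p ∣ n ∧ (p : ℤ) ∣ ∏ i, Fv (a i) (n : ℤ))).card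

/-- the constant for prime arguments, product over `p ≤ z` -/
noncomputable def C1 {m : ℕ} {dd : Fin m → ℕ} (z : ℕ) (a : ∀ i : Fin m, Fin (dd i + 1) → ℤ) : ℝ :=
  ∏ p ∈ pz z, (1 - (om1 p a : ℝ) / (p - 1)) / (1 - 1 / (p : ℝ)) ^ m

/-- the mean value of `Ym` over the reduced residues -/
noncomputable def Y1 (m z : ℕ) : ℝ := ∏ p ∈ pz z, (1 + (((1 - 1 / (p : ℝ)) ^ m)⁻¹ - 1) / (p - 1))

/-- truncated density -/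
noncomputable def lgH (H : ℕ) (y : ℤ) : ℝ := 1 / max (Real.log |(y : ℝ)|) (Real.log H / 2)

noncomputable def Wh {m : ℕ} {dd : Fin m → ℕ} (H : ℕ) (a : ∀ i : Fin m, Fin (dd i + 1) → ℤ) (n : ℤ) : ℝ :=
  ∏ i, lgH H (Fv (a i) n)

/-- `1 / log n` for `n ≥ 2` -/
noncomputable def lw (n : ℕ) : ℝ := 1 / Real.log (max (n : ℝ) 2)

/-- the number of the primes `q ≤ K` for which all `|F_i(q)|` are primes -/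
noncomputable def P1 {m : ℕ} {dd : Fin m → ℕ} (a : ∀ i : Fin m, Fin (dd i + 1) → ℤ) (K : ℕ) : ℝ :=
  ∑ q ∈ (Icc 1 K).filter Nat.Prime, ∏ i, pr (Fv (a i) (q : ℤ)).natAbs

/-- the sum of `1 / (log n ∏ log |F_i(n)|)` over `2 ≤ n ≤ K` -/
noncomputable def L1 {m : ℕ} {dd : Fin m → ℕ} (a : ∀ i : Fin m, Fin (dd i + 1) → ℤ) (K : ℕ) : ℝ :=
  ∑ n ∈ Icc 2 K, Wf a (n : ℤ) / Real.log n

/-- the arrays with large leading coefficients -/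
noncomputable def bl {m : ℕ} (dd : Fin m → ℕ) (H : ℕ) : Finset (∀ i : Fin m, Fin (dd i + 1) → ℤ) :=
  (bx dd H).filter (fun a => ∀ i, √(H : ℝ) ≤ |(a i (Fin.last (dd i)) : ℝ)|)

/-- **T1P** (type `S_VZ → S_WTF → S_KER → S_TEN → S_T1P`): `H13K/T1.lean` with `T` in the place of `Icc 1 K`. (helper12) -/
def S_T1P : Prop := ∀ (m : ℕ) (dd : Fin m → ℕ) (U : ℕ), (∀ i, 1 ≤ dd i) → ∃ E1 : ℕ, ∀ E : ℕ, E1 ≤ E →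
  ∃ B H0 : ℕ, ∀ H : ℕ, H0 ≤ H → ∀ K : ℕ, Real.log H ^ B ≤ K → (K : ℝ) * Real.log H ^ B ≤ H → ∀ T ⊆ Icc 1 K,
  ∑ a ∈ bx dd H, (∑ n ∈ T, (∏ i, pr (Fv (a i) (n : ℤ)).natAbs -
      ∏ i, nu ⌊Real.log H ^ E⌋₊ (Fv (a i) (n : ℤ)).natAbs)) ^ 2 ≤
    ((bx dd H).card : ℝ) * (K : ℝ) ^ 2 / Real.log H ^ U

/-- **CRTP** (no hypotheses). Proof. Adapt `H13K/CRT.lean` (`prod_sum`, `sf_eq`, `ind_mod`, `sum_ind`): the indicator function of `RP` is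
`∏_p 1[p ∤ α]`; `∑_{α < p} 1[p ∤ α] ind a p α = (p - 1) - om1 p a`; for the number of the elements take `1` instead of `ind`. -/
def S_CRTP : Prop := ∀ (m : ℕ) (dd : Fin m → ℕ) (z : ℕ) (a : ∀ i : Fin m, Fin (dd i + 1) → ℤ),
  ((RP z).card : ℝ) = ph z ∧ ∑ α ∈ RP z, sf z a (α : ℤ) = ph z * C1 z a

/-- **AVP** (no hypotheses). Proof. `Ym m z (n - α) = ∏_p (1 + γ(p) 1[p ∣ n - α])`, `γ(p) = ((1 - 1/p)^m)⁻¹ - 1` (see `AV.Ym_eq`), and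
`CRT.prod_sum` with `g p α = 1[p ∤ α] (1 + γ(p) 1[p ∣ n - α])`: the sum over `α < p` is `(p - 1) + γ(p)`, because exactly one `α < p`
is `≡ n` and it is not `0`. -/
def S_AVP : Prop := ∀ (m z : ℕ) (n : ℤ), (∀ p ∈ pz z, ¬ (p : ℤ) ∣ n) →
  ∑ α ∈ RP z, Ym m z (n - α) = ph z * Y1 m z

/-- **SWT** (no hypotheses): Siegel-Walfisz for `th`. Proof. `Pool.Agent.H373R2.T7.lam_ap` (file `H373R2/T7/LamMaj.lean`) with `y = N`. The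
proper prime powers `≤ N` contribute `≤ 2 √N log N · log N` (library: `Chebyshev.psi - theta`, or count `p^k ≤ N`, `k ≥ 2`), the primes `≤ z`
at most `z log z ≤ L^{E+1} ≤ N^{1/2}` (`B = 2 E + 2`; `log N ≥ B log L`). -/
def S_SWT : Prop := ∀ E D A : ℕ, ∃ B H0 : ℕ, ∀ H : ℕ, H0 ≤ H → ∀ z : ℕ, (z : ℝ) ≤ Real.log H ^ E →
  ∀ N : ℕ, Real.log H ^ B ≤ N → ∀ e : ℕ, 1 ≤ e → (e : ℝ) ≤ Real.log N ^ D → ∀ c : ℕ, c.Coprime e →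
  |∑ n ∈ (Icc 1 N).filter (fun n => n ≡ c [MOD e]), th z n - (N : ℝ) / (Nat.totient e : ℝ)| ≤ N / Real.log N ^ A

/-- **VARP** (type `S_VZ → S_SWT → S_VARP`). Proof. `Ym m z h = ∑_{S ⊆ pz z} γ(S) 1[e_S ∣ h]`, `e_S = ∏ S`, `γ(S) = ∏_{p ∈ S} γ(p) ≥ 0`
(`AV.Ym_eq`), and `Y1 = ∑_S γ(S)/φ(e_S)`, `φ(e_S) = ∏_{p ∈ S} (p - 1)`. Put `θ(c) = ∑_{n ≤ N, n ≡ c (e)} th z n`; `th z n ≠ 0` implies that `n`
is prime to `e_S`. So the left side is `∑_S γ(S) (∑_{c mod e, (c,e)=1} θ(c)^2 - θ^2/φ(e)) = ∑_S γ(S) ∑_{(c,e)=1} (θ(c) - θ/φ(e))^2`.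
Put `ℓ = log N`. `e = e_S ≤ ℓ^D`: SWT for `e` and for `1` (exponent `A2`): `≤ φ(e) 4 N^2/ℓ^{2 A2}`, `φ(e) ≤ ℓ^D`. `e > ℓ^D`:
`≤ ∑_c θ(c)^2 ≤ max θ(c) · θ ≤ ℓ (N/e + 1) · 2N ≤ 2 N ℓ (N/ℓ^D + 1)` (trivially `θ(c) ≤ ℓ #{n ≤ N, n ≡ c}`; `θ ≤ 2N` by SWT). And
`∑_S γ(S) = (Vz z)^{-m} ≤ (C log z + 1)^m ≤ ℓ^{m+1}` (VZ; `log z ≤ E log L ≤ ℓ` for `B ≥ E`). Take `D = A + m + 5`, `A2 = D + A + m + 5`. -/
def S_VARP : Prop := ∀ m E A : ℕ, ∃ B H0 : ℕ, ∀ H : ℕ, H0 ≤ H → ∀ z : ℕ, (z : ℝ) ≤ Real.log H ^ E →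
  ∀ N : ℕ, Real.log H ^ B ≤ N →
  ∑ n ∈ Icc 1 N, ∑ n' ∈ Icc 1 N, th z n * th z n' * (Ym m z ((n : ℤ) - n') - Y1 m z) ≤ (N : ℝ) ^ 2 / Real.log N ^ A

/-- **LOWCP** (type `S_VZ → S_LOWCP`). Adapt `H13K/LOWC.lean`: `om1 ≤ p - 1`; if `om1 p a ≠ p - 1` then no `F_i` vanishes identically modulo `p`,
so `om p a ≠ p` and `om1 p a ≤ om p a ≤ D₀ = ∑ dd i` (`LOWC.om_deg`); the factors of `p ≤ 2 D₀ + 3` are `≥ 1/p`, the others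
`≥ 1 - D₀/(p-1) ≥ 1 - 2 D₀/p ≥ (1 - 1/p)^{4 D₀}`-like. -/
def S_LOWCP : Prop := ∀ (m : ℕ) (dd : Fin m → ℕ), ∃ (c : ℝ) (D : ℕ), 0 < c ∧ ∀ (z : ℕ)
  (a : ∀ i : Fin m, Fin (dd i + 1) → ℤ), 3 ≤ z →
  0 ≤ C1 z a ∧ C1 z a ≤ ((Vz z)⁻¹) ^ m ∧ ((∀ p ∈ pz z, om1 p a ≠ p - 1) → c / Real.log z ^ D ≤ C1 z a)

/-- **SMP** (type `S_VZ → S_FL → S_CRTP → S_AVP → S_SWT → S_VARP → S_LOWCP → S_SMP`): second moment. Proof. `C1 = (1/φ) ∑_{α ∈ RP z} sf α`, `φ = ph z`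
(CRTP). `∑_n th n (sf n - C1)`: square, sum over the box, insert FL (exponent `A + m + 10`) for all pairs `(n, n')`, `(n, α)`, `(α, α')`:
by AVP (all `n` with `th n ≠ 0` are prime to the primes `≤ z`, also the `α`) the main terms are
`#bx ∑_{n,n'} th n th n' (Ym (n - n') - Y1)`, at most `#bx N^2/ℓ^{A+3}` by VARP, and the errors are `≤ 4 (∑ th)^2 #bx/L^{A + m + 10}`,
`∑ th ≤ N log N ≤ N L`. Finally `∑ (th sf - C1) = ∑ th (sf - C1) + C1 (∑ th - N)`, `|∑ th - N| ≤ N/ℓ^{A+2m+5}` (SWT, `e = 1`),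
`C1 ≤ (Vz z)^{-m} ≤ (C log z + 1)^m ≤ ℓ^{m+1}` (`z ≤ 2`: trivial); `(u + v)^2 ≤ 2 u^2 + 2 v^2`. -/
def S_SMP : Prop := ∀ (m : ℕ) (dd : Fin m → ℕ) (E A : ℕ), (∀ i, 1 ≤ dd i) → ∃ B H0 : ℕ, ∀ H : ℕ, H0 ≤ H →
  ∀ z : ℕ, 3 ≤ z → (z : ℝ) ≤ Real.log H ^ E → ∀ N : ℕ, Real.log H ^ B ≤ N → N ≤ H →
  ∑ a ∈ bx dd H, (∑ n ∈ Icc 1 N, (th z n * sf z a (n : ℤ) - C1 z a)) ^ 2 ≤
    ((bx dd H).card : ℝ) * (N : ℝ) ^ 2 / Real.log N ^ A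

/-- **TVP** (no hypotheses). Adapt `H13K/TV.lean` with `φ(v) = 1/max (log v) (L/2)`, nonincreasing in `v ≥ 0`, values in `[0, 2/L]`, in the place of
`lg`: the total variation of `n ↦ lgH H (f n)` is `≤ C_d · 2/L` (level sets: number of the sign changes of `1[φ(|f|) ≥ t]`). Then products. -/
def S_TVP : Prop := ∀ (m : ℕ) (dd : Fin m → ℕ), ∃ C : ℝ, 1 ≤ C ∧ ∀ H : ℕ, 3 ≤ H →
  ∀ a : ∀ i : Fin m, Fin (dd i + 1) → ℤ,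
  (∀ n : ℤ, 0 ≤ Wh H a n ∧ Wh H a n ≤ C / Real.log H ^ m) ∧
  ∀ N : ℕ, ∑ n ∈ Ico 1 N, |Wh H a ((n : ℤ) + 1) - Wh H a (n : ℤ)| ≤ C / Real.log H ^ m

/-- **EXCP** (no hypotheses): few exceptional integers. Proof. If `|F_i(n)| ≥ √H ≥ 4` for all `i` then `Wf a n = Wh H a n`. If
`|F(n)| < √H ≤ |lead F|` then `∏_j |n - r_j| < 1` over the complex roots of `F` (`d ≥ 1`), so `|n - Re r_j| < 1` for some `j`: at most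
`2 d` integers `n`. So `C = 2 ∑ dd i + 1`. (`LOWL.po` is the polynomial over `ℤ`, `LOWL.natDegree_po`.) -/
def S_EXCP : Prop := ∀ (m : ℕ) (dd : Fin m → ℕ), (∀ i, 1 ≤ dd i) → ∃ C : ℝ, 1 ≤ C ∧ ∀ H : ℕ, 16 ≤ H →
  ∀ a ∈ bl dd H, ∀ K : ℕ, (((Icc 1 K).filter (fun n : ℕ => Wf a (n : ℤ) ≠ Wh H a (n : ℤ))).card : ℝ) ≤ C

/-- **T2P** (type `S_VZ → S_SMP → S_TVP → S_LOWCP → S_T2P`). Adapt `H13K/T2.lean`. `ℓ = log K`. Abel summation (`T2.abel_bd`) with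
`W n = Wh H a n * lw n` (bounded and of total variation `≤ C'/L^m` by TVP; `lw` is nonincreasing with values in `[0, 2]`), `g n = th n sf n - C1`
for `n ≤ K` and `0` for `n > K`; `|g| ≤ ℓ (Vz z)^{-m} + (Vz z)^{-m} ≤ ℓ^{m+3}` (VZ, LOWCP; `log z ≤ E log L ≤ ℓ`). `T2.max_bd` with
`D = ⌊K/ℓ^{A1}⌋ + 1`, `A1 = A + m + 5`: the partial sums at the multiples `N = D j ≤ K`, `N ≥ K/ℓ^{A1} ≥ √K`, `log N ≥ ℓ/2`, by SMP with the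
exponent `A + A1 + 5` (`N ≥ √K ≥ L^{B/2}`); there are `K/D ≤ ℓ^{A1}` of them. -/
def S_T2P : Prop := ∀ (m : ℕ) (dd : Fin m → ℕ) (E A : ℕ), (∀ i, 1 ≤ dd i) → ∃ B H0 : ℕ, ∀ H : ℕ, H0 ≤ H →
  ∀ z : ℕ, 3 ≤ z → (z : ℝ) ≤ Real.log H ^ E → ∀ K : ℕ, Real.log H ^ B ≤ K → K ≤ H →
  ∑ a ∈ bx dd H, (∑ n ∈ Icc 1 K, Wh H a (n : ℤ) * lw n * (th z n * sf z a (n : ℤ) - C1 z a)) ^ 2 ≤
    ((bx dd H).card : ℝ) * (K : ℝ) ^ 2 / (Real.log K ^ A * Real.log H ^ (2 * m))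

/-- **LOWLP** (no hypotheses). Proof. `L1 a v - L1 a u = ∑_{u < n ≤ v} Wf a n/log n` (the term `n = 1` is `0`), restrict to
`n > max u 1`, `1/log n ≥ 1/log v`, and `LOWL.win` for the window `(max u 1, v]`. -/
def S_LOWLP : Prop := ∀ (m : ℕ) (dd : Fin m → ℕ), (∀ i, 1 ≤ dd i) → ∃ K0 : ℕ, ∀ H u v : ℕ, u + K0 ≤ v → v ≤ H →
  ∀ a ∈ bx dd H, (∀ i, a i (Fin.last (dd i)) ≠ 0) →
  ((v : ℝ) - u) / (4 * (∏ i, ((dd i : ℝ) + 2)) * Real.log H ^ m * Real.log v) ≤ L1 a v - L1 a u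

/-- **SECP** (type `S_VZ → S_T1P → S_T2P → S_TVP → S_EXCP → S_LOWCP → S_TV → S_SECP`). Proof. `z = ⌊L^E⌋`, `T = (Icc 1 K).filter Nat.Prime`,
`∏ nu = Wf sf` (`SEC.prod_nu`). `P1 a K - C1 L1 a K` is the sum of `∑_{q ∈ T} (∏ pr - ∏ nu)` (T1P, exponent `2m + A + 2`; `L ≥ log K`),
`∑_{n ≤ K} Wh lw (th sf - C1)` (T2P), `∑_{q ∈ T} (Wf - Wh) sf + ∑_{q ∈ T, q ≤ z} Wh sf` (because `lw q th q = 1` for the primes `q > z`) and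
`C1 (∑_{n ≤ K} Wh lw - L1 a K)`. The last two are `≤ (z + 2 C) C (Vz z)^{-m} · 4 ≤ L^{E+3}` in absolute value (EXCP, TVP, TV: `0 ≤ Wf ≤ C`;
`C1, sf ≤ (Vz z)^{-m} ≤ L`), and `L^{E+3} ≤ √K ≤ K / (ℓ^{A+1} L^m)` for `K ≥ L^B`. -/
def S_SECP : Prop := ∀ (m : ℕ) (dd : Fin m → ℕ) (A : ℕ), (∀ i, 1 ≤ dd i) → ∃ E1 : ℕ, ∀ E : ℕ, E1 ≤ E →
  ∃ B H0 : ℕ, ∀ H : ℕ, H0 ≤ H → ∀ K : ℕ, Real.log H ^ B ≤ K → (K : ℝ) * Real.log H ^ B ≤ H →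
  ∑ a ∈ bl dd H, (P1 a K - C1 ⌊Real.log H ^ E⌋₊ a * L1 a K) ^ 2 ≤
    ((bx dd H).card : ℝ) * (K : ℝ) ^ 2 / (Real.log K ^ A * Real.log H ^ (2 * m))

/-- **BLKP** (type `S_VZ → S_SECP → S_TVP → S_EXCP → S_LOWCP → S_LOWLP → S_TV → S_BLKP`): all `K` of a dyadic block. Adapt `H13K/ALL.lean`.
Proof. `D = ⌊2^k/k^{A1}⌋ + 1`, points `N = D j ∈ [2^{k-1}, 2^{k+2}]`, at most `4 k^{A1}` of them. SECP with exponent `A'` and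
Chebyshev (`ALL.cheb`) at all these points: for all but `#bx/k^A` arrays of `bl`, `|P1 a N - C1 L1 a N| ≤ N/(k^{A2} L^m)` at all the points
(`A' = 2 A2 + A1 + A + 5`). `P1` and `L1` are nondecreasing; for `D j ≤ K < D (j+1)`:
`L1 a (D(j+1)) - L1 a (D j) ≤ D C/(L^m) + C' ` (Wf = Wh off `C` integers, TVP, TV), `C1 ≤ (Vz z)^{-m} ≤ k^{m+2}`, so
`|P1 a K - C1 L1 a K| ≤ 4 K/(k^{A2} L^m) + k^{m+2} (4 K C/(k^{A1} L^m) + C')`, and `C1 L1 a K ≥ K/(k^{D'} L^m)` by LOWCP and LOWLP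
(`log z ≤ E log L ≤ k`, `B ≥ 2 E + ...`). Take `A1, A2` large compared with `A + D' + m`. -/
def S_BLKP : Prop := ∀ (m : ℕ) (dd : Fin m → ℕ) (A : ℕ), (∀ i, 1 ≤ dd i) → ∃ E1 : ℕ, ∀ E : ℕ, E1 ≤ E →
  ∃ B H0 : ℕ, ∀ H : ℕ, H0 ≤ H → ∀ k : ℕ, Real.log H ^ B ≤ 2 ^ k → 2 ^ k * Real.log H ^ B ≤ H →
  ∃ Bad ⊆ bl dd H, (Bad.card : ℝ) ≤ ((bx dd H).card : ℝ) / (k : ℝ) ^ A ∧
  ∀ a ∈ bl dd H, a ∉ Bad → (∀ p ∈ pz ⌊Real.log H ^ E⌋₊, om1 p a ≠ p - 1) →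
    ∀ K : ℕ, 2 ^ k ≤ K → K ≤ 2 ^ (k + 1) →
      |P1 a K - C1 ⌊Real.log H ^ E⌋₊ a * L1 a K| ≤ C1 ⌊Real.log H ^ E⌋₊ a * L1 a K / Real.log K ^ A

/-- **ALLP** (type `S_BLKP → S_LOWCP → S_ALLP`). Proof. `Bad = (bx \ bl) ∪ ⋃_k Bad_k`, BLKP with exponent `A + 3`, the blocks `k` with
`L^{B0} ≤ 2^k`, `2^k L^{B0} ≤ H` (enlarge `B` so that each `K` of the statement lies in such a block): `k ≥ B0 log L / log 2 ≥ log L`, so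
`∑_k k^{-(A+3)} ≤ (log L)^{-(A+1)} ∑ k^{-2} ≤ 2 (log L)^{-(A+1)}`. `#(bx \ bl) ≤ m #bx (2 √H + 1)/(2 H + 1)` (adapt `ALL.lead_count`). -/
def S_ALLP : Prop := ∀ (m : ℕ) (dd : Fin m → ℕ) (A : ℕ), (∀ i, 1 ≤ dd i) → ∃ E1 : ℕ, ∀ E : ℕ, E1 ≤ E →
  ∃ B H0 : ℕ, ∀ H : ℕ, H0 ≤ H → ∃ Bad ⊆ bx dd H,
  (Bad.card : ℝ) ≤ ((bx dd H).card : ℝ) / Real.log (Real.log H) ^ A ∧
  ∀ a ∈ bx dd H, a ∉ Bad → (∀ i, a i (Fin.last (dd i)) ≠ 0) ∧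
    ((∀ p ∈ pz ⌊Real.log H ^ E⌋₊, om1 p a ≠ p - 1) → 0 < C1 ⌊Real.log H ^ E⌋₊ a ∧
      ∀ K : ℕ, Real.log H ^ B ≤ K → (K : ℝ) * Real.log H ^ B ≤ H →
        |P1 a K - C1 ⌊Real.log H ^ E⌋₊ a * L1 a K| ≤ C1 ⌊Real.log H ^ E⌋₊ a * L1 a K / Real.log K ^ A)

/-- **PYP** (type `S_PY → S_LOWC → S_PYP`): the constants cut at different points. Proof. `Bad` = the `Bad` of PY and the arrays with some
`a i 0 = 0` (`≤ m #bx/(2H+1)`, adapt `ALL.lead_count`); if `z > H` take `Bad = ∅` (there is no `Y`). By LOWC `Cz z a > 0`, by PY `Cz Y a > 0`, so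
`om p a ≠ p` and `om p a ≤ D₀` (`LOWC.om_deg`) for the primes `p ≤ Y`. `om1 p a = om p a - 1[p ∣ ∏ F_i(0)]`. The quotient of the factor of `C1` and
of the factor of `Cz` at `p > z` is `1 - om/((p-1)(p-om))` if `p ∤ ∏ F_i(0)` and `p/(p-1)` otherwise. The product of the former over
`p > z` is `≥ 1 - 4 D₀ ∑_{n > z} 1/n^2 ≥ 1 - 8 D₀/z`; the number of the `p > z` with `p ∣ ∏ F_i(0) ≠ 0` is at most `m log H/log 2`, so the product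
of the latter is `≤ exp (4 m log H/z) ≤ exp (4 m z^{-1/2}) ≤ 1 + 8 m z^{-1/2}`. -/
def S_PYP : Prop := ∀ (m : ℕ) (dd : Fin m → ℕ), (∀ i, 1 ≤ dd i) → ∃ (C : ℝ) (z0 : ℕ), 1 ≤ C ∧ ∀ H z : ℕ, z0 ≤ z →
  Real.log H ^ 2 ≤ z → 1 ≤ H → ∃ Bad ⊆ bx dd H, (Bad.card : ℝ) ≤ C * ((bx dd H).card : ℝ) * (z : ℝ) ^ (-(1 / 4) : ℝ) ∧
  ∀ a ∈ bx dd H, a ∉ Bad → (∀ p ∈ pz z, om p a ≠ p) → ∀ Y : ℕ, z ≤ Y → Y ^ 4 ≤ H →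
    |C1 Y a - C1 z a| ≤ C * (z : ℝ) ^ (-(1 / 20) : ℝ) * C1 z a

end Pool.Agent.H12P
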