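import Pool.Agent.H13K.ALL
import Pool.Agent.H13K.T2
import Pool.Agent.H13K.LOWL
import Pool.Agent.H12P.Stm

/-! Project PA (helper12), stub BLKP: all `K` of a dyadic block. -/

set_option autoImplicit false

namespace Pool.Agent.H12P.BLKP

open Finset
open Pool.Agent.H373R2.T7 (lamz pz Vz mem_pz)
open Pool.Agent.H13K

lemma Wf_nonneg {m : ℕ} {dd : Fin m → ℕ} (a : ∀ i : Fin m, Fin (dd i + 1) → ℤ) (n : ℤ) : 0 ≤ Wf a n :=
  Pool.Agent.H13K.LOWL.Wf_nonneg a n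

theorem P1_mono {m : ℕ} {dd : Fin m → ℕ} (a : ∀ i : Fin m, Fin (dd i + 1) → ℤ) {K K' : ℕ} (h : K ≤ K') :
    P1 a K ≤ P1 a K' := by
  unfold P1
  apply sum_le_sum_of_subset_of_nonneg (filter_subset_filter _ (Icc_subset_Icc_right h))
  intro n _ _
  exact prod_nonneg fun i _ => Pool.Agent.H13K.ALL.pr_nonneg _

theorem L1_mono {m : ℕ} {dd : Fin m → ℕ} (a : ∀ i : Fin m, Fin (dd i + 1) → ℤ)
    {K K' : ℕ} (h : K ≤ K') : L1 a K ≤ L1 a K' := by
  unfold L1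
  refine sum_le_sum_of_subset_of_nonneg (Icc_subset_Icc_right h) (fun n _ _ => ?_)
  exact div_nonneg (Wf_nonneg a _) (Real.log_natCast_nonneg n)

/-- the sum over a short interval -/
theorem L1_diff {m : ℕ} {dd : Fin m → ℕ} (a : ∀ i : Fin m, Fin (dd i + 1) → ℤ) (H : ℕ) (CW CE w : ℝ)
    (hW : ∀ n : ℤ, Wf a n ≤ CW) (hw : ∀ n : ℤ, Wh H a n ≤ w) (hw0 : 0 ≤ w) (u v : ℕ) (huv : u ≤ v)
    (hE : (((Icc 1 v).filter (fun n : ℕ => Wf a (n : ℤ) ≠ Wh H a (n : ℤ))).card : ℝ) ≤ CE) :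
    L1 a v - L1 a u ≤ 2 * (((v : ℝ) - u) * w + CE * CW) := by
  have hCW : 0 ≤ CW := (Wf_nonneg a 0).trans (hW 0)
  have h1 : L1 a v - L1 a u ≤ ∑ n ∈ Ioc u v, 2 * Wf a (n : ℤ) := by
    have e1 : Icc 2 u ⊆ Icc 2 v := Icc_subset_Icc_right huv
    have e2 : L1 a v - L1 a u = ∑ n ∈ Icc 2 v \ Icc 2 u, Wf a (n : ℤ) / Real.log n := by
      unfold L1
      rw [← sum_sdiff e1]
      ring
    rw [e2]
    have e3 : Icc 2 v \ Icc 2 u ⊆ Ioc u v := by
      intro n hn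
      rw [mem_sdiff, mem_Icc, mem_Icc] at hn
      rw [mem_Ioc]
      omega
    refine le_trans (sum_le_sum fun n hn => ?_) (sum_le_sum_of_subset_of_nonneg e3 fun n _ _ => ?_)
    · rw [mem_sdiff, mem_Icc] at hn
      have h2 : (2 : ℝ) ≤ n := by exact_mod_cast hn.1.1
      have h3 : (1 : ℝ) / 2 ≤ Real.log n := by
        have h4 := Real.log_two_gt_d9
        have h5 := Real.log_le_log (by norm_num) h2
        linarith
      rw [div_le_iff₀ (by linarith)]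
      have := Wf_nonneg a (n : ℤ)
      nlinarith
    · exact mul_nonneg (by norm_num) (Wf_nonneg a _)
  refine h1.trans ?_
  rw [← mul_sum]
  refine mul_le_mul_of_nonneg_left ?_ (by norm_num)
  have h2 : ∑ n ∈ Ioc u v, Wf a (n : ℤ) ≤ ∑ n ∈ Ioc u v, (w + if Wf a (n : ℤ) ≠ Wh H a (n : ℤ) then CW else 0) := by
    refine sum_le_sum fun n _ => ?_
    by_cases h : Wf a (n : ℤ) = Wh H a (n : ℤ)
    · rw [if_neg (not_not.2 h), add_zero, h]
      exact hw _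
    · rw [if_pos h]
      linarith [hW (n : ℤ)]
  refine h2.trans ?_
  rw [sum_add_distrib, sum_const, Nat.card_Ioc, nsmul_eq_mul, Nat.cast_sub huv, ← sum_filter, sum_const, nsmul_eq_mul]
  refine add_le_add le_rfl (mul_le_mul_of_nonneg_right (le_trans ?_ hE) hCW)
  have : (Ioc u v).filter (fun n : ℕ => Wf a (n : ℤ) ≠ Wh H a (n : ℤ)) ⊆
      (Icc 1 v).filter (fun n : ℕ => Wf a (n : ℤ) ≠ Wh H a (n : ℤ)) := by
    intro n hn
    rw [mem_filter, mem_Ioc] at hn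
    rw [mem_filter, mem_Icc]
    exact ⟨by omega, hn.2⟩
  exact_mod_cast card_le_card this

/-- the sizes of the error terms -/
lemma ana (κ L K C CV CT CE CW P c Δ M : ℝ) (m D A A1 A2 : ℕ) (hκ1 : 1 ≤ κ) (hL1 : 1 ≤ L) (hκup : κ ≤ 2 * L) (hKpos : 0 < K)
    (hP1 : 1 ≤ P) (hc : 0 < c) (hCV1 : 1 ≤ CV) (hCT1 : 1 ≤ CT) (hCE1 : 1 ≤ CE) (hCW1 : 1 ≤ CW)
    (hA2 : A2 = A + D + 2) (hA1 : A1 = A + m + D + 2) (r1 : 48 * P / c ≤ κ) (r2 : 48 * P * CV ^ m * CT / c ≤ κ)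
    (r3 : 24 * P * CV ^ m * CE * CW / c * 2 ^ (D + 1 + A + m) ≤ L) (hΔK : Δ ≤ 2 * K / κ ^ A1)
    (hLB : L ^ (D + 1 + A + m + m + 1) ≤ K) (hC : C ≤ CV ^ m * κ ^ m) (hC0 : 0 ≤ C) (hΔ0 : 0 ≤ Δ)
    (hM : M = c * K / (4 * P * L ^ m * κ ^ (D + 1))) :
    4 * K / (κ ^ A2 * L ^ m) ≤ M / κ ^ A / 3 ∧ C * (2 * (Δ * (CT / L ^ m))) ≤ M / κ ^ A / 3 ∧
    C * (2 * (CE * CW)) ≤ M / κ ^ A / 3 := by
  have hκ0 : 0 < κ := by linarith
  have hL0 : 0 < L := by linarith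
  have hLm : 0 < L ^ m := by positivity
  have hCE0 : 0 < CE := by linarith
  have hCW0 : 0 < CW := by linarith
  refine ⟨?_, ?_, ?_⟩
  · have e6 : M / κ ^ A / 3 = 4 * K / (κ ^ A2 * L ^ m) * (κ / (48 * P / c)) := by
      rw [hM, hA2, show A + D + 2 = A + (D + 1) + 1 by ring, pow_add κ (A + (D + 1)) 1, pow_add κ A (D + 1)]
      field_simp
      ring
    rw [e6]
    refine le_mul_of_one_le_right (by positivity) ?_
    rw [one_le_div (by positivity)]
    exact r1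
  · have e6 : M / κ ^ A / 3 = CV ^ m * κ ^ m * (2 * ((2 * K / κ ^ A1) * (CT / L ^ m))) * (κ / (48 * P * CV ^ m * CT / c)) := by
      rw [hM, hA1, show A + m + D + 2 = A + m + (D + 1) + 1 by ring, pow_add κ (A + m + (D + 1)) 1, pow_add κ (A + m) (D + 1),
        pow_add κ A m]
      field_simp
      ring
    rw [e6]
    have h1 : C * (2 * (Δ * (CT / L ^ m))) ≤ CV ^ m * κ ^ m * (2 * ((2 * K / κ ^ A1) * (CT / L ^ m))) := by
      refine mul_le_mul hC ?_ (by positivity) (by positivity)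
      exact mul_le_mul_of_nonneg_left (mul_le_mul_of_nonneg_right hΔK (by positivity)) (by norm_num)
    refine h1.trans (le_mul_of_one_le_right (by positivity) ?_)
    rw [one_le_div (by positivity)]
    exact r2
  · have h1 : C * (2 * (CE * CW)) ≤ CV ^ m * κ ^ m * (2 * (CE * CW)) :=
      mul_le_mul_of_nonneg_right hC (by positivity)
    refine h1.trans ?_
    have hKbig : (24 * P * CV ^ m * CE * CW / c * 2 ^ (D + 1 + A + m)) * (L ^ (D + 1 + A + m) * L ^ m) ≤ K := by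
      calc (24 * P * CV ^ m * CE * CW / c * 2 ^ (D + 1 + A + m)) * (L ^ (D + 1 + A + m) * L ^ m)
          ≤ L * (L ^ (D + 1 + A + m) * L ^ m) := mul_le_mul_of_nonneg_right r3 (by positivity)
        _ = L ^ (D + 1 + A + m + m + 1) := by ring
        _ ≤ K := hLB
    have hκpow : κ ^ (D + 1 + A + m) ≤ 2 ^ (D + 1 + A + m) * L ^ (D + 1 + A + m) := by
      rw [← mul_pow]
      exact pow_le_pow_left₀ hκ0.le hκup _
    have e6 : M / κ ^ A / 3 = CV ^ m * κ ^ m * (2 * (CE * CW)) *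
        (K / ((24 * P * CV ^ m * CE * CW / c) * (κ ^ (D + 1 + A + m) * L ^ m))) := by
      rw [hM, pow_add κ (D + 1 + A) m, pow_add κ (D + 1) A]
      field_simp
      ring
    rw [e6]
    refine le_mul_of_one_le_right (by positivity) ?_
    rw [one_le_div (by positivity)]
    refine le_trans ?_ hKbig
    calc (24 * P * CV ^ m * CE * CW / c) * (κ ^ (D + 1 + A + m) * L ^ m)
        ≤ (24 * P * CV ^ m * CE * CW / c) * ((2 ^ (D + 1 + A + m) * L ^ (D + 1 + A + m)) * L ^ m) := by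
          refine mul_le_mul_of_nonneg_left (mul_le_mul_of_nonneg_right hκpow hLm.le) (by positivity)
      _ = _ := by ring

theorem t : S_VZ → S_SECP → S_TVP → S_EXCP → S_LOWCP → S_LOWLP → S_TV → S_BLKP := by
  intro hVZ hSEC hTVP hEX hLC hLL hTV m dd A hdd
  classical
  obtain ⟨CV, hCV1, hCV⟩ := hVZ
  obtain ⟨CT, hCT1, hCT⟩ := hTVP m dd
  obtain ⟨CE, hCE1, hCE⟩ := hEX m dd hdd
  obtain ⟨c, D, hc, hLC'⟩ := hLC m dd
  obtain ⟨K0, hLL'⟩ := hLL m dd hdd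
  obtain ⟨CW, hCW1, hCW⟩ := hTV m dd
  obtain ⟨A2, hA2⟩ : ∃ A2, A2 = A + D + 2 := ⟨_, rfl⟩
  obtain ⟨A1, hA1⟩ : ∃ A1, A1 = A + m + D + 2 := ⟨_, rfl⟩
  obtain ⟨A', hA'⟩ : ∃ A', A' = 2 * A2 + A1 + A + 1 := ⟨_, rfl⟩
  obtain ⟨E1, hE1⟩ := hSEC m dd A' hdd
  refine ⟨max E1 1, fun E hE => ?_⟩
  have hE1' : E1 ≤ E := le_trans (le_max_left _ _) hE
  have hE1'' : 1 ≤ E := le_trans (le_max_right _ _) hE
  obtain ⟨B0, H0, hH0⟩ := hE1 E hE1'
  obtain ⟨P, hP⟩ : ∃ P : ℝ, P = ∏ i, ((dd i : ℝ) + 2) := ⟨_, rfl⟩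
  have hP1 : 1 ≤ P := by
    rw [hP]
    calc (1 : ℝ) = ∏ _i : Fin m, (1 : ℝ) := by simp
      _ ≤ ∏ i, ((dd i : ℝ) + 2) := prod_le_prod (fun _ _ => zero_le_one) (fun i _ => by
          have : (0 : ℝ) ≤ dd i := Nat.cast_nonneg _
          linarith)
  obtain ⟨Y0, hY0⟩ : ∃ Y0 : ℕ, ∀ n : ℕ, Y0 ≤ n → (n : ℝ) ^ (A1 + 1) ≤ 2 ^ n := by
    have h1 := tendsto_pow_const_div_const_pow_of_one_lt (A1 + 1) (show (1 : ℝ) < 2 by norm_num)
    have h2 := h1.eventually_le_const (show (0 : ℝ) < 1 by norm_num)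
    obtain ⟨Y0, hY0⟩ := Filter.eventually_atTop.1 h2
    refine ⟨Y0, fun n hn => ?_⟩
    have h3 := hY0 n hn
    rwa [div_le_one (by positivity)] at h3
  obtain ⟨X0, hX0⟩ : ∃ X0 : ℝ, X0 = 8 + 4 * 2 ^ A' + 48 * P / c + 48 * P * CV ^ m * CT / c +
      24 * P * CV ^ m * CE * CW / c * 2 ^ (D + 1 + A + m) + K0 + Y0 := ⟨_, rfl⟩
  have q6 : (0 : ℝ) ≤ Y0 := Nat.cast_nonneg _
  have q1 : 0 ≤ 4 * (2 : ℝ) ^ A' := by positivity
  have q2 : 0 ≤ 48 * P / c := by positivity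
  have q3 : 0 ≤ 48 * P * CV ^ m * CT / c := by positivity
  have q4 : 0 ≤ 24 * P * CV ^ m * CE * CW / c * 2 ^ (D + 1 + A + m) := by positivity
  have q5 : (0 : ℝ) ≤ K0 := Nat.cast_nonneg _
  obtain ⟨H1, hH1⟩ : ∃ H1 : ℕ, ∀ H : ℕ, H1 ≤ H → X0 ≤ Real.log (Real.log H) := by
    have := (Real.tendsto_log_atTop.comp (Real.tendsto_log_atTop.comp tendsto_natCast_atTop_atTop)).eventually_ge_atTop X0
    exact Filter.eventually_atTop.1 this
  obtain ⟨B, hB⟩ : ∃ B, B = B0 + E + D + A + 2 * m + 4 := ⟨_, rfl⟩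
  refine ⟨B, max (max H0 H1) 16, fun H hH k hk1 hk2 => ?_⟩
  have aS := hH0 H (le_trans (le_trans (le_max_left _ _) (le_max_left _ _)) hH)
  have aX := hH1 H (le_trans (le_trans (le_max_right _ _) (le_max_left _ _)) hH)
  have hH16 : 16 ≤ H := le_trans (le_max_right _ _) hH
  have hHr : (16 : ℝ) ≤ H := by exact_mod_cast hH16
  obtain ⟨L, hL⟩ : ∃ L : ℝ, L = Real.log H := ⟨_, rfl⟩
  rw [← hL] at aX hk1 hk2 aS
  have hL0 : 0 < L := by rw [hL]; exact Real.log_pos (by linarith)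
  have hX08 : 8 ≤ X0 := by linarith
  have hlL : X0 ≤ L := by
    have := Real.log_le_sub_one_of_pos hL0
    linarith
  have hL8 : 8 ≤ L := by linarith
  have hL1 : 1 ≤ L := by linarith
  have hlL0 : 0 < Real.log L := by linarith
  -- the number `κ`
  obtain ⟨κ, hκ⟩ : ∃ κ : ℝ, κ = k := ⟨_, rfl⟩
  have hl2a := Real.log_two_gt_d9
  have hl2b := Real.log_two_lt_d9
  have hκB : (B : ℝ) * Real.log L ≤ κ := by
    have h1 : Real.log (L ^ B) ≤ Real.log ((2 : ℝ) ^ k) := Real.log_le_log (by positivity) hk1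
    rw [Real.log_pow, Real.log_pow] at h1
    have h2 : (k : ℝ) * Real.log 2 ≤ k * 1 := mul_le_mul_of_nonneg_left (by linarith) (Nat.cast_nonneg _)
    rw [hκ]
    linarith
  have hB1 : (1 : ℝ) ≤ B := by
    have : 1 ≤ B := by omega
    exact_mod_cast this
  have hκL : Real.log L ≤ κ := le_trans (by nlinarith) hκB
  have hκX : X0 ≤ κ := aX.trans hκL
  have hκ8 : 8 ≤ κ := by linarith
  have hκ0 : 0 < κ := by linarith
  have hκ1 : 1 ≤ κ := by linarith
  have hk8 : 8 ≤ k := by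
    rw [hκ] at hκ8
    exact_mod_cast hκ8
  have hκup : κ ≤ 2 * L := by
    have h1 : (2 : ℝ) ^ k ≤ H := by
      refine le_trans ?_ hk2
      exact le_mul_of_one_le_right (by positivity) (one_le_pow₀ hL1)
    have h2 := Real.log_le_log (by positivity) h1
    rw [Real.log_pow, ← hL, ← hκ] at h2
    nlinarith
  -- the constant
  obtain ⟨z, hz⟩ : ∃ z : ℕ, z = ⌊L ^ E⌋₊ := ⟨_, rfl⟩
  rw [← hL, ← hz]
  rw [← hz] at aS
  have hLE : L ≤ L ^ E := le_self_pow₀ hL1 (by omega)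
  have hz3 : 3 ≤ z := by rw [hz]; exact Nat.le_floor (by push_cast; linarith)
  have hzr : (z : ℝ) ≤ L ^ E := by rw [hz]; exact Nat.floor_le (by positivity)
  have hz3r : (3 : ℝ) ≤ z := by exact_mod_cast hz3
  have hz0 : (0 : ℝ) < z := by linarith
  have hlz : Real.log z ≤ κ := by
    have h1 := Real.log_le_log hz0 hzr
    rw [Real.log_pow] at h1
    have h2 : (E : ℝ) ≤ B := by
      have : E ≤ B := by omega
      exact_mod_cast this
    have h3 : (E : ℝ) * Real.log L ≤ B * Real.log L := mul_le_mul_of_nonneg_right h2 hlL0.le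
    linarith
  have hlz0 : 0 < Real.log z := Real.log_pos (by linarith)
  have hVpos : 0 < (Vz z)⁻¹ := inv_pos.2 (Pool.Agent.H373R2.T7.Vz_pos z)
  have hVκ : ((Vz z)⁻¹) ^ m ≤ CV ^ m * κ ^ m := by
    rw [← mul_pow]
    apply pow_le_pow_left₀ hVpos.le
    exact (hCV z (by omega)).trans (mul_le_mul_of_nonneg_left hlz (by linarith))
  -- the grid
  obtain ⟨Δ, hΔ⟩ : ∃ Δ : ℕ, Δ = 2 ^ k / k ^ A1 + 1 := ⟨_, rfl⟩
  have hΔ1 : 1 ≤ Δ := by rw [hΔ]; exact Nat.le_add_left 1 _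
  have hΔ0 : (0 : ℝ) < Δ := by exact_mod_cast hΔ1
  have hkA : (0 : ℝ) < κ ^ A1 := by positivity
  have hΔlow : (2 : ℝ) ^ k / κ ^ A1 ≤ Δ := by
    rw [div_le_iff₀ hkA, hκ]
    have h1 : 2 ^ k < (2 ^ k / k ^ A1 + 1) * k ^ A1 := by
      have := Nat.lt_mul_div_succ (2 ^ k) (show 0 < k ^ A1 by positivity)
      rw [mul_comm] at this
      exact this
    rw [← hΔ] at h1
    exact_mod_cast h1.le
  have h2kbig : κ ^ (A1 + 1) ≤ 2 ^ k := by
    rw [hκ]
    apply hY0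
    have h1 : (Y0 : ℝ) ≤ k := by
      rw [← hκ]
      linarith
    exact_mod_cast h1
  have hΔup : (Δ : ℝ) ≤ 2 * 2 ^ k / κ ^ A1 := by
    have h1 : ((2 ^ k / k ^ A1 : ℕ) : ℝ) ≤ (2 : ℝ) ^ k / κ ^ A1 := by
      have := @Nat.cast_div_le ℝ _ _ _ (2 ^ k) (k ^ A1)
      push_cast at this
      rw [hκ]
      exact this
    have h2 : 1 ≤ (2 : ℝ) ^ k / κ ^ A1 := by
      rw [le_div_iff₀ hkA, one_mul]
      exact (pow_le_pow_right₀ hκ1 (by omega)).trans h2kbig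
    rw [hΔ]
    push_cast
    push_cast at h1
    have e : 2 * 2 ^ k / κ ^ A1 = (2 : ℝ) ^ k / κ ^ A1 + (2 : ℝ) ^ k / κ ^ A1 := by ring
    linarith
  have hΔ4 : (Δ : ℝ) ≤ 2 ^ k / 4 := by
    refine hΔup.trans ?_
    rw [div_le_iff₀ hkA]
    have h1 : 8 ≤ κ ^ A1 := hκ8.trans (le_self_pow₀ hκ1 (by omega))
    have h2 : (0 : ℝ) < 2 ^ k := by positivity
    nlinarith
  have hΔle : Δ ≤ 2 ^ k := by
    have h1 : (Δ : ℝ) ≤ 2 ^ k := by
      have : (0 : ℝ) < 2 ^ k := by positivity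
      linarith
    exact_mod_cast h1
  obtain ⟨J, hJ⟩ : ∃ J : Finset ℕ, J = (range (2 * k ^ A1 + 3)).filter (fun j => 2 ^ k ≤ 2 * (Δ * j) ∧ Δ * j ≤ 2 ^ (k + 2)) :=
    ⟨_, rfl⟩
  have hJc : (J.card : ℝ) ≤ 3 * κ ^ A1 := by
    have h1 : J.card ≤ 2 * k ^ A1 + 3 := by
      rw [hJ]
      exact (card_filter_le _ _).trans (card_range _).le
    have h2 : (J.card : ℝ) ≤ 2 * κ ^ A1 + 3 := by
      rw [hκ]
      exact_mod_cast h1
    have h3 : 8 ≤ κ ^ A1 := hκ8.trans (le_self_pow₀ hκ1 (by omega))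
    linarith
  -- exceptional sets
  obtain ⟨F, hF⟩ : ∃ F : ℕ → (∀ i : Fin m, Fin (dd i + 1) → ℤ) → ℝ,
    F = fun j a => P1 a (Δ * j) - C1 z a * L1 a (Δ * j) := ⟨_, rfl⟩
  obtain ⟨Bq, hBq⟩ : ∃ Bq : ℕ → Finset (∀ i : Fin m, Fin (dd i + 1) → ℤ),
    Bq = fun j => (bl dd H).filter (fun a => ((Δ * j : ℕ) : ℝ) / (κ ^ A2 * L ^ m) < |F j a|) := ⟨_, rfl⟩
  have hNb : ∀ j ∈ J, (2 : ℝ) ^ k / 2 ≤ ((Δ * j : ℕ) : ℝ) ∧ ((Δ * j : ℕ) : ℝ) ≤ 4 * 2 ^ k := by
    intro j hj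
    rw [hJ, mem_filter] at hj
    obtain ⟨-, h1, h2⟩ := hj
    have h3 : (2 : ℝ) ^ k ≤ 2 * ((Δ * j : ℕ) : ℝ) := by exact_mod_cast h1
    have h4 : ((Δ * j : ℕ) : ℝ) ≤ 2 ^ (k + 2) := by exact_mod_cast h2
    rw [pow_add] at h4
    constructor <;> linarith
  have h2kB : 2 * L ^ B0 ≤ 2 ^ k := by
    refine le_trans ?_ hk1
    calc 2 * L ^ B0 ≤ L ^ 1 * L ^ B0 := mul_le_mul_of_nonneg_right (by rw [pow_one]; linarith) (by positivity)
      _ = L ^ (1 + B0) := (pow_add _ _ _).symm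
      _ ≤ L ^ B := pow_le_pow_right₀ hL1 (by omega)
  have hBqc : ∀ j ∈ J, ((Bq j).card : ℝ) ≤ ((bx dd H).card : ℝ) * 2 ^ A' / κ ^ (A1 + A + 1) := by
    intro j hj
    obtain ⟨n1, n2⟩ := hNb j hj
    obtain ⟨N, hN⟩ : ∃ N : ℕ, N = Δ * j := ⟨_, rfl⟩
    have h2k0 : (0 : ℝ) < 2 ^ k := by positivity
    have hNpos : (0 : ℝ) < N := by rw [hN]; linarith
    have h1 := aS N (by rw [hN]; linarith) (by
      calc (N : ℝ) * L ^ B0 ≤ (4 * 2 ^ k) * L ^ B0 := mul_le_mul_of_nonneg_right (by rw [hN]; exact n2) (by positivity)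
        _ = 2 ^ k * (4 * L ^ B0) := by ring
        _ ≤ 2 ^ k * (L ^ 1 * L ^ B0) := by
            refine mul_le_mul_of_nonneg_left (mul_le_mul_of_nonneg_right (by rw [pow_one]; linarith) (by positivity)) h2k0.le
        _ = 2 ^ k * L ^ (1 + B0) := by rw [pow_add]
        _ ≤ 2 ^ k * L ^ B := mul_le_mul_of_nonneg_left (pow_le_pow_right₀ hL1 (by omega)) h2k0.le
        _ ≤ H := hk2)
    have hlogN : κ / 2 ≤ Real.log N := by
      have h3 : Real.log ((2 : ℝ) ^ k / 2) ≤ Real.log N := Real.log_le_log (by positivity) (by rw [hN]; exact n1)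
      rw [Real.log_div (by positivity) (by norm_num), Real.log_pow, ← hκ] at h3
      nlinarith
    have h2 := Pool.Agent.H13K.ALL.cheb (bl dd H) (fun a => P1 a N - C1 z a * L1 a N) ((N : ℝ) / (κ ^ A2 * L ^ m)) _
      (by positivity) h1
    have h3 : ((Bq j).card : ℝ) ≤ ((bx dd H).card : ℝ) * (N : ℝ) ^ 2 / (Real.log N ^ A' * L ^ (2 * m)) /
        ((N : ℝ) / (κ ^ A2 * L ^ m)) ^ 2 := by
      rw [hBq, hF]
      subst hN
      exact h2
    refine h3.trans ?_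
    have hlogN0 : 0 < Real.log N := lt_of_lt_of_le (by linarith) hlogN
    have h4 : (κ / 2) ^ A' ≤ Real.log N ^ A' := pow_le_pow_left₀ (by positivity) hlogN _
    have hb0 : (0 : ℝ) ≤ ((bx dd H).card : ℝ) := Nat.cast_nonneg _
    calc ((bx dd H).card : ℝ) * (N : ℝ) ^ 2 / (Real.log N ^ A' * L ^ (2 * m)) / ((N : ℝ) / (κ ^ A2 * L ^ m)) ^ 2
        = ((bx dd H).card : ℝ) * κ ^ (2 * A2) / Real.log N ^ A' := by
          rw [div_pow, mul_pow, ← pow_mul, ← pow_mul, mul_comm A2 2, mul_comm m 2]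
          field_simp
      _ ≤ ((bx dd H).card : ℝ) * κ ^ (2 * A2) / (κ / 2) ^ A' :=
          div_le_div_of_nonneg_left (by positivity) (by positivity) h4
      _ = ((bx dd H).card : ℝ) * 2 ^ A' / κ ^ (A1 + A + 1) := by
          rw [div_pow, hA', show 2 * A2 + A1 + A + 1 = 2 * A2 + (A1 + A + 1) by ring, pow_add κ (2 * A2)]
          field_simp
  refine ⟨J.biUnion Bq, ?_, ?_, ?_⟩
  · refine biUnion_subset.2 fun j _ => ?_
    rw [hBq]
    exact filter_subset _ _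
  · have h2 : ((J.biUnion Bq).card : ℝ) ≤ ∑ j ∈ J, ((Bq j).card : ℝ) := by exact_mod_cast card_biUnion_le
    refine h2.trans ((sum_le_sum hBqc).trans ?_)
    rw [sum_const, nsmul_eq_mul, ← hκ]
    have hb0 : (0 : ℝ) ≤ ((bx dd H).card : ℝ) := Nat.cast_nonneg _
    calc (J.card : ℝ) * (((bx dd H).card : ℝ) * 2 ^ A' / κ ^ (A1 + A + 1))
        ≤ (3 * κ ^ A1) * (((bx dd H).card : ℝ) * 2 ^ A' / κ ^ (A1 + A + 1)) :=
          mul_le_mul_of_nonneg_right hJc (by positivity)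
      _ = ((bx dd H).card : ℝ) / κ ^ A * (3 * 2 ^ A' / κ) := by
          rw [pow_add, pow_add]
          field_simp
      _ ≤ ((bx dd H).card : ℝ) / κ ^ A * 1 := by
          refine mul_le_mul_of_nonneg_left ?_ (by positivity)
          rw [div_le_one hκ0]
          have : (0 : ℝ) < 2 ^ A' := by positivity
          linarith
      _ = ((bx dd H).card : ℝ) / κ ^ A := mul_one _
  · intro a ha hbad hobs K hK1 hK2
    have habx : a ∈ bx dd H := (mem_filter.1 ha).1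
    have hlead : ∀ i, a i (Fin.last (dd i)) ≠ 0 := by
      intro i h
      have h1 := (mem_filter.1 ha).2 i
      rw [h, Int.cast_zero, abs_zero] at h1
      have h2 : 0 < √(H : ℝ) := Real.sqrt_pos.2 (by linarith)
      linarith
    have hcard := hCE H hH16 a ha
    obtain ⟨hWh, -⟩ := hCT H (by omega) a
    obtain ⟨hWf, -⟩ := hCW a
    obtain ⟨c1, c2, c3⟩ := hLC' z a hz3
    have c4 := c3 hobs
    have h2k0 : (0 : ℝ) < 2 ^ k := by positivity
    have hK1r : (2 : ℝ) ^ k ≤ K := by exact_mod_cast hK1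
    have hK2r : (K : ℝ) ≤ 2 * 2 ^ k := by
      have : (K : ℝ) ≤ 2 ^ (k + 1) := by exact_mod_cast hK2
      rw [pow_succ] at this
      linarith
    have hKpos : (0 : ℝ) < K := by linarith
    have hLm : 0 < L ^ m := by positivity
    -- the two grid points
    obtain ⟨j, hj⟩ : ∃ j : ℕ, j = K / Δ := ⟨_, rfl⟩
    have g1 : Δ * j ≤ K := by rw [hj]; exact Nat.mul_div_le K Δ
    have g2 : K < Δ * (j + 1) := by
      rw [hj]
      exact Nat.lt_mul_div_succ K hΔ1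
    have g1r : (Δ : ℝ) * j ≤ K := by exact_mod_cast g1
    have g2r : (K : ℝ) < Δ * (j + 1) := by exact_mod_cast g2
    have hjr : (j : ℝ) ≤ 2 * κ ^ A1 := by
      have h1 : (Δ : ℝ) * j ≤ Δ * (2 * κ ^ A1) := by
        calc (Δ : ℝ) * j ≤ 2 * 2 ^ k := g1r.trans hK2r
          _ = (2 : ℝ) ^ k / κ ^ A1 * (2 * κ ^ A1) := by field_simp
          _ ≤ Δ * (2 * κ ^ A1) := mul_le_mul_of_nonneg_right hΔlow (by positivity)
      exact le_of_mul_le_mul_left h1 hΔ0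
    have hjn : j ≤ 2 * k ^ A1 := by
      rw [hκ] at hjr
      exact_mod_cast hjr
    have hjJ : j ∈ J ∧ j + 1 ∈ J := by
      rw [hJ, mem_filter, mem_filter, mem_range, mem_range]
      have e1 : Δ * (j + 1) = Δ * j + Δ := by ring
      rw [e1]
      rw [e1] at g2
      have h4Δ : 4 * Δ ≤ 2 ^ k := by
        have : 4 * (Δ : ℝ) ≤ 2 ^ k := by linarith
        exact_mod_cast this
      have e2 : 2 ^ (k + 2) = 4 * 2 ^ k := by ring
      have e3 : 2 ^ (k + 1) = 2 * 2 ^ k := by ring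
      rw [e3] at hK2
      rw [e2]
      refine ⟨⟨by omega, by omega, by omega⟩, by omega, by omega, by omega⟩
    have hFb : ∀ j' ∈ J, |F j' a| ≤ ((Δ * j' : ℕ) : ℝ) / (κ ^ A2 * L ^ m) := by
      intro j' hj'
      by_contra hcon
      push Not at hcon
      apply hbad
      rw [mem_biUnion]
      refine ⟨j', hj', ?_⟩
      rw [hBq, mem_filter]
      exact ⟨ha, hcon⟩
    have hb : ∀ j' ∈ J, |F j' a| ≤ 4 * K / (κ ^ A2 * L ^ m) := by
      intro j' hj'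
      refine (hFb j' hj').trans (div_le_div_of_nonneg_right ?_ (by positivity))
      have := (hNb j' hj').2
      linarith
    have b1 := hb j hjJ.1
    have b2 := hb (j + 1) hjJ.2
    rw [hF] at b1 b2
    dsimp only at b1 b2
    rw [abs_le] at b1 b2
    have p1 := P1_mono a g1
    have p2 := P1_mono a g2.le
    have l1 := L1_mono a g1
    have l2 := L1_mono a g2.le
    have hdiff := L1_diff a H CW CE (CT / L ^ m) (fun n => (hWf n).2) (fun n => by rw [hL]; exact (hWh n).2) (by positivity)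
      (Δ * j) (Δ * (j + 1)) (Nat.mul_le_mul_left _ (by omega)) (hcard _)
    have e4 : ((Δ * (j + 1) : ℕ) : ℝ) - ((Δ * j : ℕ) : ℝ) = Δ := by push_cast; ring
    rw [e4] at hdiff
    set C := C1 z a with hC
    -- lower bound of the main term
    have hKK0 : K0 ≤ K := by
      have h1 : (K0 : ℝ) ≤ K := by
        calc (K0 : ℝ) ≤ κ := by linarith
          _ ≤ κ ^ (A1 + 1) := le_self_pow₀ hκ1 (by omega)
          _ ≤ 2 ^ k := h2kbig
          _ ≤ K := hK1r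
      exact_mod_cast h1
    have hKH : K ≤ H := by
      have h1 : (K : ℝ) ≤ H := by
        calc (K : ℝ) ≤ 2 * 2 ^ k := hK2r
          _ = 2 ^ k * 2 := by ring
          _ ≤ 2 ^ k * L ^ B := by
              refine mul_le_mul_of_nonneg_left ?_ h2k0.le
              calc (2 : ℝ) ≤ L := by linarith
                _ ≤ L ^ B := le_self_pow₀ hL1 (by omega)
          _ ≤ H := hk2
      exact_mod_cast h1
    have hlow := hLL' H 0 K (by omega) hKH a habx hlead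
    have e5 : L1 a 0 = 0 := by unfold L1; simp
    rw [e5, sub_zero, Nat.cast_zero, sub_zero, ← hP, ← hL] at hlow
    have hlogK : Real.log K ≤ κ := by
      have h1 := Real.log_le_log hKpos hK2r
      rw [Real.log_mul (by norm_num) (by positivity), Real.log_pow, ← hκ] at h1
      nlinarith
    have hlogK0 : 0 < Real.log K := Real.log_pos (by
      have : (1 : ℝ) < 2 ^ k := one_lt_pow₀ (by norm_num) (by omega)
      linarith)
    have hlow2 : K / (4 * P * L ^ m * κ) ≤ L1 a K := by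
      refine le_trans ?_ hlow
      apply div_le_div_of_nonneg_left hKpos.le (by positivity)
      exact mul_le_mul_of_nonneg_left hlogK (by positivity)
    have hClow : c / κ ^ D ≤ C := by
      refine le_trans ?_ c4
      exact div_le_div_of_nonneg_left hc.le (by positivity) (pow_le_pow_left₀ hlz0.le hlz _)
    have hCpos : 0 < C := lt_of_lt_of_le (by positivity) hClow
    have hLpos : 0 < L1 a K := lt_of_lt_of_le (by positivity) hlow2
    obtain ⟨M, hM⟩ : ∃ M : ℝ, M = c * K / (4 * P * L ^ m * κ ^ (D + 1)) := ⟨_, rfl⟩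
    have hmain : M ≤ C * L1 a K := by
      rw [hM]
      calc c * K / (4 * P * L ^ m * κ ^ (D + 1)) = c / κ ^ D * (K / (4 * P * L ^ m * κ)) := by
            rw [pow_succ]
            field_simp
        _ ≤ C * L1 a K := mul_le_mul hClow hlow2 (by positivity) hCpos.le
    have hgoal : M / κ ^ A ≤ C * L1 a K / Real.log K ^ A := by
      have h1 : Real.log K ^ A ≤ κ ^ A := pow_le_pow_left₀ hlogK0.le hlogK _
      calc M / κ ^ A ≤ C * L1 a K / κ ^ A := div_le_div_of_nonneg_right hmain (by positivity)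
        _ ≤ C * L1 a K / Real.log K ^ A := div_le_div_of_nonneg_left (by positivity) (by positivity) h1
    refine le_trans ?_ hgoal
    -- the three terms
    have hΔK : (Δ : ℝ) ≤ 2 * K / κ ^ A1 := by
      refine hΔup.trans (div_le_div_of_nonneg_right ?_ (by positivity))
      linarith
    have hLB : L ^ (D + 1 + A + m + m + 1) ≤ K :=
      ((pow_le_pow_right₀ hL1 (by omega)).trans hk1).trans hK1r
    obtain ⟨t1, t2, t3⟩ := ana κ L K C CV CT CE CW P c Δ M m D A A1 A2 hκ1 hL1 hκup hKpos hP1 hc hCV1 hCT1 hCE1 hCW1 hA2 hA1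
      (by linarith) (by linarith) (by linarith) hΔK hLB (c2.trans hVκ) hCpos.le hΔ0.le hM
    have hCdiff : C * (L1 a (Δ * (j + 1)) - L1 a (Δ * j)) ≤ M / κ ^ A / 3 + M / κ ^ A / 3 := by
      calc C * (L1 a (Δ * (j + 1)) - L1 a (Δ * j)) ≤ C * (2 * (Δ * (CT / L ^ m) + CE * CW)) :=
            mul_le_mul_of_nonneg_left hdiff hCpos.le
        _ = C * (2 * (Δ * (CT / L ^ m))) + C * (2 * (CE * CW)) := by ring
        _ ≤ _ := add_le_add t2 t3
    have m1 : C * L1 a (Δ * j) ≤ C * L1 a K := mul_le_mul_of_nonneg_left l1 hCpos.le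
    have m2 : C * L1 a K ≤ C * L1 a (Δ * (j + 1)) := mul_le_mul_of_nonneg_left l2 hCpos.le
    rw [mul_sub] at hCdiff
    rw [abs_le]
    constructor
    · linarith [b1.1]
    · linarith [b2.2]

end Pool.Agent.H12P.BLKP
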