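import Pool.Agent.H12P.Stm
import Pool.Agent.H13K.CRT

/-! Stub CRTP (helper64). -/

set_option autoImplicit false

namespace Pool.Agent.H12P.CRTP

open Finset
open Pool.Agent.H373R2.T7 (lamz pz Vz mem_pz)
open Pool.Agent.H13K
open Pool.Agent.H13K.CRT

/-- indicator of the integers prime to `p` -/
noncomputable def cp (p α : ℕ) : ℝ := if p ∣ α then 0 else 1

lemma cp_mod (p α : ℕ) : cp p (α % p) = cp p α := by
  unfold cp
  simp only [Nat.dvd_mod_iff dvd_rfl]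

lemma cp_prod (s : Finset ℕ) (α : ℕ) : (∏ p ∈ s, cp p α) = if ∀ p ∈ s, ¬ p ∣ α then 1 else 0 := by
  split_ifs with h
  · exact prod_eq_one fun p hp => if_neg (h p hp)
  · push Not at h
    obtain ⟨p, hp, hpa⟩ := h
    exact prod_eq_zero hp (if_pos hpa)

lemma sum_RP (z : ℕ) (f : ℕ → ℝ) :
    ∑ α ∈ RP z, f α = ∑ α ∈ range (∏ p ∈ pz z, p), (∏ p ∈ pz z, cp p α) * f α := by
  unfold RP
  rw [sum_filter]
  refine sum_congr rfl fun α _ => ?_
  rw [cp_prod]
  split_ifs <;> simp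

lemma sum_cp (p : ℕ) (hp : p.Prime) : ∑ α ∈ range p, cp p α = (p : ℝ) - 1 := by
  have h1 : ∀ α ∈ range p, cp p α = 1 - (if α = 0 then (1 : ℝ) else 0) := by
    intro α hα
    rw [mem_range] at hα
    unfold cp
    by_cases h : α = 0
    · subst h; simp
    · have h2 : ¬ p ∣ α := fun h3 => absurd (Nat.le_of_dvd (Nat.pos_of_ne_zero h) h3) (by omega)
      rw [if_neg h2, if_neg h, sub_zero]
  rw [sum_congr rfl h1, sum_sub_distrib, sum_const, card_range, nsmul_eq_mul, mul_one, sum_ite_eq' (range p) 0,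
    if_pos (mem_range.2 hp.pos)]

lemma sum_cp_ind {m : ℕ} {dd : Fin m → ℕ} (a : ∀ i : Fin m, Fin (dd i + 1) → ℤ) (p : ℕ) (hp : p.Prime) :
    ∑ α ∈ range p, cp p α * ind a p (α : ℤ) = (p : ℝ) - 1 - om1 p a := by
  have h1 : ∀ α ∈ range p, cp p α * ind a p (α : ℤ) =
      cp p α - (if ¬ p ∣ α ∧ (p : ℤ) ∣ ∏ i, Fv (a i) (α : ℤ) then (1 : ℝ) else 0) := by
    intro α _
    unfold ind cp
    have hpp : Prime (p : ℤ) := Nat.prime_iff_prime_int.1 hp
    by_cases h0 : p ∣ α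
    · rw [if_pos h0, if_neg (fun h => h.1 h0), zero_mul, sub_zero]
    rw [if_neg h0, one_mul]
    by_cases h : (p : ℤ) ∣ ∏ i, Fv (a i) (α : ℤ)
    · rw [if_pos ⟨h0, h⟩, sub_self]
      obtain ⟨i, hi, hd⟩ := (hpp.dvd_finsetProd_iff _).1 h
      exact prod_eq_zero hi (if_pos hd)
    · rw [if_neg (fun h2 => h h2.2), sub_zero]
      refine prod_eq_one fun i hi => if_neg fun hd => h ((hpp.dvd_finsetProd_iff _).2 ⟨i, hi, hd⟩)
  rw [sum_congr rfl h1, sum_sub_distrib, sum_cp p hp, sum_ite, sum_const, sum_const_zero, add_zero, nsmul_eq_mul,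
    mul_one]
  rfl

theorem t : S_CRTP := by
  intro m dd z a
  have hs : ∀ p ∈ pz z, p.Prime := fun p hp => (mem_pz.1 hp).2
  constructor
  · have h := sum_RP z (fun _ => (1 : ℝ))
    rw [sum_const, nsmul_eq_mul, mul_one] at h
    rw [h]
    simp only [mul_one]
    rw [prod_sum (pz z) hs cp (fun p _ α => cp_mod p α)]
    unfold ph
    exact prod_congr rfl fun p hp => sum_cp p (hs p hp)
  · rw [sum_RP z (fun α => sf z a (α : ℤ))]
    simp only [sf_eq]
    have h0 : ∀ α ∈ range (∏ p ∈ pz z, p), (∏ p ∈ pz z, cp p α) * (((Vz z)⁻¹) ^ m * ∏ p ∈ pz z, ind a p (α : ℤ)) =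
        ((Vz z)⁻¹) ^ m * ∏ p ∈ pz z, (cp p α * ind a p (α : ℤ)) := by
      intro α _
      rw [prod_mul_distrib]
      ring
    rw [sum_congr rfl h0, ← mul_sum]
    rw [prod_sum (pz z) hs (fun p α => cp p α * ind a p (α : ℤ)) (fun p _ α => by rw [cp_mod, ind_mod])]
    unfold C1 ph Vz
    rw [← prod_inv_distrib, ← prod_pow, ← prod_mul_distrib, ← prod_mul_distrib]
    refine prod_congr rfl fun p hp => ?_
    have hp2 := (hs p hp).two_le
    have hpr : (2 : ℝ) ≤ p := by exact_mod_cast hp2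
    have hp0 : (p : ℝ) ≠ 0 := by linarith
    have hp3 : (p : ℝ) - 1 ≠ 0 := by linarith
    have hp1 : (1 - 1 / (p : ℝ)) ≠ 0 := by
      have : (1 : ℝ) / p ≤ 1 / 2 := one_div_le_one_div_of_le (by norm_num) hpr
      linarith
    rw [sum_cp_ind a p (hs p hp), inv_pow]
    have hp2 : (1 - 1 / (p : ℝ)) ^ m ≠ 0 := pow_ne_zero _ hp1
    set w := (1 - 1 / (p : ℝ)) ^ m with hw
    rw [show (1 : ℝ) - (om1 p a : ℝ) / (p - 1) = ((p : ℝ) - 1 - om1 p a) / (p - 1) by field_simp]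
    field_simp

end Pool.Agent.H12P.CRTP
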