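import Pool.Agent.H12P.Stm
import Pool.Agent.H13K.LOWL

set_option autoImplicit false

namespace Pool.Agent.H12P.EXCP

open Finset Pool.Agent.H13K
open scoped Polynomial

/-- few integers near a real number -/
lemma card_near (K : ℕ) (x : ℝ) : ((Icc 1 K).filter (fun n : ℕ => |(n : ℝ) - x| < 1)).card ≤ 2 := by
  by_contra hcon
  push Not at hcon
  obtain ⟨a, b, c, ha, hb, hc, hab, hac, hbc⟩ := Finset.two_lt_card_iff.1 hcon
  rw [mem_filter, abs_lt] at ha hb hc
  have key : ∀ u v : ℕ, u < v → -1 < (u : ℝ) - x → (v : ℝ) - x < 1 → v = u + 1 := by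
    intro u v huv h1 h2
    have h3 : (v : ℝ) < (u : ℝ) + 2 := by linarith
    have h4 : v < u + 2 := by exact_mod_cast h3
    omega
  rcases lt_or_gt_of_ne hab with h1 | h1 <;> rcases lt_or_gt_of_ne hac with h2 | h2 <;>
    rcases lt_or_gt_of_ne hbc with h3 | h3 <;>
    first
    | (have e1 := key _ _ h1 (by linarith [ha.2.1, hb.2.1]) (by linarith [ha.2.2, hb.2.2])
       have e2 := key _ _ h2 (by linarith [ha.2.1, hc.2.1]) (by linarith [ha.2.2, hc.2.2])
       have e3 := key _ _ h3 (by linarith [hb.2.1, hc.2.1]) (by linarith [hb.2.2, hc.2.2])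
       omega)

/-- few integers at which the value is smaller than the leading coefficient -/
lemma card_less {d : ℕ} (a : Fin (d + 1) → ℤ) (h0 : a (Fin.last d) ≠ 0) (K : ℕ) :
    ((Icc 1 K).filter (fun n : ℕ => |(Fv a (n : ℤ) : ℝ)| < |(a (Fin.last d) : ℝ)|)).card ≤ 2 * d := by
  classical
  set P : ℂ[X] := (LOWL.po a).map (Int.castRingHom ℂ) with hP
  have hinj : Function.Injective (Int.castRingHom ℂ) := Int.cast_injective
  have hdeg : P.natDegree = d := by
    rw [hP, Polynomial.natDegree_map_eq_of_injective hinj, LOWL.natDegree_po a h0]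
  have hlead : P.leadingCoeff = (a (Fin.last d) : ℂ) := by
    rw [Polynomial.leadingCoeff, hdeg, hP, Polynomial.coeff_map]
    have := LOWL.coeff_po a (Fin.last d)
    rw [Fin.val_last] at this
    rw [this]
    rfl
  have heval : ∀ n : ℤ, P.eval (n : ℂ) = (Fv a n : ℂ) := by
    intro n
    rw [hP, ← LOWL.eval_po a n, Polynomial.eval_map]
    have := Polynomial.eval₂_at_intCast (Int.castRingHom ℂ) (p := LOWL.po a) n
    rw [this]
    rfl
  have hsub : (Icc 1 K).filter (fun n : ℕ => |(Fv a (n : ℤ) : ℝ)| < |(a (Fin.last d) : ℝ)|) ⊆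
      P.roots.toFinset.biUnion (fun r => (Icc 1 K).filter (fun n : ℕ => |(n : ℝ) - r.re| < 1)) := by
    intro n hn
    rw [mem_filter] at hn
    rw [mem_biUnion]
    by_contra hcon
    push Not at hcon
    have h1 : ∀ r ∈ P.roots, 1 ≤ ‖(n : ℂ) - r‖ := by
      intro r hr
      have h2 := hcon r (Multiset.mem_toFinset.2 hr)
      rw [mem_filter] at h2
      have h3 : 1 ≤ |(n : ℝ) - r.re| := by
        by_contra h4
        push Not at h4
        exact h2 ⟨hn.1, h4⟩
      have h4 : ((n : ℂ) - r).re = (n : ℝ) - r.re := by simp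
      rw [← h4] at h3
      exact h3.trans (Complex.abs_re_le_norm _)
    have h5 := (IsAlgClosed.splits P).eval_eq_prod_roots (n : ℂ)
    have h6 : ‖P.eval (n : ℂ)‖ = ‖P.leadingCoeff‖ * ‖(P.roots.map (fun r => (n : ℂ) - r)).prod‖ := by
      rw [h5, norm_mul]
    have h7 : 1 ≤ ‖(P.roots.map (fun r => (n : ℂ) - r)).prod‖ := by
      have h8 : ∀ M : Multiset ℂ, (∀ r ∈ M, 1 ≤ ‖(n : ℂ) - r‖) →
          1 ≤ ‖(M.map (fun r => (n : ℂ) - r)).prod‖ := by
        intro M
        induction M using Multiset.induction_on with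
        | empty => simp
        | cons r M ih =>
          intro hM
          rw [Multiset.map_cons, Multiset.prod_cons, norm_mul]
          have i1 := hM r (Multiset.mem_cons_self r M)
          have i2 := ih (fun s hs => hM s (Multiset.mem_cons_of_mem hs))
          nlinarith
      exact h8 _ h1
    have h9 : P.eval (n : ℂ) = (Fv a (n : ℤ) : ℂ) := by
      have := heval (n : ℤ)
      rwa [Int.cast_natCast] at this
    rw [h9, hlead, Complex.norm_intCast, Complex.norm_intCast] at h6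
    have h10 := abs_nonneg ((a (Fin.last d) : ℤ) : ℝ)
    have h11 := hn.2
    nlinarith
  calc ((Icc 1 K).filter (fun n : ℕ => |(Fv a (n : ℤ) : ℝ)| < |(a (Fin.last d) : ℝ)|)).card
      ≤ (P.roots.toFinset.biUnion (fun r => (Icc 1 K).filter (fun n : ℕ => |(n : ℝ) - r.re| < 1))).card :=
        card_le_card hsub
    _ ≤ ∑ r ∈ P.roots.toFinset, ((Icc 1 K).filter (fun n : ℕ => |(n : ℝ) - r.re| < 1)).card :=
        card_biUnion_le
    _ ≤ ∑ _r ∈ P.roots.toFinset, 2 := sum_le_sum fun r _ => card_near K r.re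
    _ = P.roots.toFinset.card * 2 := by rw [sum_const, smul_eq_mul]
    _ ≤ d * 2 := by
        refine Nat.mul_le_mul_right 2 ?_
        refine (Multiset.toFinset_card_le _).trans ?_
        rw [← hdeg]
        exact Polynomial.card_roots' P
    _ = 2 * d := mul_comm _ _

lemma lg_eq {H : ℕ} (hH : 16 ≤ H) {y : ℤ} (hy : √(H : ℝ) ≤ |(y : ℝ)|) : lg y = lgH H y := by
  have hHr : (16 : ℝ) ≤ H := by exact_mod_cast hH
  have h4 : (4 : ℝ) ≤ √(H : ℝ) := by
    rw [show (4 : ℝ) = √16 by rw [show (16 : ℝ) = 4 ^ 2 by norm_num]; exact (Real.sqrt_sq (by norm_num)).symm]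
    exact Real.sqrt_le_sqrt hHr
  have h5 : 2 ≤ |y| := by
    have : (2 : ℝ) ≤ |(y : ℝ)| := by linarith
    rw [← Int.cast_abs] at this
    exact_mod_cast this
  unfold lg lgH
  rw [if_pos h5]
  have h6 : Real.log H / 2 ≤ Real.log |(y : ℝ)| := by
    rw [← Real.log_sqrt (by linarith)]
    exact Real.log_le_log (by linarith) hy
  rw [max_eq_left h6]

theorem t : S_EXCP := by
  classical
  intro m dd hdd
  refine ⟨2 * (∑ i, (dd i : ℝ)) + 1, by
    have : 0 ≤ ∑ i, (dd i : ℝ) := sum_nonneg fun i _ => Nat.cast_nonneg _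
    linarith, ?_⟩
  intro H hH a ha K
  unfold bl at ha
  rw [mem_filter] at ha
  have hHr : (16 : ℝ) ≤ H := by exact_mod_cast hH
  have hs : 0 < √(H : ℝ) := Real.sqrt_pos.2 (by linarith)
  have hlast : ∀ i, a i (Fin.last (dd i)) ≠ 0 := by
    intro i h0
    have := ha.2 i
    rw [h0] at this
    simp at this
    linarith
  have hsub : (Icc 1 K).filter (fun n : ℕ => Wf a (n : ℤ) ≠ Wh H a (n : ℤ)) ⊆
      univ.biUnion (fun i : Fin m => (Icc 1 K).filter (fun n : ℕ =>
        |(Fv (a i) (n : ℤ) : ℝ)| < |(a i (Fin.last (dd i)) : ℝ)|)) := by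
    intro n hn
    rw [mem_filter] at hn
    rw [mem_biUnion]
    by_contra hcon
    push Not at hcon
    apply hn.2
    unfold Wf Wh
    refine prod_congr rfl fun i _ => ?_
    refine lg_eq hH ?_
    have h1 := hcon i (mem_univ i)
    rw [mem_filter] at h1
    have h2 : |(a i (Fin.last (dd i)) : ℝ)| ≤ |(Fv (a i) (n : ℤ) : ℝ)| := by
      by_contra h3
      push Not at h3
      exact h1 ⟨hn.1, h3⟩
    exact (ha.2 i).trans h2
  have h1 : ((Icc 1 K).filter (fun n : ℕ => Wf a (n : ℤ) ≠ Wh H a (n : ℤ))).card ≤ ∑ i : Fin m, 2 * dd i :=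
    (card_le_card hsub).trans (card_biUnion_le.trans (sum_le_sum fun i _ => card_less (a i) (hlast i) K))
  have h2 : (((Icc 1 K).filter (fun n : ℕ => Wf a (n : ℤ) ≠ Wh H a (n : ℤ))).card : ℝ) ≤
      ((∑ i : Fin m, 2 * dd i : ℕ) : ℝ) := by exact_mod_cast h1
  refine h2.trans ?_
  push_cast
  rw [← mul_sum]
  linarith

end Pool.Agent.H12P.EXCP
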