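import Pool.Agent.H12P.Stm
import Pool.Agent.H13K.LOWC

/-!
# Project PA (helper12), stub LOWCP (helper95)
-/

set_option autoImplicit false

namespace Pool.Agent.H12P.LOWCP

open Finset
open Pool.Agent.H373R2.T7 (lamz pz Vz Vz_pos)
open Pool.Agent.H13K
open Pool.Agent.H13K.LOWC (om_deg elem)

lemma unit_count (p : ℕ) (hp : p.Prime) : ((range p).filter (fun n : ℕ => ¬ p ∣ n)).card = p - 1 := by
  have h1 : (range p).filter (fun n : ℕ => ¬ p ∣ n) = (range p).erase 0 := by
    ext n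
    rw [mem_filter, mem_erase, mem_range]
    constructor
    · rintro ⟨h1, h2⟩
      refine ⟨?_, h1⟩
      rintro rfl
      exact h2 (dvd_zero p)
    · rintro ⟨h1, h2⟩
      exact ⟨h2, fun h3 => absurd (Nat.le_of_dvd (Nat.pos_of_ne_zero h1) h3) (by omega)⟩
  rw [h1, card_erase_of_mem (mem_range.mpr hp.pos), card_range]

lemma om1_sub {m : ℕ} {dd : Fin m → ℕ} (p : ℕ) (hp : p.Prime) (a : ∀ i : Fin m, Fin (dd i + 1) → ℤ) :
    om1 p a ≤ p - 1 := by
  unfold om1
  rw [← unit_count p hp]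
  refine card_le_card fun n hn => ?_
  rw [mem_filter] at hn ⊢
  exact ⟨hn.1, hn.2.1⟩

lemma om1_le_om {m : ℕ} {dd : Fin m → ℕ} (p : ℕ) (a : ∀ i : Fin m, Fin (dd i + 1) → ℤ) :
    om1 p a ≤ om p a := by
  unfold om1 om
  refine card_le_card fun n hn => ?_
  rw [mem_filter] at hn ⊢
  exact ⟨hn.1, hn.2.2⟩

lemma om_ne {m : ℕ} {dd : Fin m → ℕ} (p : ℕ) (hp : p.Prime) (a : ∀ i : Fin m, Fin (dd i + 1) → ℤ)
    (h : om1 p a ≠ p - 1) : om p a ≠ p := by
  intro h1
  apply h
  unfold om at h1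
  have h2 : (range p).filter (fun n : ℕ => (p : ℤ) ∣ ∏ i, Fv (a i) (n : ℤ)) = range p := by
    apply eq_of_subset_of_card_le (filter_subset _ _)
    rw [h1, card_range]
  unfold om1
  rw [← unit_count p hp]
  congr 1
  ext n
  rw [mem_filter, mem_filter]
  constructor
  · rintro ⟨h3, h4⟩
    exact ⟨h3, h4.1⟩
  · rintro ⟨h3, h4⟩
    refine ⟨h3, h4, ?_⟩
    have h5 : n ∈ (range p).filter (fun n : ℕ => (p : ℤ) ∣ ∏ i, Fv (a i) (n : ℤ)) := by
      rw [h2]; exact h3
    exact (mem_filter.mp h5).2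

/-- `(1 - 1/p)^{4D} ≤ 1 - D/(p-1)` for `2 D + 3 ≤ p` -/
lemma elem' (p D : ℕ) (hD : 2 * D + 3 ≤ p) :
    (1 - 1 / (p : ℝ)) ^ (4 * D) ≤ 1 - (D : ℝ) / (p - 1) := by
  have h1 := elem (p - 1) D (by omega) (by omega)
  rw [Nat.cast_sub (by omega), Nat.cast_one] at h1
  refine le_trans ?_ h1
  have hp3 : (3 : ℝ) ≤ p := by exact_mod_cast (by omega : 3 ≤ p)
  have hinv : 1 / (p : ℝ) ≤ 1 := by
    rw [div_le_one (by linarith)]
    linarith
  have h2 : (1 - 1 / (p : ℝ)) ^ 2 ≤ 1 - 1 / ((p : ℝ) - 1) := by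
    have e1 : (1 - 1 / (p : ℝ)) ^ 2 = ((p : ℝ) - 1) ^ 2 / (p : ℝ) ^ 2 := by
      rw [← div_pow]
      congr 1
      field_simp
    have e2 : 1 - 1 / ((p : ℝ) - 1) = ((p : ℝ) - 2) / (p - 1) := by
      have : (p : ℝ) - 1 ≠ 0 := by linarith
      field_simp
      ring
    rw [e1, e2, div_le_div_iff₀ (by positivity) (by linarith)]
    nlinarith
  calc (1 - 1 / (p : ℝ)) ^ (4 * D) = ((1 - 1 / (p : ℝ)) ^ 2) ^ (2 * D) := by
        rw [← pow_mul]
        congr 1
        ring
    _ ≤ (1 - 1 / ((p : ℝ) - 1)) ^ (2 * D) := pow_le_pow_left₀ (sq_nonneg _) h2 _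

theorem t (hVZ : S_VZ) : S_LOWCP := by
  obtain ⟨C, hC, hVZ⟩ := hVZ
  intro m dd
  set D0 : ℕ := ∑ i, dd i with hD0
  set w : ℝ := 1 / (2 * (D0 : ℝ) + 3) with hw
  have hw0 : 0 < w := by positivity
  have hw1 : w ≤ 1 := by
    rw [hw, div_le_one (by positivity)]
    have : (0 : ℝ) ≤ D0 := Nat.cast_nonneg _
    linarith
  refine ⟨w ^ (2 * D0 + 3) / C ^ (4 * D0), 4 * D0, by positivity, ?_⟩
  intro z a hz
  have hpr : ∀ p ∈ pz z, p.Prime := by
    intro p hp
    unfold pz at hp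
    exact (mem_filter.mp hp).2
  have hfac : ∀ p ∈ pz z, (2 : ℝ) ≤ p := by
    intro p hp
    exact_mod_cast (hpr p hp).two_le
  have hone : ∀ p ∈ pz z, 0 < 1 - 1 / (p : ℝ) ∧ 1 - 1 / (p : ℝ) ≤ 1 := by
    intro p hp
    have h1 := hfac p hp
    have h2 : 1 / (p : ℝ) ≤ 1 / 2 := one_div_le_one_div_of_le (by norm_num) h1
    have h3 : 0 < 1 / (p : ℝ) := by positivity
    constructor <;> linarith
  have hp1 : ∀ p ∈ pz z, (1 : ℝ) ≤ (p : ℝ) - 1 := by
    intro p hp
    have h1 := hfac p hp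
    linarith
  have homle : ∀ p ∈ pz z, (om1 p a : ℝ) ≤ (p : ℝ) - 1 := by
    intro p hp
    have h2 := om1_sub p (hpr p hp) a
    have h3 : (om1 p a : ℝ) + 1 ≤ p := by
      have h4 := (hpr p hp).two_le
      have : om1 p a + 1 ≤ p := by omega
      exact_mod_cast this
    linarith
  have hom1 : ∀ p ∈ pz z, 0 ≤ 1 - (om1 p a : ℝ) / (p - 1) := by
    intro p hp
    have h1 := hp1 p hp
    have h3 : (om1 p a : ℝ) / (p - 1) ≤ 1 := by
      rw [div_le_one (by linarith)]
      exact homle p hp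
    linarith
  refine ⟨?_, ?_, ?_⟩
  · unfold C1
    exact prod_nonneg fun p hp => div_nonneg (hom1 p hp) (pow_nonneg (hone p hp).1.le _)
  · unfold C1 Vz
    rw [← prod_inv_distrib, ← prod_pow]
    refine prod_le_prod (fun p hp => div_nonneg (hom1 p hp) (pow_nonneg (hone p hp).1.le _)) fun p hp => ?_
    rw [inv_pow, ← one_div]
    have h1 := (hone p hp).1
    have h3 := hp1 p hp
    have h2 : 0 ≤ (om1 p a : ℝ) / (p - 1) := div_nonneg (Nat.cast_nonneg _) (by linarith)
    gcongr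
    linarith
  · intro hne
    have hlog : 0 < Real.log z := Real.log_pos (by exact_mod_cast (by omega : 1 < z))
    have hV : 1 / (C * Real.log z) ≤ Vz z := by
      have h1 := hVZ z (by omega)
      have h2 := Vz_pos z
      rw [div_le_iff₀ (by positivity)]
      calc 1 = Vz z * (Vz z)⁻¹ := (mul_inv_cancel₀ h2.ne').symm
        _ ≤ Vz z * (C * Real.log z) := by gcongr
    have hstep : ∀ p ∈ pz z, (if p < 2 * D0 + 3 then w else 1) * (1 - 1 / (p : ℝ)) ^ (4 * D0) ≤
        (1 - (om1 p a : ℝ) / (p - 1)) / (1 - 1 / (p : ℝ)) ^ m := by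
      intro p hp
      have h1 := hfac p hp
      obtain ⟨h2, h3⟩ := hone p hp
      have h3' := hp1 p hp
      have h4 : (1 - (om1 p a : ℝ) / (p - 1)) ≤ (1 - (om1 p a : ℝ) / (p - 1)) / (1 - 1 / (p : ℝ)) ^ m := by
        rw [le_div_iff₀ (by positivity)]
        have h5 : (1 - 1 / (p : ℝ)) ^ m ≤ 1 := pow_le_one₀ h2.le h3
        have h6 := hom1 p hp
        nlinarith
      refine le_trans ?_ h4
      split_ifs with hlt
      · have h5 : om1 p a + 2 ≤ p := by
          have h6 := om1_sub p (hpr p hp) a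
          have h7 := hne p hp
          have h8 := (hpr p hp).two_le
          omega
        have h5' : (om1 p a : ℝ) + 2 ≤ p := by exact_mod_cast h5
        have h6 : 1 / (p : ℝ) ≤ 1 - (om1 p a : ℝ) / (p - 1) := by
          have h61 : 1 / (p : ℝ) ≤ 1 / ((p : ℝ) - 1) := one_div_le_one_div_of_le (by linarith) (by linarith)
          have h62 : 1 / ((p : ℝ) - 1) ≤ 1 - (om1 p a : ℝ) / (p - 1) := by
            rw [le_sub_iff_add_le, ← add_div, div_le_one (by linarith)]
            linarith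
          exact h61.trans h62
        have h7 : w ≤ 1 / (p : ℝ) := by
          rw [hw]
          apply one_div_le_one_div_of_le (by linarith)
          have : p ≤ 2 * D0 + 3 := by omega
          exact_mod_cast this
        have h8 : (1 - 1 / (p : ℝ)) ^ (4 * D0) ≤ 1 := pow_le_one₀ h2.le h3
        calc w * (1 - 1 / (p : ℝ)) ^ (4 * D0) ≤ w * 1 := by gcongr
          _ ≤ _ := by linarith
      · rw [one_mul]
        have h5 := (om1_le_om p a).trans (om_deg p (hpr p hp) a (om_ne p (hpr p hp) a (hne p hp)))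
        have h5' : (om1 p a : ℝ) ≤ D0 := by exact_mod_cast h5
        have h6 := elem' p D0 (by omega)
        refine h6.trans ?_
        gcongr
    have hprod : ∏ p ∈ pz z, ((if p < 2 * D0 + 3 then w else 1) * (1 - 1 / (p : ℝ)) ^ (4 * D0)) ≤ C1 z a := by
      unfold C1
      refine prod_le_prod (fun p hp => ?_) hstep
      have h2 := (hone p hp).1
      apply mul_nonneg _ (by positivity)
      split_ifs
      · exact hw0.le
      · norm_num
    have hwprod : w ^ (2 * D0 + 3) ≤ ∏ p ∈ pz z, (if p < 2 * D0 + 3 then w else 1) := by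
      rw [prod_ite, prod_const_one, mul_one, prod_const]
      apply pow_le_pow_of_le_one hw0.le hw1
      calc ((pz z).filter (fun p => p < 2 * D0 + 3)).card ≤ (range (2 * D0 + 3)).card := by
            apply card_le_card
            intro p hp
            rw [mem_filter] at hp
            rw [mem_range]
            exact hp.2
        _ = 2 * D0 + 3 := card_range _
    refine le_trans ?_ hprod
    rw [prod_mul_distrib, prod_pow]
    have hVV : (∏ p ∈ pz z, (1 - 1 / (p : ℝ))) = Vz z := rfl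
    rw [hVV]
    calc w ^ (2 * D0 + 3) / C ^ (4 * D0) / Real.log z ^ (4 * D0)
        = w ^ (2 * D0 + 3) * (1 / (C * Real.log z)) ^ (4 * D0) := by
          rw [one_div, inv_pow, mul_pow, div_div, div_eq_mul_inv]
      _ ≤ _ := by
          gcongr

end Pool.Agent.H12P.LOWCP
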