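import Pool.Agent.H12P.Stm
import Pool.Agent.H13K.LOWL

/-!
# Project PA (helper12): the stub LOWLP
-/

set_option autoImplicit false

namespace Pool.Agent.H12P.LOWLP

open Finset
open Pool.Agent.H13K Pool.Agent.H12P

theorem L1_split {m : ℕ} {dd : Fin m → ℕ} (a : ∀ i : Fin m, Fin (dd i + 1) → ℤ) {u v : ℕ} (huv : max u 1 ≤ v) :
    L1 a v - L1 a u = ∑ n ∈ Ioc (max u 1) v, Wf a (n : ℤ) / Real.log n := by
  unfold L1
  have h1 : Icc 2 v = Icc 2 u ∪ Ioc (max u 1) v := by
    ext n
    simp only [mem_union, mem_Icc, mem_Ioc]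
    omega
  have h2 : Disjoint (Icc 2 u) (Ioc (max u 1) v) := by
    rw [disjoint_left]
    intro n hn hn'
    simp only [mem_Icc, mem_Ioc] at hn hn'
    omega
  rw [h1, sum_union h2]
  ring

theorem t : S_LOWLP := by
  intro m dd hdd
  refine ⟨6 * ∑ i, dd i + ∑ i, (dd i + 1) + 4, fun H u v huv hv a ha hl => ?_⟩
  have h1 : ∀ i, dd i + 1 ≤ H := by
    intro i
    have : dd i + 1 ≤ ∑ i, (dd i + 1) := single_le_sum (f := fun i => dd i + 1) (fun _ _ => Nat.zero_le _) (mem_univ i)
    omega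
  have h2 := Pool.Agent.H13K.LOWL.win dd hdd H (max u 1) v h1 (by omega) (by omega) hv a ha hl
  rw [L1_split a (by omega)]
  have hlv : 0 < Real.log v := Real.log_pos (by exact_mod_cast (by omega : 1 < v))
  have hlH : 0 < Real.log H := Real.log_pos (by exact_mod_cast (by omega : 1 < H))
  have hP : 0 < ∏ i, ((dd i : ℝ) + 2) := prod_pos fun i _ => by positivity
  have h3 : ((v : ℝ) - u) / 2 ≤ (v : ℝ) - ((max u 1 : ℕ) : ℝ) := by
    have h4 : ((max u 1 : ℕ) : ℝ) ≤ u + 1 := by exact_mod_cast (by omega : max u 1 ≤ u + 1)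
    have h5 : (u : ℝ) + 4 ≤ v := by exact_mod_cast (by omega : u + 4 ≤ v)
    linarith
  calc ((v : ℝ) - u) / (4 * (∏ i, ((dd i : ℝ) + 2)) * Real.log H ^ m * Real.log v) =
      (((v : ℝ) - u) / 2) / (2 * (∏ i, ((dd i : ℝ) + 2)) * Real.log H ^ m) * (1 / Real.log v) := by
        field_simp
        ring
    _ ≤ (∑ n ∈ Ioc (max u 1) v, Wf a (n : ℤ)) * (1 / Real.log v) := by
        refine mul_le_mul_of_nonneg_right (le_trans ?_ h2) (by positivity)
        exact div_le_div_of_nonneg_right h3 (by positivity)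
    _ = ∑ n ∈ Ioc (max u 1) v, Wf a (n : ℤ) / Real.log v := by
        rw [sum_mul]
        exact sum_congr rfl fun n _ => by ring
    _ ≤ ∑ n ∈ Ioc (max u 1) v, Wf a (n : ℤ) / Real.log n := by
        refine sum_le_sum fun n hn => ?_
        rw [mem_Ioc] at hn
        have hn1 : 1 < n := by omega
        have hln : 0 < Real.log n := Real.log_pos (by exact_mod_cast hn1)
        refine div_le_div_of_nonneg_left (Pool.Agent.H13K.LOWL.Wf_nonneg a _) hln ?_
        exact Real.log_le_log (by exact_mod_cast (by omega : 0 < n)) (by exact_mod_cast hn.2)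

end Pool.Agent.H12P.LOWLP
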