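import Pool.Agent.H12P.LOWCP
import Pool.Agent.H13K.PY

/-!
# Project PA (helper12), stub PYP (helper33): the constants for prime arguments cut at different points
-/

set_option autoImplicit false

namespace Pool.Agent.H12P.PYP

open Finset
open Pool.Agent.H373R2.T7 (lamz pz Vz mem_pz)
open Pool.Agent.H13K
open Pool.Agent.H13K.LOWC (om_deg)
open Pool.Agent.H12P.LOWCP (om1_sub)

lemma Fv_zero {d : ℕ} (a : Fin (d + 1) → ℤ) : Fv a 0 = a 0 := by
  unfold Fv
  rw [sum_eq_single (0 : Fin (d + 1))]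
  · simp
  · intro l _ hl
    have : (l : ℕ) ≠ 0 := fun h => hl (Fin.ext h)
    rw [zero_pow this, mul_zero]
  · intro h
    exact absurd (mem_univ _) h

lemma om_split {m : ℕ} {dd : Fin m → ℕ} (p : ℕ) (hp : p.Prime) (a : ∀ i : Fin m, Fin (dd i + 1) → ℤ) :
    ((p : ℤ) ∣ ∏ i, a i 0 → om p a = om1 p a + 1) ∧ (¬ (p : ℤ) ∣ ∏ i, a i 0 → om p a = om1 p a) := by
  have h0 : ∏ i, Fv (a i) ((0 : ℕ) : ℤ) = ∏ i, a i 0 := prod_congr rfl fun i _ => by
    rw [Nat.cast_zero, Fv_zero]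
  have h1 : om p a = om1 p a + ((range p).filter (fun n : ℕ => p ∣ n ∧ (p : ℤ) ∣ ∏ i, Fv (a i) (n : ℤ))).card := by
    unfold om om1
    rw [← card_union_of_disjoint]
    · congr 1
      ext n
      rw [mem_union, mem_filter, mem_filter, mem_filter]
      tauto
    · rw [disjoint_left]
      intro n h1 h2
      exact (mem_filter.mp h1).2.1 (mem_filter.mp h2).2.1
  have h2 : ∀ n ∈ range p, p ∣ n → n = 0 := fun n hn h => by
    by_contra h3
    exact absurd (Nat.le_of_dvd (Nat.pos_of_ne_zero h3) h) (by have := mem_range.mp hn; omega)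
  constructor
  · intro h
    rw [h1]
    congr 1
    rw [card_eq_one]
    refine ⟨0, ?_⟩
    ext n
    rw [mem_filter, mem_singleton]
    constructor
    · rintro ⟨h3, h4, _⟩
      exact h2 n h3 h4
    · rintro rfl
      exact ⟨mem_range.mpr hp.pos, dvd_zero p, by rw [h0]; exact h⟩
  · intro h
    rw [h1]
    have : (range p).filter (fun n : ℕ => p ∣ n ∧ (p : ℤ) ∣ ∏ i, Fv (a i) (n : ℤ)) = ∅ := by
      rw [filter_eq_empty_iff]
      rintro n hn ⟨h4, h5⟩
      rw [h2 n hn h4, h0] at h5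
      exact h h5
    rw [this, card_empty, add_zero]

theorem zero_count {m : ℕ} (dd : Fin m → ℕ) (H : ℕ) (i : Fin m) :
    (2 * H + 1) * ((bx dd H).filter (fun a => a i 0 = 0)).card ≤ (bx dd H).card := by
  classical
  have h1 : (2 * H + 1) * ((bx dd H).filter (fun a => a i 0 = 0)).card =
      ((Icc (-(H : ℤ)) H) ×ˢ ((bx dd H).filter (fun a => a i 0 = 0))).card := by
    rw [card_product, Int.card_Icc]
    congr 1
    omega
  rw [h1]
  apply card_le_card_of_injOn
    (fun q : ℤ × (∀ i : Fin m, Fin (dd i + 1) → ℤ) =>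
      Function.update q.2 i (Function.update (q.2 i) 0 q.1))
  · intro q hq
    rw [mem_coe, mem_product, mem_filter] at hq
    rw [mem_coe]
    unfold bx at hq ⊢
    rw [Fintype.mem_piFinset] at hq ⊢
    intro j
    rw [Fintype.mem_piFinset]
    intro l
    dsimp only
    by_cases hj : j = i
    · subst hj
      rw [Function.update_self]
      by_cases hl : l = 0
      · subst hl
        rw [Function.update_self]
        exact hq.1
      · rw [Function.update_of_ne hl]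
        exact (Fintype.mem_piFinset.1 (hq.2.1 j)) l
    · rw [Function.update_of_ne hj]
      exact (Fintype.mem_piFinset.1 (hq.2.1 j)) l
  · intro q hq q' hq' heq
    rw [mem_coe, mem_product, mem_filter] at hq hq'
    dsimp only at heq
    have e1 : q.1 = q'.1 := by
      have := congrFun (congrFun heq i) 0
      rwa [Function.update_self, Function.update_self, Function.update_self, Function.update_self] at this
    have e2 : q.2 = q'.2 := by
      funext j l
      by_cases hj : j = i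
      · subst hj
        by_cases hl : l = 0
        · subst hl
          rw [hq.2.2, hq'.2.2]
        · have := congrFun (congrFun heq j) l
          rwa [Function.update_self, Function.update_self, Function.update_of_ne hl,
            Function.update_of_ne hl] at this
      · have := congrFun heq j
        rw [Function.update_of_ne hj, Function.update_of_ne hj] at this
        rw [this]
    exact Prod.ext e1 e2

lemma prod_ge {s : Finset ℕ} {x : ℕ → ℝ} (h : ∀ p ∈ s, 0 ≤ x p ∧ x p ≤ 1) :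
    1 - ∑ p ∈ s, x p ≤ ∏ p ∈ s, (1 - x p) := by
  classical
  induction s using Finset.induction_on with
  | empty => simp
  | insert a s ha ih =>
    rw [sum_insert ha, prod_insert ha]
    have h1 := ih fun p hp => h p (mem_insert_of_mem hp)
    have h2 := h a (mem_insert_self _ _)
    have h3 : 0 ≤ ∑ p ∈ s, x p := sum_nonneg fun p hp => (h p (mem_insert_of_mem hp)).1
    have h4 : (1 - x a) * (1 - ∑ p ∈ s, x p) ≤ (1 - x a) * ∏ p ∈ s, (1 - x p) :=
      mul_le_mul_of_nonneg_left h1 (by linarith)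
    nlinarith [mul_nonneg h2.1 h3]

lemma split_prod {z Y : ℕ} (hzY : z ≤ Y) (f : ℕ → ℝ) :
    ∏ p ∈ pz Y, f p = (∏ p ∈ pz z, f p) * ∏ p ∈ (pz Y).filter (fun p => z < p), f p := by
  rw [← prod_filter_mul_prod_filter_not (pz Y) (fun p => z < p), mul_comm]
  congr 1
  refine prod_congr ?_ fun _ _ => rfl
  ext p
  rw [mem_filter, mem_pz, mem_pz]
  constructor
  · rintro ⟨⟨_, h2⟩, h3⟩
    exact ⟨by omega, h2⟩
  · rintro ⟨h1, h2⟩
    exact ⟨⟨by omega, h2⟩, by omega⟩

/-- the number of the primes `> z` dividing the constant terms -/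
lemma few {m : ℕ} {dd : Fin m → ℕ} {H z : ℕ} (hlog : Real.log H ^ 2 ≤ z) (hH : 1 ≤ H)
    {a : ∀ i : Fin m, Fin (dd i + 1) → ℤ} (ha : a ∈ bx dd H) (h0 : ∀ i, a i 0 ≠ 0) (S : Finset ℕ)
    (hS : ∀ p ∈ S, p.Prime ∧ (p : ℤ) ∣ ∏ i, a i 0) : (S.card : ℝ) ≤ 2 * m * √z := by
  have hHr : (1 : ℝ) ≤ H := by exact_mod_cast hH
  set N : ℕ := (∏ i, a i 0).natAbs with hN
  have hN0 : N ≠ 0 := by
    rw [hN, Int.natAbs_ne_zero]
    exact prod_ne_zero_iff.mpr fun i _ => h0 i
  have h1 : ∏ p ∈ S, p ∣ N := by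
    refine Finset.prod_primes_dvd N (fun p hp => (hS p hp).1.prime) fun p hp => ?_
    rw [hN]
    exact Int.natCast_dvd.mp (hS p hp).2
  have h2 : 2 ^ S.card ≤ ∏ p ∈ S, p := by
    rw [← prod_const]
    exact prod_le_prod' fun p hp => (hS p hp).1.two_le
  have h3 : N ≤ H ^ m := by
    have h4 : N = ∏ i, (a i 0).natAbs := by
      rw [hN]
      exact map_prod Int.natAbsHom _ _
    rw [h4]
    calc ∏ i, (a i 0).natAbs ≤ ∏ _i : Fin m, H := prod_le_prod' fun i _ => by
          unfold bx at ha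
          have h5 := (Fintype.mem_piFinset.1 ((Fintype.mem_piFinset.1 ha) i)) 0
          rw [mem_Icc] at h5
          omega
      _ = H ^ m := by rw [prod_const, card_univ, Fintype.card_fin]
  have h4 : 2 ^ S.card ≤ H ^ m := h2.trans ((Nat.le_of_dvd (Nat.pos_of_ne_zero hN0) h1).trans h3)
  have h5 : (S.card : ℝ) * Real.log 2 ≤ m * Real.log H := by
    rw [← Real.log_pow, ← Real.log_pow]
    exact Real.log_le_log (by positivity) (by exact_mod_cast h4)
  have h6 : Real.log H ≤ √z := Real.le_sqrt_of_sq_le hlog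
  have h7 := Real.log_two_gt_d9
  have h8 : (m : ℝ) * Real.log H ≤ m * √z := mul_le_mul_of_nonneg_left h6 (Nat.cast_nonneg _)
  have h9 : (0 : ℝ) ≤ S.card := Nat.cast_nonneg _
  nlinarith

theorem main {m : ℕ} {dd : Fin m → ℕ} {H z Y : ℕ} {C : ℝ} (hC : 1 ≤ C) (hz3 : 3 ≤ z) (hzD : 2 * (∑ i, dd i) + 2 ≤ z)
    (hzm : 8 * (m : ℝ) ≤ √z) (hzC : C * (z : ℝ) ^ (-(1 / 20) : ℝ) ≤ 1 / 2) (hlog : Real.log H ^ 2 ≤ z) (hH : 1 ≤ H)
    {a : ∀ i : Fin m, Fin (dd i + 1) → ℤ} (ha : a ∈ bx dd H) (h0 : ∀ i, a i 0 ≠ 0) (hpos : 0 < Cz z a) (hzY : z ≤ Y)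
    (hPY : |Cz Y a - Cz z a| ≤ C * (z : ℝ) ^ (-(1 / 20) : ℝ) * Cz z a) :
    |C1 Y a - C1 z a| ≤ (3 * C + 4 * (∑ i, dd i : ℕ) + 8 * m) * (z : ℝ) ^ (-(1 / 20) : ℝ) * C1 z a := by
  set D0 : ℕ := ∑ i, dd i with hD0
  set ε : ℝ := (z : ℝ) ^ (-(1 / 20) : ℝ) with hε
  set S := (pz Y).filter (fun p => z < p) with hS
  have hzr : (3 : ℝ) ≤ z := by exact_mod_cast hz3
  have hε0 : 0 < ε := Real.rpow_pos_of_pos (by linarith) _
  have hSp : ∀ p ∈ S, p.Prime ∧ z < p ∧ p ≤ Y := fun p hp => by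
    have h1 := mem_filter.mp hp
    have h2 := mem_pz.mp h1.1
    exact ⟨h2.2, h1.2, h2.1⟩
  have hCY : Cz Y a = Cz z a * ∏ p ∈ S, (1 - (om p a : ℝ) / p) / (1 - 1 / (p : ℝ)) ^ m := split_prod hzY _
  have h1Y : C1 Y a = C1 z a * ∏ p ∈ S, (1 - (om1 p a : ℝ) / (p - 1)) / (1 - 1 / (p : ℝ)) ^ m := split_prod hzY _
  set PA : ℝ := ∏ p ∈ S, (1 - (om p a : ℝ) / p) / (1 - 1 / (p : ℝ)) ^ m with hPA
  set PB : ℝ := ∏ p ∈ S, (1 - (om1 p a : ℝ) / (p - 1)) / (1 - 1 / (p : ℝ)) ^ m with hPB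
  have hPA1 : |PA - 1| ≤ C * ε := by
    have h1 : Cz Y a - Cz z a = Cz z a * (PA - 1) := by rw [hCY]; ring
    rw [h1, abs_mul, abs_of_pos hpos, mul_comm] at hPY
    exact le_of_mul_le_mul_right hPY hpos
  have hPA2 := abs_le.mp hPA1
  have hPA0 : 0 < PA := by linarith
  -- no prime of `S` divides identically
  have hom : ∀ p ∈ S, om p a ≠ p := by
    intro p hp h
    have h1 : PA = 0 := by
      rw [hPA]
      refine prod_eq_zero hp ?_
      have h2 : (p : ℝ) ≠ 0 := by exact_mod_cast (hSp p hp).1.ne_zero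
      rw [h, div_self h2, sub_self, zero_div]
    linarith
  have homD : ∀ p ∈ S, om p a ≤ D0 := fun p hp => om_deg p (hSp p hp).1 a (hom p hp)
  -- the quotient
  have hfac : ∀ p ∈ S, (3 : ℝ) ≤ p ∧ (z : ℝ) ≤ p - 1 ∧ (om p a : ℝ) ≤ D0 ∧ (D0 : ℝ) ≤ p / 2 := by
    intro p hp
    have h1 := (hSp p hp).2.1
    have h2 : (z : ℝ) + 1 ≤ p := by exact_mod_cast h1
    have h3 : 2 * (D0 : ℝ) + 2 ≤ z := by exact_mod_cast hzD
    refine ⟨by linarith, by linarith, by exact_mod_cast homD p hp, by linarith⟩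
  have hrho : ∀ p ∈ S, (1 - (om1 p a : ℝ) / (p - 1)) / (1 - 1 / (p : ℝ)) ^ m =
      (1 - (om p a : ℝ) / p) / (1 - 1 / (p : ℝ)) ^ m * ((1 - (om1 p a : ℝ) / (p - 1)) / (1 - (om p a : ℝ) / p)) := by
    intro p hp
    obtain ⟨h1, h2, h3, h4⟩ := hfac p hp
    have h5 : 1 - (om p a : ℝ) / p ≠ 0 := by
      have h6 : (om p a : ℝ) / p ≤ 1 / 2 := by
        rw [div_le_iff₀ (by linarith)]
        linarith
      intro h
      linarith
    rw [div_mul_div_comm, mul_comm (1 - (om p a : ℝ) / p), mul_div_mul_right _ _ h5]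
  set PR : ℝ := ∏ p ∈ S, (1 - (om1 p a : ℝ) / (p - 1)) / (1 - (om p a : ℝ) / p) with hPR
  have hPBe : PB = PA * PR := by
    rw [hPB, hPA, hPR, ← prod_mul_distrib]
    exact prod_congr rfl hrho
  -- bounds for the factors
  have hlow : ∀ p ∈ S, 1 - 4 * (D0 : ℝ) * (1 / (p : ℝ) ^ 2) ≤ (1 - (om1 p a : ℝ) / (p - 1)) / (1 - (om p a : ℝ) / p) ∧
      (1 - (om1 p a : ℝ) / (p - 1)) / (1 - (om p a : ℝ) / p) ≤
        1 + (if (p : ℤ) ∣ ∏ i, a i 0 then 2 / (z : ℝ) else 0) := by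
    intro p hp
    obtain ⟨h1, h2, h3, h4⟩ := hfac p hp
    have hp0 : (0 : ℝ) < p := by linarith
    have hp1 : (0 : ℝ) < (p : ℝ) - 1 := by linarith
    have hD : (0 : ℝ) ≤ D0 := Nat.cast_nonneg _
    have ho0 : (0 : ℝ) ≤ om p a := Nat.cast_nonneg _
    have hpo : (0 : ℝ) < (p : ℝ) - om p a := by linarith
    have e0 : 1 - (om p a : ℝ) / p = ((p : ℝ) - om p a) / p := by
      field_simp
    split_ifs with hd
    · have h5 : (om1 p a : ℝ) = (om p a : ℝ) - 1 := by
        have := ((om_split p (hSp p hp).1 a).1 hd)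
        rw [this]
        push_cast
        ring
      have e1 : (1 - (om1 p a : ℝ) / (p - 1)) / (1 - (om p a : ℝ) / p) = 1 + 1 / ((p : ℝ) - 1) := by
        rw [h5, e0]
        field_simp
        ring
      rw [e1]
      constructor
      · have h6 : 0 ≤ 4 * (D0 : ℝ) * (1 / (p : ℝ) ^ 2) := by positivity
        have h7 : 0 ≤ 1 / ((p : ℝ) - 1) := by positivity
        linarith
      · have h6 : 1 / ((p : ℝ) - 1) ≤ 2 / (z : ℝ) := by
          rw [div_le_div_iff₀ hp1 (by linarith)]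
          linarith
        linarith
    · have h5 : (om1 p a : ℝ) = (om p a : ℝ) := by
        rw [((om_split p (hSp p hp).1 a).2 hd)]
      have e1 : (1 - (om1 p a : ℝ) / (p - 1)) / (1 - (om p a : ℝ) / p) =
          1 - (om p a : ℝ) / (((p : ℝ) - 1) * ((p : ℝ) - om p a)) := by
        rw [h5, e0]
        field_simp
        ring
      rw [e1]
      constructor
      · have h6 : (om p a : ℝ) / (((p : ℝ) - 1) * ((p : ℝ) - om p a)) ≤ 4 * (D0 : ℝ) * (1 / (p : ℝ) ^ 2) := by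
          rw [mul_one_div, div_le_div_iff₀ (by positivity) (by positivity)]
          have h7 : (p : ℝ) / 2 ≤ (p : ℝ) - 1 := by linarith
          have h8 : (p : ℝ) / 2 ≤ (p : ℝ) - om p a := by linarith
          have h9 : (p : ℝ) / 2 * ((p : ℝ) / 2) ≤ ((p : ℝ) - 1) * ((p : ℝ) - om p a) :=
            mul_le_mul h7 h8 (by positivity) hp1.le
          calc (om p a : ℝ) * (p : ℝ) ^ 2 ≤ D0 * (p : ℝ) ^ 2 := mul_le_mul_of_nonneg_right h3 (by positivity)
            _ = 4 * D0 * ((p : ℝ) / 2 * ((p : ℝ) / 2)) := by ring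
            _ ≤ _ := mul_le_mul_of_nonneg_left h9 (by positivity)
        linarith
      · have h6 : 0 ≤ (om p a : ℝ) / (((p : ℝ) - 1) * ((p : ℝ) - om p a)) := by positivity
        linarith
  have hsm : ∀ p ∈ S, 0 ≤ 4 * (D0 : ℝ) * (1 / (p : ℝ) ^ 2) ∧ 4 * (D0 : ℝ) * (1 / (p : ℝ) ^ 2) ≤ 1 := by
    intro p hp
    obtain ⟨h1, h2, h3, h4⟩ := hfac p hp
    have hp0 : (0 : ℝ) < p := by linarith
    refine ⟨by positivity, ?_⟩
    rw [mul_one_div, div_le_one (by positivity)]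
    have h5 : 2 * (D0 : ℝ) + 2 ≤ z := by exact_mod_cast hzD
    nlinarith
  have hPR1 : 1 - 4 * (D0 : ℝ) / z ≤ PR := by
    have h1 : 1 - ∑ p ∈ S, 4 * (D0 : ℝ) * (1 / (p : ℝ) ^ 2) ≤ ∏ p ∈ S, (1 - 4 * (D0 : ℝ) * (1 / (p : ℝ) ^ 2)) :=
      prod_ge hsm
    have h2 : ∏ p ∈ S, (1 - 4 * (D0 : ℝ) * (1 / (p : ℝ) ^ 2)) ≤ PR := by
      rw [hPR]
      exact prod_le_prod (fun p hp => by linarith [(hsm p hp).2]) fun p hp => (hlow p hp).1
    have h3 : ∑ p ∈ S, 4 * (D0 : ℝ) * (1 / (p : ℝ) ^ 2) ≤ 4 * (D0 : ℝ) * (1 / (z : ℝ)) := by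
      rw [← mul_sum]
      refine mul_le_mul_of_nonneg_left ?_ (by positivity)
      refine le_trans ?_ (Pool.Agent.H13K.PY.sum_sq (k := z) (n := Y) (by omega))
      refine sum_le_sum_of_subset_of_nonneg (fun p hp => ?_) fun _ _ _ => by positivity
      rw [mem_Ioc]
      exact ⟨(hSp p hp).2.1, (hSp p hp).2.2⟩
    have h4 : 4 * (D0 : ℝ) / z = 4 * (D0 : ℝ) * (1 / (z : ℝ)) := by ring
    rw [h4]
    linarith
  have hsq : 0 < √(z : ℝ) := Real.sqrt_pos.mpr (by linarith)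
  have hPR2 : PR ≤ 1 + 8 * m / √z := by
    have h1 : PR ≤ ∏ p ∈ S, Real.exp (if (p : ℤ) ∣ ∏ i, a i 0 then 2 / (z : ℝ) else 0) := by
      rw [hPR]
      refine prod_le_prod (fun p hp => ?_) fun p hp => ?_
      · exact le_trans (by linarith [(hsm p hp).2]) (hlow p hp).1
      · refine (hlow p hp).2.trans ?_
        rw [add_comm]
        exact Real.add_one_le_exp _
    rw [← Real.exp_sum, ← sum_filter, sum_const, nsmul_eq_mul] at h1
    have h2 := few hlog hH ha h0 (S.filter fun p => (p : ℤ) ∣ ∏ i, a i 0) fun p hp =>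
      ⟨(hSp p (mem_filter.mp hp).1).1, (mem_filter.mp hp).2⟩
    have h3 : ((S.filter fun p : ℕ => (p : ℤ) ∣ ∏ i, a i 0).card : ℝ) * (2 / z) ≤ 4 * m / √z := by
      calc ((S.filter fun p : ℕ => (p : ℤ) ∣ ∏ i, a i 0).card : ℝ) * (2 / z) ≤ 2 * m * √z * (2 / z) :=
            mul_le_mul_of_nonneg_right h2 (by positivity)
        _ = 4 * m / √z := by
          have h5 : (z : ℝ) = √z * √z := (Real.mul_self_sqrt (by linarith)).symm
          have h6 : √(z : ℝ) ≠ 0 := hsq.ne'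
          have h7 : 2 * (m : ℝ) * √z * (2 / z) = 2 * (m : ℝ) * √z * (2 / (√z * √z)) := by rw [← h5]
          rw [h7]
          field_simp
          ring
    have h4 : 4 * (m : ℝ) / √z ≤ 1 / 2 := by
      rw [div_le_iff₀ hsq]
      linarith
    have h5 : 0 ≤ 4 * (m : ℝ) / √z := by positivity
    set x : ℝ := 4 * (m : ℝ) / √z with hx
    have h6 : Real.exp x ≤ 1 + 2 * x := by
      have h7 : 1 - x ≤ Real.exp (-x) := by linarith [Real.add_one_le_exp (-x)]
      have h8 : Real.exp x * Real.exp (-x) = 1 := by rw [← Real.exp_add]; simp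
      have h9 : 0 < Real.exp x := Real.exp_pos x
      have h10 : Real.exp x * (1 - x) ≤ 1 := by
        have h11 := mul_le_mul_of_nonneg_left h7 h9.le
        linarith
      nlinarith
    have h7 : 8 * (m : ℝ) / √z = 2 * x := by rw [hx]; ring
    rw [h7]
    exact (h1.trans (Real.exp_le_exp.mpr h3)).trans h6
  -- powers of z
  have hz1 : 1 / (z : ℝ) ≤ ε := by
    rw [hε, one_div, ← Real.rpow_neg_one]
    exact Real.rpow_le_rpow_of_exponent_le (by linarith) (by norm_num)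
  have hz2 : 1 / √(z : ℝ) ≤ ε := by
    rw [hε, one_div, Real.sqrt_eq_rpow, ← Real.rpow_neg (by linarith)]
    exact Real.rpow_le_rpow_of_exponent_le (by linarith) (by norm_num)
  have hb1 : 4 * (D0 : ℝ) / z ≤ 4 * D0 * ε := by
    have : 4 * (D0 : ℝ) / z = 4 * D0 * (1 / z) := by ring
    rw [this]
    exact mul_le_mul_of_nonneg_left hz1 (by positivity)
  have hb2 : 8 * (m : ℝ) / √z ≤ 8 * m * ε := by
    have : 8 * (m : ℝ) / √z = 8 * m * (1 / √z) := by ring
    rw [this]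
    exact mul_le_mul_of_nonneg_left hz2 (by positivity)
  have hb3 : 8 * (m : ℝ) / √z ≤ 1 := by
    rw [div_le_one hsq]
    exact hzm
  have hD0' : (0 : ℝ) ≤ D0 := Nat.cast_nonneg _
  have hPR3 : |PR - 1| ≤ (4 * D0 + 8 * m) * ε := by
    rw [abs_le]
    constructor <;> nlinarith [hPR1, hPR2, mul_nonneg hD0' hε0.le, mul_nonneg (Nat.cast_nonneg (α := ℝ) m) hε0.le]
  have hC1 : 0 ≤ C1 z a := by
    unfold C1
    refine prod_nonneg fun p hp => ?_
    have hpp := (mem_pz.mp hp).2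
    have h2 : (2 : ℝ) ≤ p := by exact_mod_cast hpp.two_le
    have h3 := om1_sub p hpp a
    have h4 : (om1 p a : ℝ) ≤ (p : ℝ) - 1 := by
      have h5 : om1 p a + 1 ≤ p := by
        have := hpp.two_le
        omega
      have h6 : (om1 p a : ℝ) + 1 ≤ p := by exact_mod_cast h5
      linarith
    have h7 : (om1 p a : ℝ) / (p - 1) ≤ 1 := by
      rw [div_le_one (by linarith)]
      exact h4
    have h8 : 1 / (p : ℝ) ≤ 1 := by
      rw [div_le_one (by linarith)]
      linarith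
    exact div_nonneg (by linarith) (pow_nonneg (by linarith) _)
  have hPB1 : |PB - 1| ≤ (3 * C + 4 * D0 + 8 * m) * ε := by
    have h1 : PB - 1 = (PA - 1) * PR + (PR - 1) := by rw [hPBe]; ring
    have h2 : 0 ≤ PR := by
      rw [hPR]
      exact prod_nonneg fun p hp => le_trans (by linarith [(hsm p hp).2]) (hlow p hp).1
    have h3 : PR ≤ 2 := by linarith
    rw [h1]
    calc |(PA - 1) * PR + (PR - 1)| ≤ |(PA - 1) * PR| + |PR - 1| := abs_add_le _ _
      _ = |PA - 1| * PR + |PR - 1| := by rw [abs_mul, abs_of_nonneg h2]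
      _ ≤ C * ε * 2 + (4 * D0 + 8 * m) * ε := by
        refine add_le_add (mul_le_mul hPA1 h3 h2 (by positivity)) hPR3
      _ ≤ _ := by
        have : 0 ≤ C * ε := by positivity
        linarith
  have h1 : C1 Y a - C1 z a = C1 z a * (PB - 1) := by rw [h1Y]; ring
  rw [h1, abs_mul, abs_of_nonneg hC1, mul_comm]
  exact mul_le_mul_of_nonneg_right hPB1 hC1

theorem t (hPY : S_PY) (hLC : S_LOWC) : S_PYP := by
  classical
  intro m dd hdd
  obtain ⟨C, z0, hC, hPY⟩ := hPY m dd hdd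
  obtain ⟨c, D, hc, hLC⟩ := hLC m dd
  set D0 : ℕ := ∑ i, dd i with hD0
  refine ⟨3 * C + 4 * D0 + 8 * m + m, max (max z0 3) (max (max (2 * D0 + 2) (64 * m ^ 2)) ⌈(2 * C) ^ 20⌉₊), ?_, ?_⟩
  · have h1 : (0 : ℝ) ≤ D0 := Nat.cast_nonneg _
    have h2 : (0 : ℝ) ≤ m := Nat.cast_nonneg _
    linarith
  intro H z hz hlog hH
  have hzz0 : z0 ≤ z := (le_max_left _ _).trans ((le_max_left _ _).trans hz)
  have hz3 : 3 ≤ z := (le_max_right _ _).trans ((le_max_left _ _).trans hz)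
  have hzD : 2 * D0 + 2 ≤ z := (le_max_left _ _).trans ((le_max_left _ _).trans ((le_max_right _ _).trans hz))
  have hzm' : 64 * m ^ 2 ≤ z := (le_max_right _ _).trans ((le_max_left _ _).trans ((le_max_right _ _).trans hz))
  have hzC' : ⌈(2 * C) ^ 20⌉₊ ≤ z := (le_max_right _ _).trans ((le_max_right _ _).trans hz)
  have hzr : (3 : ℝ) ≤ z := by exact_mod_cast hz3
  have hzm : 8 * (m : ℝ) ≤ √z := by
    refine Real.le_sqrt_of_sq_le ?_
    have : 64 * (m : ℝ) ^ 2 ≤ z := by exact_mod_cast hzm'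
    nlinarith
  have hzC : C * (z : ℝ) ^ (-(1 / 20) : ℝ) ≤ 1 / 2 := by
    have h1 : (2 * C) ^ 20 ≤ (z : ℝ) := (Nat.le_ceil _).trans (by exact_mod_cast hzC')
    have h2 : 2 * C ≤ (z : ℝ) ^ (1 / 20 : ℝ) := by
      have h3 : ((2 * C) ^ 20) ^ (1 / 20 : ℝ) ≤ (z : ℝ) ^ (1 / 20 : ℝ) :=
        Real.rpow_le_rpow (by positivity) h1 (by norm_num)
      rw [← Real.rpow_natCast, ← Real.rpow_mul (by linarith)] at h3
      norm_num at h3
      norm_num
      exact h3
    have h4 : 0 < (z : ℝ) ^ (1 / 20 : ℝ) := Real.rpow_pos_of_pos (by linarith) _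
    rw [Real.rpow_neg (by linarith), ← div_eq_mul_inv, div_le_iff₀ h4]
    linarith
  have hbx : (0 : ℝ) ≤ ((bx dd H).card : ℝ) := Nat.cast_nonneg _
  have hq0 : 0 < (z : ℝ) ^ (-(1 / 4) : ℝ) := Real.rpow_pos_of_pos (by linarith) _
  have hm0 : (0 : ℝ) ≤ m := Nat.cast_nonneg _
  have hD00 : (0 : ℝ) ≤ D0 := Nat.cast_nonneg _
  by_cases hzH : H < z
  · refine ⟨∅, empty_subset _, ?_, ?_⟩
    · rw [card_empty, Nat.cast_zero]
      have : 0 ≤ 3 * C + 4 * (D0 : ℝ) + 8 * m + m := by linarith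
      positivity
    · intro a _ _ _ Y hY1 hY2
      exfalso
      have h1 : Y ≤ Y ^ 4 := Nat.le_self_pow (by norm_num) Y
      omega
  obtain ⟨Bad, hB1, hB2, hB3⟩ := hPY H z hzz0 hH
  refine ⟨Bad ∪ univ.biUnion (fun i : Fin m => (bx dd H).filter (fun a => a i 0 = 0)), ?_, ?_, ?_⟩
  · refine union_subset hB1 ?_
    rw [biUnion_subset]
    intro i _
    exact filter_subset _ _
  · have h1 : ((univ.biUnion (fun i : Fin m => (bx dd H).filter (fun a => a i 0 = 0))).card : ℝ) ≤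
        m * ((bx dd H).card : ℝ) * (z : ℝ) ^ (-(1 / 4) : ℝ) := by
      have h2 : ∀ i : Fin m, (((bx dd H).filter (fun a => a i 0 = 0)).card : ℝ) ≤
          ((bx dd H).card : ℝ) * (z : ℝ) ^ (-(1 / 4) : ℝ) := by
        intro i
        have h3 : (2 * (H : ℝ) + 1) * (((bx dd H).filter (fun a => a i 0 = 0)).card : ℝ) ≤ ((bx dd H).card : ℝ) := by
          exact_mod_cast zero_count dd H i
        have h4 : (z : ℝ) ≤ H := by exact_mod_cast (not_lt.mp hzH)
        have h5 : (z : ℝ) * (((bx dd H).filter (fun a => a i 0 = 0)).card : ℝ) ≤ ((bx dd H).card : ℝ) := by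
          refine le_trans (mul_le_mul_of_nonneg_right ?_ (Nat.cast_nonneg _)) h3
          linarith
        have h6 : 1 / (z : ℝ) ≤ (z : ℝ) ^ (-(1 / 4) : ℝ) := by
          rw [one_div, ← Real.rpow_neg_one]
          exact Real.rpow_le_rpow_of_exponent_le (by linarith) (by norm_num)
        calc (((bx dd H).filter (fun a => a i 0 = 0)).card : ℝ) ≤ ((bx dd H).card : ℝ) * (1 / z) := by
              rw [mul_one_div, le_div_iff₀ (by linarith)]
              linarith
          _ ≤ _ := mul_le_mul_of_nonneg_left h6 hbx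
      calc ((univ.biUnion (fun i : Fin m => (bx dd H).filter (fun a => a i 0 = 0))).card : ℝ) ≤
            ∑ i : Fin m, (((bx dd H).filter (fun a => a i 0 = 0)).card : ℝ) := by
            exact_mod_cast card_biUnion_le
        _ ≤ ∑ _i : Fin m, ((bx dd H).card : ℝ) * (z : ℝ) ^ (-(1 / 4) : ℝ) := sum_le_sum fun i _ => h2 i
        _ = m * ((bx dd H).card : ℝ) * (z : ℝ) ^ (-(1 / 4) : ℝ) := by
          rw [sum_const, card_univ, Fintype.card_fin, nsmul_eq_mul, mul_assoc]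
    have h2 : ((Bad ∪ univ.biUnion (fun i : Fin m => (bx dd H).filter (fun a => a i 0 = 0))).card : ℝ) ≤
        Bad.card + (univ.biUnion (fun i : Fin m => (bx dd H).filter (fun a => a i 0 = 0))).card := by
      exact_mod_cast card_union_le _ _
    have h3 : 0 ≤ ((bx dd H).card : ℝ) * (z : ℝ) ^ (-(1 / 4) : ℝ) := by positivity
    have h4 : 0 ≤ (2 * C + 4 * (D0 : ℝ) + 8 * m) * (((bx dd H).card : ℝ) * (z : ℝ) ^ (-(1 / 4) : ℝ)) :=
      mul_nonneg (by linarith) h3
    linarith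
  · intro a ha haB hom Y hY1 hY2
    rw [mem_union, not_or] at haB
    have h0 : ∀ i, a i 0 ≠ 0 := by
      intro i hi
      exact haB.2 (mem_biUnion.mpr ⟨i, mem_univ _, mem_filter.mpr ⟨ha, hi⟩⟩)
    have hpos : 0 < Cz z a := by
      refine lt_of_lt_of_le ?_ ((hLC z a hz3).2.2 hom)
      have : 0 < Real.log z := Real.log_pos (by linarith)
      positivity
    have h1 := main hC hz3 hzD hzm hzC hlog hH ha h0 hpos hY1 (hB3 a ha haB.1 Y hY1 hY2)
    refine h1.trans ?_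
    have hC1 : 0 ≤ C1 z a := by
      by_contra hcon
      have h2 : |C1 Y a - C1 z a| < 0 := by
        refine lt_of_le_of_lt h1 ?_
        refine mul_neg_of_pos_of_neg ?_ (not_le.mp hcon)
        have : 0 < (z : ℝ) ^ (-(1 / 20) : ℝ) := Real.rpow_pos_of_pos (by linarith) _
        have h3 : 0 < 3 * C + 4 * ((∑ i, dd i : ℕ) : ℝ) + 8 * m := by
          have : (0 : ℝ) ≤ ((∑ i, dd i : ℕ) : ℝ) := Nat.cast_nonneg _
          linarith
        positivity
      exact absurd (abs_nonneg _) (not_le.mpr h2)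
    refine mul_le_mul_of_nonneg_right (mul_le_mul_of_nonneg_right ?_ (Real.rpow_nonneg (by linarith) _)) hC1
    rw [← hD0]
    linarith

end Pool.Agent.H12P.PYP
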