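import Pool.Agent.H12P.Stm
import Pool.Agent.H13K.T2
import Pool.Agent.H13K.SEC

/-!
# Project PA (helper12): the stub SECP
-/

set_option autoImplicit false

namespace Pool.Agent.H12P.SECP

open Finset Filter
open Pool.Agent.H373R2.T7 (lamz pz Vz)
open Pool.Agent.H13K Pool.Agent.H12P

theorem lw_eq {n : ℕ} (hn : 2 ≤ n) : lw n = 1 / Real.log n := by
  unfold lw
  rw [max_eq_left (by exact_mod_cast hn)]

theorem lw_bd (n : ℕ) : 0 ≤ lw n ∧ lw n ≤ 2 := by
  have h1 : (2 : ℝ) ≤ max (n : ℝ) 2 := le_max_right _ _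
  have h2 : Real.log 2 ≤ Real.log (max (n : ℝ) 2) := Real.log_le_log (by norm_num) h1
  have h3 : (1 : ℝ) / 2 ≤ Real.log 2 := by have := Real.log_two_gt_d9; linarith
  unfold lw
  refine ⟨one_div_nonneg.2 (by linarith), ?_⟩
  rw [div_le_iff₀ (by linarith)]
  linarith

theorem lw_th {z q : ℕ} (hq : q.Prime) (hz : z < q) : lw q * th z q = 1 := by
  rw [lw_eq hq.two_le]
  unfold th
  rw [if_pos ⟨hq, hz⟩]
  have h1 : (1 : ℝ) < q := by exact_mod_cast hq.one_lt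
  have h2 := Real.log_pos h1
  field_simp

variable {m : ℕ} {dd : Fin m → ℕ}

/-- first error term -/
noncomputable def e1 (H z : ℕ) (a : ∀ i : Fin m, Fin (dd i + 1) → ℤ) (n : ℕ) : ℝ :=
  if n.Prime then Wf a (n : ℤ) * sf z a (n : ℤ) - (if z < n then Wh H a (n : ℤ) * sf z a (n : ℤ) else 0) else 0

/-- second error term -/
noncomputable def e2 (H : ℕ) (a : ∀ i : Fin m, Fin (dd i + 1) → ℤ) (n : ℕ) : ℝ :=
  Wh H a (n : ℤ) * lw n - (if 2 ≤ n then Wf a (n : ℤ) / Real.log n else 0)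

theorem decomp (H z K : ℕ) (a : ∀ i : Fin m, Fin (dd i + 1) → ℤ) :
    P1 a K - C1 z a * L1 a K =
      ∑ n ∈ (Icc 1 K).filter Nat.Prime, (∏ i, pr (Fv (a i) (n : ℤ)).natAbs - ∏ i, nu z (Fv (a i) (n : ℤ)).natAbs) +
      ∑ n ∈ Icc 1 K, Wh H a (n : ℤ) * lw n * (th z n * sf z a (n : ℤ) - C1 z a) +
      (∑ n ∈ Icc 1 K, e1 H z a n + C1 z a * ∑ n ∈ Icc 1 K, e2 H a n) := by
  have hL : L1 a K = ∑ n ∈ Icc 1 K, (if 2 ≤ n then Wf a (n : ℤ) / Real.log n else 0) := by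
    unfold L1
    rw [← sum_filter]
    refine sum_congr ?_ fun _ _ => rfl
    ext n
    simp only [mem_Icc, mem_filter]
    omega
  have hP : P1 a K = ∑ n ∈ (Icc 1 K).filter Nat.Prime, (∏ i, pr (Fv (a i) (n : ℤ)).natAbs -
      ∏ i, nu z (Fv (a i) (n : ℤ)).natAbs) +
      ∑ n ∈ Icc 1 K, (if n.Prime then Wf a (n : ℤ) * sf z a (n : ℤ) else 0) := by
    unfold P1
    rw [← sum_filter, ← sum_add_distrib]
    refine sum_congr rfl fun n _ => ?_
    rw [Pool.Agent.H13K.SEC.prod_nu]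
    ring
  have h3 : ∀ n ∈ Icc 1 K, Wh H a (n : ℤ) * lw n * (th z n * sf z a (n : ℤ) - C1 z a) =
      (if n.Prime then (if z < n then Wh H a (n : ℤ) * sf z a (n : ℤ) else 0) else 0) -
        C1 z a * (Wh H a (n : ℤ) * lw n) := by
    intro n _
    split_ifs with hp hz
    · have := lw_th hp hz
      calc Wh H a (n : ℤ) * lw n * (th z n * sf z a (n : ℤ) - C1 z a) =
          Wh H a (n : ℤ) * sf z a (n : ℤ) * (lw n * th z n) - C1 z a * (Wh H a (n : ℤ) * lw n) := by ring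
        _ = _ := by rw [this, mul_one]
    · unfold th
      rw [if_neg (fun h => hz h.2)]
      ring
    · unfold th
      rw [if_neg (fun h => hp h.1)]
      ring
  have h4 : ∑ n ∈ Icc 1 K, e1 H z a n = ∑ n ∈ Icc 1 K, (if n.Prime then Wf a (n : ℤ) * sf z a (n : ℤ) else 0) -
      ∑ n ∈ Icc 1 K, (if n.Prime then (if z < n then Wh H a (n : ℤ) * sf z a (n : ℤ) else 0) else 0) := by
    rw [← sum_sub_distrib]
    refine sum_congr rfl fun n _ => ?_
    unfold e1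
    by_cases hp : n.Prime
    · rw [if_pos hp, if_pos hp, if_pos hp]
    · rw [if_neg hp, if_neg hp, if_neg hp, sub_zero]
  have h5 : ∑ n ∈ Icc 1 K, e2 H a n = ∑ n ∈ Icc 1 K, Wh H a (n : ℤ) * lw n -
      ∑ n ∈ Icc 1 K, (if 2 ≤ n then Wf a (n : ℤ) / Real.log n else 0) := by
    rw [← sum_sub_distrib]
    rfl
  have h3' : ∑ n ∈ Icc 1 K, Wh H a (n : ℤ) * lw n * (th z n * sf z a (n : ℤ) - C1 z a) =
      ∑ n ∈ Icc 1 K, (if n.Prime then (if z < n then Wh H a (n : ℤ) * sf z a (n : ℤ) else 0) else 0) -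
        C1 z a * ∑ n ∈ Icc 1 K, Wh H a (n : ℤ) * lw n := by
    rw [mul_sum, ← sum_sub_distrib]
    exact sum_congr rfl h3
  rw [hP, hL, h3', h4, h5]
  ring

theorem e_bound (H z K : ℕ) (a : ∀ i : Fin m, Fin (dd i + 1) → ℤ) (Cv Cw Ce V : ℝ) (hV : 0 ≤ V)
    (hWf : ∀ n : ℤ, 0 ≤ Wf a n ∧ Wf a n ≤ Cv) (hWh : ∀ n : ℤ, 0 ≤ Wh H a n ∧ Wh H a n ≤ Cw)
    (hsf : ∀ n : ℤ, 0 ≤ sf z a n ∧ sf z a n ≤ V)
    (hex : (((Icc 1 K).filter (fun n : ℕ => Wf a (n : ℤ) ≠ Wh H a (n : ℤ))).card : ℝ) ≤ Ce)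
    (hC1 : 0 ≤ C1 z a ∧ C1 z a ≤ V) :
    |∑ n ∈ Icc 1 K, e1 H z a n + C1 z a * ∑ n ∈ Icc 1 K, e2 H a n| ≤
      V * (3 * (Ce * (Cv + Cw)) + 2 * Cw + z * Cw) := by
  have hCv : 0 ≤ Cv := (hWf 0).1.trans (hWf 0).2
  have hCw : 0 ≤ Cw := (hWh 0).1.trans (hWh 0).2
  have hD : ∑ n ∈ Icc 1 K, |Wf a (n : ℤ) - Wh H a (n : ℤ)| ≤ Ce * (Cv + Cw) := by
    have h1 : ∀ n ∈ Icc 1 K, |Wf a (n : ℤ) - Wh H a (n : ℤ)| ≤
        (if Wf a (n : ℤ) ≠ Wh H a (n : ℤ) then Cv + Cw else 0) := by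
      intro n _
      split_ifs with h
      · rw [abs_le]
        constructor <;> linarith [(hWf n).1, (hWf n).2, (hWh n).1, (hWh n).2]
      · rw [not_not] at h
        rw [h, sub_self, abs_zero]
    refine (sum_le_sum h1).trans ?_
    rw [← sum_filter, sum_const, nsmul_eq_mul]
    exact mul_le_mul_of_nonneg_right hex (by linarith)
  have hz : ∑ n ∈ Icc 1 K, (if n ≤ z then Cw else 0) ≤ z * Cw := by
    rw [← sum_filter, sum_const, nsmul_eq_mul]
    refine mul_le_mul_of_nonneg_right ?_ hCw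
    have h1 : ((Icc 1 K).filter (fun n => n ≤ z)).card ≤ (Icc 1 z).card := by
      refine card_le_card fun n hn => ?_
      simp only [mem_filter, mem_Icc] at hn ⊢
      exact ⟨hn.1.1, hn.2⟩
    rw [Nat.card_Icc, Nat.add_sub_cancel] at h1
    exact_mod_cast h1
  have h1 : |∑ n ∈ Icc 1 K, e1 H z a n| ≤ V * (Ce * (Cv + Cw) + z * Cw) := by
    refine (abs_sum_le_sum_abs _ _).trans ?_
    have h2 : ∀ n ∈ Icc 1 K, |e1 H z a n| ≤ V * (|Wf a (n : ℤ) - Wh H a (n : ℤ)| + (if n ≤ z then Cw else 0)) := by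
      intro n _
      have hs := hsf n
      have hw := hWh n
      have hd := abs_nonneg (Wf a (n : ℤ) - Wh H a (n : ℤ))
      unfold e1
      split_ifs with hp hzn hnz hnz
      · omega
      · rw [← sub_mul, abs_mul, abs_of_nonneg hs.1, add_zero, mul_comm]
        exact mul_le_mul_of_nonneg_right hs.2 hd
      · rw [sub_zero, show Wf a (n : ℤ) * sf z a (n : ℤ) =
          sf z a (n : ℤ) * ((Wf a (n : ℤ) - Wh H a (n : ℤ)) + Wh H a (n : ℤ)) by ring, abs_mul,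
          abs_of_nonneg hs.1]
        refine mul_le_mul hs.2 ((abs_add_le _ _).trans ?_) (abs_nonneg _) hV
        rw [abs_of_nonneg hw.1]
        linarith [hw.2]
      · omega
      · rw [abs_zero]
        positivity
      · rw [abs_zero]
        positivity
    refine (sum_le_sum h2).trans ?_
    rw [← mul_sum, sum_add_distrib]
    exact mul_le_mul_of_nonneg_left (add_le_add hD hz) hV
  have h2 : |∑ n ∈ Icc 1 K, e2 H a n| ≤ 2 * (Ce * (Cv + Cw)) + 2 * Cw := by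
    refine (abs_sum_le_sum_abs _ _).trans ?_
    have h3 : ∀ n ∈ Icc 1 K, |e2 H a n| ≤ 2 * |Wf a (n : ℤ) - Wh H a (n : ℤ)| + (if n = 1 then 2 * Cw else 0) := by
      intro n hn
      have hw := hWh n
      have hl := lw_bd n
      have hd := abs_nonneg (Wf a (n : ℤ) - Wh H a (n : ℤ))
      unfold e2
      split_ifs with h2n h1n h1n
      · omega
      · have e : Wh H a (n : ℤ) * lw n - Wf a (n : ℤ) / Real.log n =
            -(lw n * (Wf a (n : ℤ) - Wh H a (n : ℤ))) := by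
          rw [lw_eq h2n]; ring
        rw [e, abs_neg, abs_mul, abs_of_nonneg hl.1, add_zero]
        exact mul_le_mul_of_nonneg_right hl.2 hd
      · rw [sub_zero, abs_of_nonneg (mul_nonneg hw.1 hl.1)]
        have : Wh H a (n : ℤ) * lw n ≤ Cw * 2 := mul_le_mul hw.2 hl.2 hl.1 hCw
        linarith
      · have := (mem_Icc.1 hn).1
        omega
    refine (sum_le_sum h3).trans ?_
    rw [sum_add_distrib, ← mul_sum]
    refine add_le_add (mul_le_mul_of_nonneg_left hD (by norm_num)) ?_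
    rw [← sum_filter, sum_const, nsmul_eq_mul]
    have h4 : ((Icc 1 K).filter (fun n => n = 1)).card ≤ 1 := by
      refine card_le_one.2 fun x hx y hy => ?_
      rw [(mem_filter.1 hx).2, (mem_filter.1 hy).2]
    have h5 : (((Icc 1 K).filter (fun n => n = 1)).card : ℝ) ≤ 1 := by exact_mod_cast h4
    nlinarith
  have h3 : |C1 z a * ∑ n ∈ Icc 1 K, e2 H a n| ≤ V * (2 * (Ce * (Cv + Cw)) + 2 * Cw) := by
    rw [abs_mul, abs_of_nonneg hC1.1]
    exact mul_le_mul hC1.2 h2 (abs_nonneg _) hV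
  refine (abs_add_le _ _).trans ((add_le_add h1 h3).trans (le_of_eq ?_))
  ring

/-- `(Vz z)^(-m) ≤ L` -/
theorem V_small (hVZ : S_VZ) (m E : ℕ) : ∀ᶠ H : ℕ in atTop, ∀ z : ℕ, (z : ℝ) ≤ Real.log H ^ E →
    ((Vz z)⁻¹) ^ m ≤ Real.log H := by
  obtain ⟨C', hC', hVZ⟩ := hVZ
  have hlog : Tendsto (fun H : ℕ => Real.log H) atTop atTop :=
    Real.tendsto_log_atTop.comp tendsto_natCast_atTop_atTop
  have hsmall : ∀ᶠ H : ℕ in atTop, (C' * E * Real.log (Real.log H) + 1) ^ m ≤ Real.log H := by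
    have h1 : ∀ᶠ x : ℝ in atTop, (C' * E * Real.log x + 1) ^ m ≤ x := by
      have h2 : (fun x : ℝ => Real.log x ^ m) =o[atTop] id := Real.isLittleO_pow_log_id_atTop
      have h3 : 0 < 1 / (C' * E + 1) ^ m := by positivity
      have h4 := h2.bound h3
      filter_upwards [h4, eventually_ge_atTop (Real.exp 1)] with x hx hx1
      have hx0 : 0 < x := (Real.exp_pos 1).trans_le hx1
      have hl : 1 ≤ Real.log x := by
        rw [Real.le_log_iff_exp_le hx0]; exact hx1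
      have h5 : C' * E * Real.log x + 1 ≤ (C' * E + 1) * Real.log x := by
        have : 0 ≤ C' * E := by positivity
        nlinarith
      have h6 : 0 ≤ C' * E * Real.log x + 1 := by positivity
      calc (C' * E * Real.log x + 1) ^ m ≤ ((C' * E + 1) * Real.log x) ^ m :=
            pow_le_pow_left₀ h6 h5 m
        _ = (C' * E + 1) ^ m * Real.log x ^ m := mul_pow _ _ _
        _ ≤ (C' * E + 1) ^ m * (1 / (C' * E + 1) ^ m * x) := by
            refine mul_le_mul_of_nonneg_left ?_ (by positivity)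
            have := hx
            rw [Real.norm_of_nonneg (by positivity), id, Real.norm_of_nonneg hx0.le] at this
            exact this
        _ = x := by field_simp
    exact hlog.eventually h1
  filter_upwards [hsmall, hlog.eventually (eventually_ge_atTop (1 : ℝ))] with H hA hL1 z hz
  have hL0 : 0 < Real.log H := by linarith
  have hV0 : 0 < (Vz z)⁻¹ := inv_pos.2 (Pool.Agent.H373R2.T7.Vz_pos z)
  have hloglog : 0 ≤ Real.log (Real.log H) := Real.log_nonneg hL1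
  refine le_trans (pow_le_pow_left₀ hV0.le ?_ m) hA
  rcases Nat.lt_or_ge z 2 with h2 | h2
  · have : pz z = ∅ := by
      rw [eq_empty_iff_forall_notMem]
      intro p hp
      have h3 := Pool.Agent.H373R2.T7.mem_pz.1 hp
      have := h3.2.two_le
      omega
    unfold Vz
    rw [this, prod_empty, inv_one]
    have : 0 ≤ C' * E * Real.log (Real.log H) := by positivity
    linarith
  · refine (hVZ z h2).trans ?_
    have hz0 : (0 : ℝ) < z := by exact_mod_cast (by omega : 0 < z)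
    have h3 : Real.log z ≤ E * Real.log (Real.log H) := by
      rw [← Real.log_pow]
      exact Real.log_le_log hz0 hz
    calc C' * Real.log z ≤ C' * (E * Real.log (Real.log H)) :=
          mul_le_mul_of_nonneg_left h3 (by linarith)
      _ ≤ _ := by linarith

theorem fin (m A E B : ℕ) (L ℓ K N : ℝ) (hL : 9 ≤ L) (hℓ9 : 9 ≤ ℓ) (hℓL : ℓ ≤ L) (hK : L ^ B ≤ K)
    (hN : 0 ≤ N) (hB : E + 3 + A + m ≤ B) :
    3 * (N * K ^ 2 / L ^ (2 * m + A + 2)) + 3 * (N * K ^ 2 / (ℓ ^ (A + 1) * L ^ (2 * m))) +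
      3 * (N * (L ^ (E + 2)) ^ 2) ≤ N * K ^ 2 / (ℓ ^ A * L ^ (2 * m)) := by
  have hL0 : 0 < L := by linarith
  have hℓ0 : 0 < ℓ := by linarith
  have hL1 : 1 ≤ L := by linarith
  have hK0 : 0 < K := lt_of_lt_of_le (by positivity) hK
  set X : ℝ := N * K ^ 2 / (ℓ ^ A * L ^ (2 * m)) with hX
  have hX0 : 0 ≤ X := by positivity
  have hpow : ℓ ^ A ≤ L ^ A := pow_le_pow_left₀ hℓ0.le hℓL A
  have p1 : N * K ^ 2 / L ^ (2 * m + A + 2) ≤ X / 9 := by
    rw [hX, div_div]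
    refine div_le_div_of_nonneg_left (by positivity) (by positivity) ?_
    calc ℓ ^ A * L ^ (2 * m) * 9 ≤ L ^ A * L ^ (2 * m) * L ^ 2 := by
          refine mul_le_mul (mul_le_mul_of_nonneg_right hpow (by positivity)) ?_ (by norm_num) (by positivity)
          nlinarith
      _ = L ^ (2 * m + A + 2) := by rw [← pow_add, ← pow_add]; congr 1; ring
  have p2 : N * K ^ 2 / (ℓ ^ (A + 1) * L ^ (2 * m)) ≤ X / 9 := by
    rw [hX, div_div]
    refine div_le_div_of_nonneg_left (by positivity) (by positivity) ?_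
    calc ℓ ^ A * L ^ (2 * m) * 9 ≤ ℓ ^ A * L ^ (2 * m) * ℓ :=
          mul_le_mul_of_nonneg_left hℓ9 (by positivity)
      _ = ℓ ^ (A + 1) * L ^ (2 * m) := by rw [pow_succ]; ring
  have p3 : N * (L ^ (E + 2)) ^ 2 ≤ X / 9 := by
    rw [hX, div_div, le_div_iff₀ (by positivity), mul_assoc]
    refine mul_le_mul_of_nonneg_left ?_ hN
    calc (L ^ (E + 2)) ^ 2 * (ℓ ^ A * L ^ (2 * m) * 9) ≤
          (L ^ (E + 2)) ^ 2 * (L ^ A * L ^ (2 * m) * L ^ 2) := by
          refine mul_le_mul_of_nonneg_left ?_ (by positivity)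
          refine mul_le_mul (mul_le_mul_of_nonneg_right hpow (by positivity)) ?_ (by norm_num) (by positivity)
          nlinarith
      _ = L ^ (2 * (E + 2) + A + 2 * m + 2) := by
          rw [← pow_mul, ← pow_add, ← pow_add, ← pow_add]; congr 1; ring
      _ ≤ L ^ (B * 2) := pow_le_pow_right₀ hL1 (by omega)
      _ = (L ^ B) ^ 2 := by rw [pow_mul]
      _ ≤ K ^ 2 := pow_le_pow_left₀ (by positivity) hK 2
  linarith

theorem t : S_VZ → S_T1P → S_T2P → S_TVP → S_EXCP → S_LOWCP → S_TV → S_SECP := by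
  intro hVZ hT1 hT2 hTVP hEX hLC hTV m dd A hdd
  obtain ⟨E1, hE1⟩ := hT1 m dd (2 * m + A + 2) hdd
  obtain ⟨Cw, hCw1, hTVP⟩ := hTVP m dd
  obtain ⟨Ce, hCe1, hEX⟩ := hEX m dd hdd
  obtain ⟨c, D, _, hLC⟩ := hLC m dd
  obtain ⟨Cv, hCv1, hTV⟩ := hTV m dd
  refine ⟨max E1 1, fun E hE => ?_⟩
  obtain ⟨B1, H1, hB1⟩ := hE1 E ((le_max_left _ _).trans hE)
  obtain ⟨B2, H2, hB2⟩ := hT2 m dd E (A + 1) hdd
  have hE1' : 1 ≤ E := (le_max_right _ _).trans hE
  have hlog : Tendsto (fun H : ℕ => Real.log H) atTop atTop :=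
    Real.tendsto_log_atTop.comp tendsto_natCast_atTop_atTop
  set C0 : ℝ := 3 * (Ce * (Cv + Cw)) + 2 * Cw + Cw with hC0
  obtain ⟨H3, hH3⟩ := eventually_atTop.1 ((V_small hVZ m E).and
    ((hlog.eventually (eventually_ge_atTop (9 + C0))).and
      ((Real.tendsto_log_atTop.comp hlog).eventually (eventually_ge_atTop (9 : ℝ)))))
  refine ⟨max (max B1 B2) (E + 3 + A + m), max (max H1 H2) (max H3 16), fun H hH K hK hKH => ?_⟩
  obtain ⟨hV, hL9, hLL⟩ := hH3 H (((le_max_left _ _).trans (le_max_right _ _)).trans hH)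
  have hH16 : 16 ≤ H := ((le_max_right _ _).trans (le_max_right _ _)).trans hH
  change (9 : ℝ) ≤ Real.log (Real.log H) at hLL
  set L : ℝ := Real.log H with hLdef
  have hC00 : 0 ≤ C0 := by positivity
  have hL9' : 9 ≤ L := by linarith
  have hL1 : 1 ≤ L := by linarith
  have hL0 : 0 < L := by linarith
  set B : ℕ := max (max B1 B2) (E + 3 + A + m) with hBdef
  have hp1 : L ^ B1 ≤ L ^ B := pow_le_pow_right₀ hL1 ((le_max_left _ _).trans (le_max_left _ _))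
  have hp2 : L ^ B2 ≤ L ^ B := pow_le_pow_right₀ hL1 ((le_max_right _ _).trans (le_max_left _ _))
  have hB3 : E + 3 + A + m ≤ B := le_max_right _ _
  have hK1 : (1 : ℝ) ≤ K := (one_le_pow₀ hL1).trans hK
  have hKH' : K ≤ H := by
    have h1 : (K : ℝ) * 1 ≤ K * L ^ B := mul_le_mul_of_nonneg_left (one_le_pow₀ hL1) (by linarith)
    have h2 : (K : ℝ) ≤ H := by linarith
    exact_mod_cast h2
  set z : ℕ := ⌊L ^ E⌋₊ with hz
  have hzL : (z : ℝ) ≤ L ^ E := Nat.floor_le (by positivity)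
  have hz3 : 3 ≤ z := by
    rw [hz]
    refine Nat.le_floor ?_
    calc ((3 : ℕ) : ℝ) ≤ L := by push_cast; linarith
      _ = L ^ 1 := (pow_one L).symm
      _ ≤ L ^ E := pow_le_pow_right₀ hL1 hE1'
  have hV' := hV z hzL
  have hV0 : 0 ≤ ((Vz z)⁻¹) ^ m := pow_nonneg (inv_pos.2 (Pool.Agent.H373R2.T7.Vz_pos z)).le m
  have hA1 := hB1 H (((le_max_left _ _).trans (le_max_left _ _)).trans hH) K (hp1.trans hK)
    ((mul_le_mul_of_nonneg_left hp1 (by linarith)).trans hKH) ((Icc 1 K).filter Nat.Prime) (filter_subset _ _)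
  have hA2 := hB2 H (((le_max_right _ _).trans (le_max_left _ _)).trans hH) z hz3 hzL K (hp2.trans hK) hKH'
  have hℓL : Real.log K ≤ L := Real.log_le_log (by linarith) (by exact_mod_cast hKH')
  have hℓ9 : 9 ≤ Real.log K := by
    have h1 : Real.log (L ^ B) ≤ Real.log K := Real.log_le_log (by positivity) hK
    rw [Real.log_pow] at h1
    have h2 : (1 : ℝ) ≤ B := by exact_mod_cast (by omega : 1 ≤ B)
    nlinarith
  set N : ℝ := ((bx dd H).card : ℝ) with hN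
  -- the remainder
  have hr : ∀ a ∈ bl dd H, |∑ n ∈ Icc 1 K, e1 H z a n + C1 z a * ∑ n ∈ Icc 1 K, e2 H a n| ≤ L ^ (E + 2) := by
    intro a ha
    have h1 := e_bound H z K a Cv Cw Ce L hL0.le (hTV a).1 (fun n => ⟨((hTVP H (by omega) a).1 n).1,
      ((hTVP H (by omega) a).1 n).2.trans (div_le_self (by linarith) (one_le_pow₀ hL1))⟩)
      (fun n => ⟨(Pool.Agent.H13K.T2.sf_bd z a n).1, (Pool.Agent.H13K.T2.sf_bd z a n).2.trans hV'⟩)
      (hEX H hH16 a ha K) ⟨(hLC z a hz3).1, (hLC z a hz3).2.1.trans hV'⟩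
    refine h1.trans ?_
    have hLE : 1 ≤ L ^ E := one_le_pow₀ hL1
    have h2 : 3 * (Ce * (Cv + Cw)) + 2 * Cw + z * Cw ≤ C0 * L ^ E := by
      have h3 : (z : ℝ) * Cw ≤ L ^ E * Cw := mul_le_mul_of_nonneg_right hzL (by linarith)
      have h4 : 0 ≤ 3 * (Ce * (Cv + Cw)) + 2 * Cw := by positivity
      have h5 : (3 * (Ce * (Cv + Cw)) + 2 * Cw) * 1 ≤ (3 * (Ce * (Cv + Cw)) + 2 * Cw) * L ^ E :=
        mul_le_mul_of_nonneg_left hLE h4
      rw [hC0]
      linarith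
    calc L * (3 * (Ce * (Cv + Cw)) + 2 * Cw + z * Cw) ≤ L * (C0 * L ^ E) :=
          mul_le_mul_of_nonneg_left h2 hL0.le
      _ ≤ L * (L * L ^ E) := by
          refine mul_le_mul_of_nonneg_left (mul_le_mul_of_nonneg_right ?_ (by positivity)) hL0.le
          linarith
      _ = L ^ (E + 2) := by rw [pow_add]; ring
  set S1 : (∀ i : Fin m, Fin (dd i + 1) → ℤ) → ℝ := fun a => ∑ n ∈ (Icc 1 K).filter Nat.Prime,
    (∏ i, pr (Fv (a i) (n : ℤ)).natAbs - ∏ i, nu z (Fv (a i) (n : ℤ)).natAbs) with hS1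
  set S2 : (∀ i : Fin m, Fin (dd i + 1) → ℤ) → ℝ := fun a => ∑ n ∈ Icc 1 K,
    Wh H a (n : ℤ) * lw n * (th z n * sf z a (n : ℤ) - C1 z a) with hS2
  have hsub : bl dd H ⊆ bx dd H := filter_subset _ _
  calc ∑ a ∈ bl dd H, (P1 a K - C1 z a * L1 a K) ^ 2 ≤
      ∑ a ∈ bl dd H, (3 * S1 a ^ 2 + 3 * S2 a ^ 2 + 3 * (L ^ (E + 2)) ^ 2) := by
        refine sum_le_sum fun a ha => ?_
        rw [decomp H z K a]
        have h1 := hr a ha
        set r : ℝ := ∑ n ∈ Icc 1 K, e1 H z a n + C1 z a * ∑ n ∈ Icc 1 K, e2 H a n with hrdef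
        have h2 : r ^ 2 ≤ (L ^ (E + 2)) ^ 2 := by
          rw [← sq_abs]
          exact pow_le_pow_left₀ (abs_nonneg _) h1 2
        change (S1 a + S2 a + r) ^ 2 ≤ _
        nlinarith [sq_nonneg (S1 a - S2 a), sq_nonneg (S1 a - r), sq_nonneg (S2 a - r)]
    _ ≤ ∑ a ∈ bx dd H, (3 * S1 a ^ 2 + 3 * S2 a ^ 2 + 3 * (L ^ (E + 2)) ^ 2) :=
        sum_le_sum_of_subset_of_nonneg hsub fun a _ _ => by positivity
    _ = 3 * ∑ a ∈ bx dd H, S1 a ^ 2 + 3 * ∑ a ∈ bx dd H, S2 a ^ 2 + 3 * (N * (L ^ (E + 2)) ^ 2) := by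
        rw [sum_add_distrib, sum_add_distrib, ← mul_sum, ← mul_sum, sum_const, nsmul_eq_mul]
        ring
    _ ≤ 3 * (N * (K : ℝ) ^ 2 / L ^ (2 * m + A + 2)) +
        3 * (N * (K : ℝ) ^ 2 / (Real.log K ^ (A + 1) * L ^ (2 * m))) + 3 * (N * (L ^ (E + 2)) ^ 2) := by
        refine add_le_add (add_le_add (mul_le_mul_of_nonneg_left hA1 (by norm_num))
          (mul_le_mul_of_nonneg_left hA2 (by norm_num))) le_rfl
    _ ≤ N * (K : ℝ) ^ 2 / (Real.log K ^ A * L ^ (2 * m)) :=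
        fin m A E B L (Real.log K) K N hL9' hℓ9 hℓL hK (Nat.cast_nonneg _) hB3

end Pool.Agent.H12P.SECP
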