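import Pool.Agent.H12P.Stm

/-!
# Project PA (helper12), stub SMP (helper95)
-/

set_option autoImplicit false

namespace Pool.Agent.H12P.SMP

open Finset
open Pool.Agent.H373R2.T7 (lamz pz Vz Vz_pos)
open Pool.Agent.H13K

/-- bilinear expansion -/
theorem bil {ι : Type} (B : Finset ι) (s : ι → ℤ → ℝ) (I J : Finset ℕ) (w v : ℕ → ℝ) :
    ∑ n ∈ I, ∑ n' ∈ J, w n * v n' * ∑ a ∈ B, s a (n : ℤ) * s a (n' : ℤ) =
      ∑ a ∈ B, (∑ n ∈ I, w n * s a (n : ℤ)) * (∑ n' ∈ J, v n' * s a (n' : ℤ)) := by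
  have : ∀ n ∈ I, ∑ n' ∈ J, w n * v n' * ∑ a ∈ B, s a (n : ℤ) * s a (n' : ℤ) =
      ∑ a ∈ B, ∑ n' ∈ J, (w n * s a (n : ℤ)) * (v n' * s a (n' : ℤ)) := by
    intro n _
    rw [sum_comm]
    refine sum_congr rfl fun n' _ => ?_
    rw [mul_sum]
    refine sum_congr rfl fun a _ => ?_
    ring
  rw [sum_congr rfl this, sum_comm]
  refine sum_congr rfl fun a _ => ?_
  rw [sum_mul_sum]

/-- the second moment, if the correlations are known -/
theorem second {ι : Type} (B : Finset ι) (s : ι → ℤ → ℝ) (I R : Finset ℕ) (w : ℕ → ℝ) (c X ε : ℝ)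
    (Y : ℤ → ℝ) (hw : ∀ n, 0 ≤ w n) (hc : 0 ≤ c)
    (h : ∀ x y : ℤ, |∑ a ∈ B, s a x * s a y - X * Y (x - y)| ≤ ε) :
    ∑ a ∈ B, (∑ n ∈ I, w n * s a (n : ℤ) - c * ∑ α ∈ R, s a (α : ℤ)) ^ 2 ≤
      X * (∑ n ∈ I, ∑ n' ∈ I, w n * w n' * Y ((n : ℤ) - n') -
        2 * c * ∑ n ∈ I, ∑ α ∈ R, w n * Y ((n : ℤ) - α) +
        c ^ 2 * ∑ α ∈ R, ∑ α' ∈ R, Y ((α : ℤ) - α')) +
      ε * (∑ n ∈ I, w n + c * R.card) ^ 2 := by
  have h11 := bil B s I I w w
  have h12 := bil B s I R w (fun _ => 1)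
  have h22 := bil B s R R (fun _ => 1) (fun _ => 1)
  simp only [one_mul, mul_one] at h12 h22
  have hexp : ∑ a ∈ B, (∑ n ∈ I, w n * s a (n : ℤ) - c * ∑ α ∈ R, s a (α : ℤ)) ^ 2 =
      ∑ n ∈ I, ∑ n' ∈ I, w n * w n' * ∑ a ∈ B, s a (n : ℤ) * s a (n' : ℤ) -
      2 * c * ∑ n ∈ I, ∑ α ∈ R, w n * ∑ a ∈ B, s a (n : ℤ) * s a (α : ℤ) +
      c ^ 2 * ∑ α ∈ R, ∑ α' ∈ R, ∑ a ∈ B, s a (α : ℤ) * s a (α' : ℤ) := by
    rw [h11, h12, h22, mul_sum, mul_sum, ← sum_sub_distrib, ← sum_add_distrib]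
    refine sum_congr rfl fun a _ => ?_
    ring
  rw [hexp]
  have key : ∀ x y : ℤ, (∑ a ∈ B, s a x * s a y) ≤ X * Y (x - y) + ε ∧
      X * Y (x - y) - ε ≤ ∑ a ∈ B, s a x * s a y := by
    intro x y
    have h := abs_le.mp (h x y)
    constructor <;> linarith [h.1, h.2]
  have t1 : ∑ n ∈ I, ∑ n' ∈ I, w n * w n' * ∑ a ∈ B, s a (n : ℤ) * s a (n' : ℤ) ≤
      X * ∑ n ∈ I, ∑ n' ∈ I, w n * w n' * Y ((n : ℤ) - n') + ε * (∑ n ∈ I, w n) ^ 2 := by
    calc _ ≤ ∑ n ∈ I, ∑ n' ∈ I, w n * w n' * (X * Y ((n : ℤ) - n') + ε) :=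
          sum_le_sum fun n _ => sum_le_sum fun n' _ =>
            mul_le_mul_of_nonneg_left (key n n').1 (mul_nonneg (hw n) (hw n'))
      _ = _ := by
          rw [sq, sum_mul_sum, mul_sum, mul_sum, ← sum_add_distrib]
          refine sum_congr rfl fun n _ => ?_
          rw [mul_sum, mul_sum, ← sum_add_distrib]
          refine sum_congr rfl fun n' _ => ?_
          ring
  have t2 : X * ∑ n ∈ I, ∑ α ∈ R, w n * Y ((n : ℤ) - α) - ε * ((∑ n ∈ I, w n) * R.card) ≤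
      ∑ n ∈ I, ∑ α ∈ R, w n * ∑ a ∈ B, s a (n : ℤ) * s a (α : ℤ) := by
    calc _ = ∑ n ∈ I, ∑ α ∈ R, w n * (X * Y ((n : ℤ) - α) - ε) := by
          rw [sum_mul, mul_sum, mul_sum, ← sum_sub_distrib]
          refine sum_congr rfl fun n _ => ?_
          have : ∑ α ∈ R, w n * (X * Y ((n : ℤ) - α) - ε) =
              ∑ α ∈ R, X * (w n * Y ((n : ℤ) - α)) - ∑ α ∈ R, w n * ε := by
            rw [← sum_sub_distrib]
            refine sum_congr rfl fun α _ => ?_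
            ring
          rw [this, sum_const, nsmul_eq_mul, mul_sum]
          ring
      _ ≤ _ := sum_le_sum fun n _ => sum_le_sum fun n' _ =>
          mul_le_mul_of_nonneg_left (key n n').2 (hw n)
  have t3 : ∑ α ∈ R, ∑ α' ∈ R, ∑ a ∈ B, s a (α : ℤ) * s a (α' : ℤ) ≤
      X * ∑ α ∈ R, ∑ α' ∈ R, Y ((α : ℤ) - α') + ε * (R.card : ℝ) ^ 2 := by
    calc _ ≤ ∑ n ∈ R, ∑ n' ∈ R, (X * Y ((n : ℤ) - n') + ε) :=
          sum_le_sum fun n _ => sum_le_sum fun n' _ => (key n n').1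
      _ = _ := by
          simp only [sum_add_distrib, sum_const, nsmul_eq_mul, mul_sum]
          ring
  have f2 := mul_le_mul_of_nonneg_left t2 (by positivity : 0 ≤ 2 * c)
  have f3 := mul_le_mul_of_nonneg_left t3 (by positivity : 0 ≤ c ^ 2)
  nlinarith [t1, f2, f3]

/-- a lower bound for the logarithm -/
lemma log_ge (c : ℝ) : ∃ x0 : ℕ, ∀ x : ℕ, x0 ≤ x → c ≤ Real.log x := by
  have h := Real.tendsto_log_atTop.comp (tendsto_natCast_atTop_atTop (R := ℝ))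
  exact Filter.eventually_atTop.mp (h.eventually_ge_atTop c)

lemma ph_pos (z : ℕ) : 0 < ph z := by
  unfold ph
  refine prod_pos fun p hp => ?_
  unfold pz at hp
  have h2 : (2 : ℝ) ≤ p := by exact_mod_cast (mem_filter.mp hp).2.two_le
  linarith

lemma th_nonneg (z n : ℕ) : 0 ≤ th z n := by
  unfold th
  split_ifs with h
  · exact Real.log_nonneg (by exact_mod_cast h.1.one_le)
  · exact le_rfl

lemma th_le (z n N : ℕ) (hn : n ≤ N) (hN : 1 ≤ N) : th z n ≤ Real.log N := by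
  unfold th
  split_ifs with h
  · exact Real.log_le_log (by exact_mod_cast h.1.pos) (by exact_mod_cast hn)
  · exact Real.log_nonneg (by exact_mod_cast hN)

theorem t (hVZ : S_VZ) (hFL : S_FL) (hCRT : S_CRTP) (hAV : S_AVP) (hSWT : S_SWT) (hVAR : S_VARP)
    (hLOW : S_LOWCP) : S_SMP := by
  obtain ⟨C, hC, hVZ⟩ := hVZ
  intro m dd E A hdd
  obtain ⟨H1, hH1⟩ := hFL m dd E (A + 5) hdd
  obtain ⟨B2, H2, hH2⟩ := hSWT E 0 (A + 2 * m + 5)
  obtain ⟨B3, H3, hH3⟩ := hVAR m E (A + 1)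
  obtain ⟨c0, D0, -, hLOW⟩ := hLOW m dd
  obtain ⟨H4, hH4⟩ := log_ge (Real.exp (C + 8))
  refine ⟨B2 + B3 + E + 1, max (max H1 H2) (max H3 H4), ?_⟩
  intro H hH z hz3 hz N hNB hNH
  have hF := hH1 H (le_trans (le_trans (le_max_left _ _) (le_max_left _ _)) hH) z hz
  have hL := hH4 H (le_trans (le_trans (le_max_right _ _) (le_max_right _ _)) hH)
  set L : ℝ := Real.log H with hLdef
  have hL8 : C + 8 ≤ Real.log L := by
    rw [← Real.log_exp (C + 8)]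
    exact Real.log_le_log (Real.exp_pos _) hL
  have hL1 : 1 ≤ L := by
    have : (1 : ℝ) ≤ Real.exp (C + 8) := Real.one_le_exp (by linarith)
    linarith
  have hL0 : 0 < L := by linarith
  have hpw : ∀ n : ℕ, n ≤ B2 + B3 + E + 1 → L ^ n ≤ N := fun n hn =>
    (pow_le_pow_right₀ hL1 hn).trans hNB
  have hS := hH2 H (le_trans (le_trans (le_max_right _ _) (le_max_left _ _)) hH) z hz N (hpw _ (by omega))
    1 le_rfl (by simp) 0 (by simp)
  have hV := hH3 H (le_trans (le_trans (le_max_left _ _) (le_max_right _ _)) hH) z hz N (hpw _ (by omega))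
  have hNL : L ≤ N := by simpa using hpw 1 (by omega)
  have hN0 : (0 : ℝ) < N := by linarith
  have hN1 : 1 ≤ N := by exact_mod_cast (by linarith : (1 : ℝ) ≤ N)
  set ℓ : ℝ := Real.log N with hℓ
  have hℓL : ℓ ≤ L := Real.log_le_log hN0 (by exact_mod_cast hNH)
  have hℓC : C + 8 ≤ ℓ := hL8.trans (Real.log_le_log hL0 hNL)
  have hℓ0 : 0 < ℓ := by linarith
  have hℓ8 : 8 ≤ ℓ := by linarith
  have hℓ1 : 1 ≤ ℓ := by linarith
  -- the sieve factor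
  set V : ℝ := (Vz z)⁻¹ with hVdef
  have hV0 : 0 < V := inv_pos.mpr (Vz_pos z)
  have hVℓ : V ≤ ℓ ^ 2 := by
    have h1 := hVZ z (by omega)
    have h2 : Real.log z ≤ ℓ := by
      apply Real.log_le_log (by exact_mod_cast (by omega : 0 < z))
      exact hz.trans (hpw E (by omega))
    calc V ≤ C * Real.log z := h1
      _ ≤ ℓ * ℓ := by
          apply mul_le_mul (by linarith) h2 _ (by linarith)
          exact Real.log_nonneg (by exact_mod_cast (by omega : 1 ≤ z))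
      _ = ℓ ^ 2 := by ring
  have hVm : V ^ m ≤ ℓ ^ (2 * m) := by
    rw [pow_mul]
    exact pow_le_pow_left₀ hV0.le hVℓ m
  -- the sum of the weights
  set θ : ℝ := ∑ n ∈ Icc 1 N, th z n with hθ
  have hθ0 : 0 ≤ θ := sum_nonneg fun n _ => th_nonneg z n
  have hθN : |θ - N| ≤ N / ℓ ^ (A + 2 * m + 5) := by
    have h1 : (Icc 1 N).filter (fun n => n ≡ 0 [MOD 1]) = Icc 1 N :=
      filter_true_of_mem fun n _ => Nat.modEq_one
    rw [h1, Nat.totient_one, Nat.cast_one, div_one] at hS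
    exact hS
  have hθle : θ ≤ N * ℓ := by
    calc θ ≤ ∑ _n ∈ Icc 1 N, ℓ := sum_le_sum fun n hn => th_le z n N (mem_Icc.mp hn).2 hN1
      _ = N * ℓ := by rw [sum_const, Nat.card_Icc, Nat.add_sub_cancel, nsmul_eq_mul]
  set X : ℝ := ((bx dd H).card : ℝ) with hX
  have hX0 : 0 ≤ X := by rw [hX]; positivity
  have hφ := ph_pos z
  set c : ℝ := θ / ph z with hc
  have hcφ : c * ph z = θ := by rw [hc]; field_simp
  have hc0 : 0 ≤ c := by positivity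
  -- the main second moment
  have hsec := second (bx dd H) (fun a x => sf z a x) (Icc 1 N) (RP z) (th z) c X (X / L ^ (A + 5))
    (Ym m z) (th_nonneg z) hc0 hF
  have hcard : ((RP z).card : ℝ) = ph z := by
    have h1 := hCRT m dd z (fun _ _ => 0)
    exact h1.1
  have hsum : ∀ a ∈ bx dd H, ∑ n ∈ Icc 1 N, th z n * sf z a (n : ℤ) - c * ∑ α ∈ RP z, sf z a (α : ℤ) =
      ∑ n ∈ Icc 1 N, th z n * sf z a (n : ℤ) - θ * C1 z a := by
    intro a _
    rw [(hCRT m dd z a).2, ← mul_assoc, hcφ]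
  have m2 : ∑ n ∈ Icc 1 N, ∑ α ∈ RP z, th z n * Ym m z ((n : ℤ) - α) = θ * (ph z * Y1 m z) := by
    rw [hθ, sum_mul]
    refine sum_congr rfl fun n _ => ?_
    rw [← mul_sum]
    by_cases h : th z n = 0
    · rw [h, zero_mul, zero_mul]
    · rw [hAV m z (n : ℤ)]
      intro p hp hpn
      apply h
      unfold th
      rw [if_neg]
      rintro ⟨h1, h2⟩
      have h3 : p ∣ n := by exact_mod_cast hpn
      unfold pz at hp
      rw [mem_filter, mem_Icc] at hp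
      rcases (Nat.dvd_prime h1).mp h3 with h4 | h4
      · rw [h4] at hp
        exact Nat.not_prime_one hp.2
      · omega
  have m3 : ∑ α ∈ RP z, ∑ α' ∈ RP z, Ym m z ((α : ℤ) - α') = ph z * (ph z * Y1 m z) := by
    have h : ∀ n ∈ RP z, ∑ α ∈ RP z, Ym m z ((n : ℤ) - α) = ph z * Y1 m z := by
      intro n hn
      refine hAV m z (n : ℤ) fun p hp hpn => ?_
      unfold RP at hn
      have h3 : p ∣ n := by exact_mod_cast hpn
      exact (mem_filter.mp hn).2 p hp h3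
    rw [sum_congr rfl h, sum_const, nsmul_eq_mul, hcard]
  have m1 : ∑ n ∈ Icc 1 N, ∑ n' ∈ Icc 1 N, th z n * th z n' * Ym m z ((n : ℤ) - n') ≤
      θ ^ 2 * Y1 m z + (N : ℝ) ^ 2 / ℓ ^ (A + 1) := by
    have h : ∑ n ∈ Icc 1 N, ∑ n' ∈ Icc 1 N, th z n * th z n' * (Ym m z ((n : ℤ) - n') - Y1 m z) =
        ∑ n ∈ Icc 1 N, ∑ n' ∈ Icc 1 N, th z n * th z n' * Ym m z ((n : ℤ) - n') - θ ^ 2 * Y1 m z := by
      rw [sq, hθ, sum_mul_sum, sum_mul, ← sum_sub_distrib]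
      refine sum_congr rfl fun n _ => ?_
      rw [sum_mul, ← sum_sub_distrib]
      refine sum_congr rfl fun n' _ => ?_
      ring
    linarith [hV]
  rw [m2, m3, hcard, hcφ] at hsec
  have e2 : 2 * c * (θ * (ph z * Y1 m z)) = 2 * (θ ^ 2 * Y1 m z) := by
    have : 2 * c * (θ * (ph z * Y1 m z)) = 2 * ((c * ph z) * θ * Y1 m z) := by ring
    rw [this, hcφ]; ring
  have e3 : c ^ 2 * (ph z * (ph z * Y1 m z)) = θ ^ 2 * Y1 m z := by
    have : c ^ 2 * (ph z * (ph z * Y1 m z)) = (c * ph z) ^ 2 * Y1 m z := by ring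
    rw [this, hcφ]
  rw [e2, e3, sum_congr rfl fun a ha => by rw [hsum a ha]] at hsec
  have hN2 : 0 ≤ (N : ℝ) ^ 2 := by positivity
  have hA0 : 0 < ℓ ^ A := by positivity
  set T : ℝ := X * (N : ℝ) ^ 2 / ℓ ^ A with hT
  have hT0 : 0 ≤ T := by positivity
  have b1 : X * ((N : ℝ) ^ 2 / ℓ ^ (A + 1)) ≤ T / 8 := by
    have : X * ((N : ℝ) ^ 2 / ℓ ^ (A + 1)) = X * (N : ℝ) ^ 2 / ℓ ^ A / ℓ := by
      rw [pow_succ ℓ A]
      field_simp
    rw [hT, this]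
    gcongr
  have b2 : X / L ^ (A + 5) * (θ + θ) ^ 2 ≤ T / 8 := by
    have h1 : (θ + θ) ^ 2 ≤ 4 * ((N : ℝ) * L) ^ 2 := by
      have : θ ≤ N * L := hθle.trans (by gcongr)
      nlinarith
    have h2 : ℓ ^ A ≤ L ^ A := pow_le_pow_left₀ hℓ0.le hℓL A
    have hL8' : 8 ≤ L := hℓ8.trans hℓL
    calc X / L ^ (A + 5) * (θ + θ) ^ 2 ≤ X / L ^ (A + 5) * (4 * ((N : ℝ) * L) ^ 2) := by gcongr
      _ = (X * (N : ℝ) ^ 2 / L ^ A) * (4 / L ^ 3) := by
          have e : L ^ (A + 5) = L ^ A * L ^ 3 * L ^ 2 := by ring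
          rw [e]
          field_simp
      _ ≤ (X * (N : ℝ) ^ 2 / ℓ ^ A) * (1 / 8) := by
          apply mul_le_mul
          · gcongr
          · rw [div_le_div_iff₀ (by positivity) (by norm_num)]
            nlinarith [pow_le_pow_left₀ (by norm_num : (0 : ℝ) ≤ 8) hL8' 3]
          · positivity
          · positivity
      _ = T / 8 := by rw [hT]; ring
  have hmain : ∑ a ∈ bx dd H, (∑ n ∈ Icc 1 N, th z n * sf z a (n : ℤ) - θ * C1 z a) ^ 2 ≤ T / 4 := by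
    have f1 := mul_le_mul_of_nonneg_left m1 hX0
    nlinarith [hsec, f1, b1, b2]
  -- the second part
  have hsq : ∀ a ∈ bx dd H, (C1 z a * (θ - N)) ^ 2 ≤ (N : ℝ) ^ 2 / ℓ ^ A / 8 := by
    intro a _
    obtain ⟨h1, h2, -⟩ := hLOW z a hz3
    have h3 : |C1 z a * (θ - N)| ≤ N / ℓ ^ (A + 5) := by
      rw [abs_mul, abs_of_nonneg h1]
      calc C1 z a * |θ - N| ≤ ℓ ^ (2 * m) * (N / ℓ ^ (A + 2 * m + 5)) := by
            apply mul_le_mul (h2.trans hVm) hθN (abs_nonneg _) (by positivity)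
        _ = N / ℓ ^ (A + 5) := by
            rw [show A + 2 * m + 5 = 2 * m + (A + 5) by ring, pow_add]
            field_simp
    calc (C1 z a * (θ - N)) ^ 2 = |C1 z a * (θ - N)| ^ 2 := (sq_abs _).symm
      _ ≤ (N / ℓ ^ (A + 5)) ^ 2 := pow_le_pow_left₀ (abs_nonneg _) h3 2
      _ = (N : ℝ) ^ 2 / ℓ ^ A / (ℓ ^ A * ℓ ^ 10) := by
          rw [div_pow]
          field_simp
          ring
      _ ≤ (N : ℝ) ^ 2 / ℓ ^ A / 8 := by
          apply div_le_div_of_nonneg_left (by positivity) (by norm_num)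
          have h4 : 1 ≤ ℓ ^ A := one_le_pow₀ hℓ1
          have h5 : ℓ ≤ ℓ ^ 10 := le_self_pow₀ hℓ1 (by norm_num)
          nlinarith
  have hrew : ∀ a ∈ bx dd H, (∑ n ∈ Icc 1 N, (th z n * sf z a (n : ℤ) - C1 z a)) ^ 2 ≤
      2 * (∑ n ∈ Icc 1 N, th z n * sf z a (n : ℤ) - θ * C1 z a) ^ 2 + 2 * (C1 z a * (θ - N)) ^ 2 := by
    intro a _
    have h1 : ∑ n ∈ Icc 1 N, (th z n * sf z a (n : ℤ) - C1 z a) =
        (∑ n ∈ Icc 1 N, th z n * sf z a (n : ℤ) - θ * C1 z a) + C1 z a * (θ - N) := by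
      rw [sum_sub_distrib, sum_const, Nat.card_Icc, Nat.add_sub_cancel, nsmul_eq_mul]
      ring
    rw [h1]
    nlinarith [sq_nonneg ((∑ n ∈ Icc 1 N, th z n * sf z a (n : ℤ) - θ * C1 z a) - C1 z a * (θ - N))]
  calc ∑ a ∈ bx dd H, (∑ n ∈ Icc 1 N, (th z n * sf z a (n : ℤ) - C1 z a)) ^ 2
      ≤ ∑ a ∈ bx dd H, (2 * (∑ n ∈ Icc 1 N, th z n * sf z a (n : ℤ) - θ * C1 z a) ^ 2 +
          2 * ((N : ℝ) ^ 2 / ℓ ^ A / 8)) := by
        refine sum_le_sum fun a ha => (hrew a ha).trans ?_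
        have := hsq a ha
        linarith
    _ = 2 * ∑ a ∈ bx dd H, (∑ n ∈ Icc 1 N, th z n * sf z a (n : ℤ) - θ * C1 z a) ^ 2 +
        X * (2 * ((N : ℝ) ^ 2 / ℓ ^ A / 8)) := by
        rw [sum_add_distrib, ← mul_sum, sum_const, nsmul_eq_mul]
    _ ≤ 2 * (T / 4) + T / 4 := by
        have : X * (2 * ((N : ℝ) ^ 2 / ℓ ^ A / 8)) = T / 4 := by rw [hT]; ring
        rw [this]
        gcongr
    _ ≤ T := by linarith

end Pool.Agent.H12P.SMP
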