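import Pool.Agent.H12P.Stm
import Pool.Agent.H373R2.T7.LamMaj

/-!
Project PA, stub SWT: Siegel-Walfisz for the weights `th`.
-/

set_option autoImplicit false

namespace Pool.Agent.H12P.SWT

open Finset Filter
open Pool.Agent.H373R2.T7 (lamz pz Vz)
open Pool.Agent.H13K

lemma ev (A : ℕ) : ∃ T : ℕ, ∀ N : ℕ, T ≤ N →
    6 * Real.log N ^ (A + 1) ≤ √(N : ℝ) ∧ 2 ≤ Real.log N := by
  have h1 : (fun x : ℝ => Real.log x ^ ((A + 1 : ℕ) : ℝ)) =o[atTop] fun x : ℝ => x ^ (1 / 2 : ℝ) :=
    isLittleO_log_rpow_rpow_atTop _ (by norm_num)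
  have h2 := h1.bound (show (0 : ℝ) < 1 / 6 by norm_num)
  have h3 : ∀ᶠ x : ℝ in atTop, 2 ≤ Real.log x := Real.tendsto_log_atTop.eventually_ge_atTop 2
  obtain ⟨T, hT⟩ := eventually_atTop.1 (tendsto_natCast_atTop_atTop.eventually (h2.and h3))
  refine ⟨T, fun N hN => ?_⟩
  obtain ⟨h4, h5⟩ := hT N hN
  refine ⟨?_, h5⟩
  rw [Real.rpow_natCast, ← Real.sqrt_eq_rpow, Real.norm_of_nonneg (by positivity),
    Real.norm_of_nonneg (Real.sqrt_nonneg _)] at h4
  linarith

lemma diff_nonneg (z n : ℕ) : 0 ≤ ArithmeticFunction.vonMangoldt n - th z n := by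
  unfold th
  split_ifs with h
  · rw [ArithmeticFunction.vonMangoldt_apply_prime h.1, sub_self]
  · rw [sub_zero]
    exact ArithmeticFunction.vonMangoldt_nonneg

lemma diff_le (z n N : ℕ) (h1 : 1 ≤ n) (h2 : n ≤ N) : ArithmeticFunction.vonMangoldt n - th z n ≤
    (if ¬ n.Prime then ArithmeticFunction.vonMangoldt n else 0) + (if n ≤ z then Real.log N else 0) := by
  have hN : 0 ≤ Real.log N := Real.log_natCast_nonneg N
  unfold th
  by_cases hp : n.Prime
  · rw [if_neg (not_not.2 hp), zero_add, ArithmeticFunction.vonMangoldt_apply_prime hp]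
    by_cases hz : z < n
    · rw [if_pos ⟨hp, hz⟩, sub_self]
      split_ifs
      · exact hN
      · exact le_rfl
    · rw [if_neg (fun h => hz h.2), sub_zero, if_pos (not_lt.1 hz)]
      exact Real.log_le_log (by exact_mod_cast h1) (by exact_mod_cast h2)
  · rw [if_pos hp, if_neg (fun h => hp h.1), sub_zero]
    have : 0 ≤ (if n ≤ z then Real.log (N : ℝ) else 0) := by
      split_ifs
      · exact hN
      · exact le_rfl
    linarith

lemma total (z N : ℕ) (hN : 1 ≤ N) :
    ∑ n ∈ Icc 1 N, (ArithmeticFunction.vonMangoldt n - th z n) ≤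
      2 * √(N : ℝ) * Real.log N + z * Real.log N := by
  have hN0 : 0 ≤ Real.log N := Real.log_natCast_nonneg N
  have h1 : ∑ n ∈ Icc 1 N, (ArithmeticFunction.vonMangoldt n - th z n) ≤
      ∑ n ∈ Icc 1 N, ((if ¬ n.Prime then ArithmeticFunction.vonMangoldt n else 0) +
        (if n ≤ z then Real.log N else 0)) := by
    apply Finset.sum_le_sum
    intro n hn
    rw [Finset.mem_Icc] at hn
    exact diff_le z n N hn.1 hn.2
  rw [Finset.sum_add_distrib] at h1
  have h2 : ∑ n ∈ Icc 1 N, (if ¬ n.Prime then ArithmeticFunction.vonMangoldt n else 0) =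
      Chebyshev.psi N - Chebyshev.theta N := by
    rw [Chebyshev.psi_sub_theta_eq_sum_not_prime, Nat.floor_natCast, Finset.sum_filter]
    apply Finset.sum_congr _ (fun _ _ => rfl)
    ext n
    simp only [Finset.mem_Icc, Finset.mem_Ioc]
    omega
  have h3 := Chebyshev.psi_sub_theta_le (x := (N : ℝ)) (by exact_mod_cast hN)
  have h4 : ∑ n ∈ Icc 1 N, (if n ≤ z then Real.log N else 0) ≤ z * Real.log N := by
    rw [← Finset.sum_filter, Finset.sum_const, nsmul_eq_mul]
    apply mul_le_mul_of_nonneg_right _ hN0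
    have : ((Icc 1 N).filter (fun n => n ≤ z)).card ≤ z := by
      calc ((Icc 1 N).filter (fun n => n ≤ z)).card ≤ (Icc 1 z).card := by
            apply Finset.card_le_card
            intro n hn
            rw [Finset.mem_filter, Finset.mem_Icc] at hn
            rw [Finset.mem_Icc]
            exact ⟨hn.1.1, hn.2⟩
        _ = z := by simp
    exact_mod_cast this
  rw [h2] at h1
  linarith

theorem t : S_SWT := by
  intro E D A
  obtain ⟨N0, hN0⟩ := Pool.Agent.H373R2.T7.lam_ap D (A + 1)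
  obtain ⟨T, hT⟩ := ev A
  refine ⟨2 * E + 2, ⌈Real.exp (max N0 T + 1 : ℕ)⌉₊, fun H hH z hz N hN e he1 he2 c hc => ?_⟩
  obtain ⟨L, hL⟩ : ∃ L, L = Real.log H := ⟨_, rfl⟩
  rw [← hL] at hz hN
  have hHpos : (0 : ℝ) < H := by
    have h1 : Real.exp (max N0 T + 1 : ℕ) ≤ H := (Nat.le_ceil _).trans (by exact_mod_cast hH)
    exact (Real.exp_pos _).trans_le h1
  have hL1 : ((max N0 T + 1 : ℕ) : ℝ) ≤ L := by
    rw [hL, Real.le_log_iff_exp_le hHpos]
    exact (Nat.le_ceil _).trans (by exact_mod_cast hH)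
  have hL2 : (1 : ℝ) ≤ L := by
    refine le_trans ?_ hL1
    exact_mod_cast Nat.le_add_left 1 _
  have hNL : L ≤ N := by
    calc L = L ^ 1 := (pow_one L).symm
      _ ≤ L ^ (2 * E + 2) := pow_le_pow_right₀ hL2 (by omega)
      _ ≤ N := hN
  have hNT : max N0 T + 1 ≤ N := by exact_mod_cast hL1.trans hNL
  have hNN0 : N0 ≤ N := le_trans (le_trans (le_max_left _ _) (Nat.le_succ _)) hNT
  have hNTT : T ≤ N := le_trans (le_trans (le_max_right _ _) (Nat.le_succ _)) hNT
  have hN1 : 1 ≤ N := le_trans (Nat.le_add_left 1 _) hNT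
  have h1 := hN0 N hNN0 e he1 he2 c N le_rfl
  rw [if_pos hc] at h1
  obtain ⟨h2, h3⟩ := hT N hNTT
  have hN' : (0 : ℝ) < N := by exact_mod_cast hN1
  -- the small primes and the prime powers
  have hzN : (z : ℝ) ≤ √(N : ℝ) := by
    refine hz.trans (Real.le_sqrt_of_sq_le ?_)
    calc (L ^ E) ^ 2 = L ^ (2 * E) := by rw [← pow_mul, mul_comm]
      _ ≤ L ^ (2 * E + 2) := pow_le_pow_right₀ hL2 (by omega)
      _ ≤ N := hN
  have h4 := total z N hN1
  have h5 : ∑ n ∈ (Icc 1 N).filter (fun n => n ≡ c [MOD e]),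
      (ArithmeticFunction.vonMangoldt n - th z n) ≤ 3 * √(N : ℝ) * Real.log N := by
    refine le_trans (Finset.sum_le_sum_of_subset_of_nonneg (Finset.filter_subset _ _)
      (fun n _ _ => diff_nonneg z n)) (h4.trans ?_)
    have : (z : ℝ) * Real.log N ≤ √(N : ℝ) * Real.log N :=
      mul_le_mul_of_nonneg_right hzN (by linarith)
    linarith
  have h6 : 0 ≤ ∑ n ∈ (Icc 1 N).filter (fun n => n ≡ c [MOD e]),
      (ArithmeticFunction.vonMangoldt n - th z n) := Finset.sum_nonneg fun n _ => diff_nonneg z n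
  rw [Finset.sum_sub_distrib] at h5 h6
  -- the final estimate
  have hlA : 0 < Real.log N ^ A := by
    have : 0 < Real.log N := by linarith
    positivity
  have h7 : 3 * √(N : ℝ) * Real.log N ≤ N / Real.log N ^ A / 2 := by
    rw [div_div, le_div_iff₀ (by positivity)]
    have h8 : √(N : ℝ) * √(N : ℝ) = N := Real.mul_self_sqrt hN'.le
    calc 3 * √(N : ℝ) * Real.log N * (Real.log N ^ A * 2) = √(N : ℝ) * (6 * Real.log N ^ (A + 1)) := by
          rw [pow_succ]
          ring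
      _ ≤ √(N : ℝ) * √(N : ℝ) := mul_le_mul_of_nonneg_left h2 (Real.sqrt_nonneg _)
      _ = N := h8
  have h8 : (N : ℝ) / Real.log N ^ (A + 1) ≤ N / Real.log N ^ A / 2 := by
    rw [div_div, pow_succ]
    apply div_le_div_of_nonneg_left hN'.le (by positivity)
    exact mul_le_mul_of_nonneg_left h3 hlA.le
  rw [abs_le] at h1 ⊢
  constructor
  · linarith [h1.1]
  · linarith [h1.2]

end Pool.Agent.H12P.SWT
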