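import Pool.Agent.H13K.T1
import Pool.Agent.H12P.Stm

/-!
Project PA (helper12), stub T1P: primes at the values of the systems against the sieve model, arguments in an arbitrary set
(adapted from `H13K/T1.lean` by helper39).
-/

set_option autoImplicit false

namespace Pool.Agent.H12P.T1P

open Finset Filter
open Pool.Agent.H373R2.T7 (lamz pz Vz lamz_nonneg Vz_pos)
open Pool.Agent.H13V (fz)
open Pool.Agent.H13K Pool.Agent.H13K.T1

theorem t (hVZ : S_VZ) (hW : S_WTF) (hK : S_KER) (hT : S_TEN) : S_T1P := by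
  classical
  intro m dd U hdd
  obtain ⟨U', hU'⟩ : ∃ U' : ℕ, U' = U + 2 * m + 1 := ⟨_, rfl⟩
  choose E1 hE1 using fun i => hK (dd i) U' (hdd i)
  refine ⟨univ.sup E1 + 1, fun E hE => ?_⟩
  have hEi : ∀ i, E1 i ≤ E := fun i => (le_sup (f := E1) (mem_univ i)).trans (by omega)
  choose B H0 hB using fun i => hE1 i E (hEi i)
  obtain ⟨C, hC, hVZ⟩ := hVZ
  set D : ℕ := ∑ i, (dd i + 1) with hD
  -- large `H`
  have hev : ∀ᶠ L : ℝ in atTop, 2 ≤ L ∧ 2 * (C * (E * Real.log L)) ≤ L ∧ 2 * m * 16 ^ D ≤ L := by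
    have h1 := Real.isLittleO_log_id_atTop.bound (show (0 : ℝ) < 1 / (2 * C * E + 1) by positivity)
    filter_upwards [h1, eventually_ge_atTop 2, eventually_ge_atTop (2 * m * 16 ^ D : ℝ)] with L h2 h3 h4
    refine ⟨h3, ?_, h4⟩
    rw [Real.norm_of_nonneg (Real.log_nonneg (by linarith)), id, Real.norm_of_nonneg (by linarith)] at h2
    have h5 : 0 ≤ Real.log L := Real.log_nonneg (by linarith)
    calc 2 * (C * (E * Real.log L)) ≤ (2 * C * E + 1) * Real.log L := by nlinarith
      _ ≤ (2 * C * E + 1) * (1 / (2 * C * E + 1) * L) := mul_le_mul_of_nonneg_left h2 (by positivity)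
      _ = L := by field_simp
  obtain ⟨L0, hL0⟩ := eventually_atTop.1 hev
  obtain ⟨H1, hH1⟩ : ∃ H1 : ℕ, ∀ H : ℕ, H1 ≤ H → L0 ≤ Real.log H := by
    have h1 := (Real.tendsto_log_atTop.comp tendsto_natCast_atTop_atTop).eventually_ge_atTop L0
    exact eventually_atTop.1 h1
  refine ⟨univ.sup B, univ.sup H0 + H1 + 2, fun H hH K hK1 hK2 T hTK => ?_⟩
  have hHi : ∀ i, H0 i ≤ H := fun i => (le_sup (f := H0) (mem_univ i)).trans (by omega)
  obtain ⟨hL2, hLV, hLm⟩ := hL0 _ (hH1 H (by omega))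
  set L : ℝ := Real.log H with hL
  have hL1 : 1 ≤ L := by linarith
  have hLp : 0 < L := by linarith
  have hH1' : (1 : ℝ) ≤ H := by
    have : 1 ≤ H := by omega
    exact_mod_cast this
  have hBi : ∀ i, L ^ B i ≤ L ^ univ.sup B := fun i => pow_le_pow_right₀ hL1 (le_sup (f := B) (mem_univ i))
  set z : ℕ := ⌊L ^ E⌋₊ with hz
  -- the sieve model
  have hz2 : 2 ≤ z := by
    apply Nat.le_floor
    push_cast
    calc (2 : ℝ) ≤ L := hL2
      _ = L ^ 1 := (pow_one L).symm
      _ ≤ L ^ E := pow_le_pow_right₀ hL1 (by omega)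
  have hzL : Real.log z ≤ E * Real.log L := by
    rw [← Real.log_pow]
    apply Real.log_le_log (by positivity)
    exact Nat.floor_le (by positivity)
  have hV : (Vz z)⁻¹ * 2 ≤ L := by
    have h1 := hVZ z hz2
    have h2 : C * Real.log z ≤ C * (E * Real.log L) := mul_le_mul_of_nonneg_left hzL (by linarith)
    linarith
  have hVp : 0 < (Vz z)⁻¹ := inv_pos.2 (Vz_pos z)
  have hnu : ∀ n, |nu z n| ≤ L := by
    intro n
    unfold nu
    split_ifs with hn
    · have h1 : (0.6931471803 : ℝ) ≤ Real.log n := by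
        refine Real.log_two_gt_d9.le.trans (Real.log_le_log (by norm_num) (by exact_mod_cast hn))
      have h2 : lamz z n ≤ (Vz z)⁻¹ := by
        unfold lamz
        split_ifs
        · exact le_rfl
        · exact hVp.le
      rw [abs_of_nonneg (div_nonneg (lamz_nonneg z n) (by linarith)), div_le_iff₀ (by linarith)]
      nlinarith
    · rw [abs_zero]
      exact hLp.le
  have hpr : ∀ n, |pr n| ≤ L := by
    intro n
    unfold pr
    split_ifs
    · rw [abs_one]
      exact hL1
    · rw [abs_zero]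
      exact hLp.le
  -- the parameters
  have hex := fun i => hB i H (hHi i) K ((hBi i).trans hK1)
    ((mul_le_mul_of_nonneg_left (hBi i) (Nat.cast_nonneg K)).trans hK2)
  choose R M hM hxR h8 h16 hker using hex
  have hMN : ∀ i, M i ≤ 2 * R i + 1 := by
    intro i
    have h1 : 1 ≤ H := by omega
    calc M i ≤ 8 * H * M i := by nlinarith [hM i]
      _ ≤ 2 * R i + 1 := h8 i
  set x : Fin m → ℕ := fun i => (dd i + 1) * H * K ^ dd i with hx
  have key := hT m (fun i => Fin (dd i + 1) → ℤ) (fun i => Fintype.piFinset fun _ => cs (R i))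
    (fun i a => ∏ l, wt (R i) (M i) (a l)) (fun i a k => pR (R i) (x i) pr (Fv a k))
    (fun i a k => pR (R i) (x i) (nu z) (Fv a k)) T L ((K : ℝ) ^ 2 / L ^ U')
    (fun i => (32 * H : ℝ) ^ (dd i + 1)) hL1 (by positivity) (fun i => by positivity)
    (fun i a _ => prod_nonneg fun l _ => (hW (R i) (M i) (hM i) (hMN i)).1 _)
    (fun i => by
      have h1 := (hW (R i) (M i) (hM i) (hMN i)).2.2.2.2.2.2.2.1
      rw [← Finset.prod_univ_sum (fun _ : Fin (dd i + 1) => cs (R i)) (fun _ c => wt (R i) (M i) c), prod_const,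
        card_univ, Fintype.card_fin, h1]
      have hMp : (0 : ℝ) < M i := by exact_mod_cast (hM i)
      apply pow_le_pow_left₀ (by positivity)
      rw [div_le_iff₀ hMp]
      have h2 : ((2 * R i + 1 : ℕ) : ℝ) ≤ ((16 * H * M i : ℕ) : ℝ) := by exact_mod_cast h16 i
      push_cast at h2
      linarith)
    (fun i a _ k _ => ⟨pR_abs hLp.le hpr _, pR_abs hLp.le hnu _⟩)
    (fun i => by
      have h1 := hker i pr (Or.inl rfl)
      simp_rw [ker_eq] at h1
      refine ((sum_le_sum_of_subset_of_nonneg hTK (fun _ _ _ => sum_nonneg fun _ _ => abs_nonneg _)).trans' (sum_le_sum fun _ _ =>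
        sum_le_sum_of_subset_of_nonneg hTK (fun _ _ _ => abs_nonneg _))).trans (h1.trans ?_)
      rw [div_mul_eq_mul_div]
      apply div_le_div_of_nonneg_right _ (by positivity)
      apply mul_le_mul_of_nonneg_left _ (by positivity)
      apply pow_le_pow_left₀ (by positivity)
      linarith)
    (fun i => by
      have h1 := hker i (nu z) (Or.inr rfl)
      simp_rw [ker_eq] at h1
      refine ((sum_le_sum_of_subset_of_nonneg hTK (fun _ _ _ => sum_nonneg fun _ _ => abs_nonneg _)).trans' (sum_le_sum fun _ _ =>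
        sum_le_sum_of_subset_of_nonneg hTK (fun _ _ _ => abs_nonneg _))).trans (h1.trans ?_)
      rw [div_mul_eq_mul_div]
      apply div_le_div_of_nonneg_right _ (by positivity)
      apply mul_le_mul_of_nonneg_left _ (by positivity)
      apply pow_le_pow_left₀ (by positivity)
      linarith)
  -- the box
  have hsub : bx dd H ⊆ Fintype.piFinset (fun i : Fin m => Fintype.piFinset fun _ : Fin (dd i + 1) => cs (R i)) := by
    unfold bx
    apply Fintype.piFinset_subset
    intro i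
    by_cases hK0 : K = 0
    · exfalso
      rw [hK0, Nat.cast_zero] at hK1
      have : 0 < L ^ univ.sup B := by positivity
      linarith
    apply Fintype.piFinset_subset
    intro l
    unfold cs
    apply Icc_subset_Icc
    · have h1 : H ≤ R i := by
        refine le_trans ?_ (hxR i)
        have h2 : 1 ≤ K ^ dd i := Nat.one_le_pow _ _ (by omega)
        calc H = 1 * H * 1 := by ring
          _ ≤ (dd i + 1) * H * K ^ dd i := Nat.mul_le_mul (Nat.mul_le_mul_right _ (by omega)) h2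
      have : (H : ℤ) ≤ R i := by exact_mod_cast h1
      linarith
    · have h1 : H ≤ R i := by
        refine le_trans ?_ (hxR i)
        have h2 : 1 ≤ K ^ dd i := Nat.one_le_pow _ _ (by omega)
        calc H = 1 * H * 1 := by ring
          _ ≤ (dd i + 1) * H * K ^ dd i := Nat.mul_le_mul (Nat.mul_le_mul_right _ (by omega)) h2
      exact_mod_cast h1
  have hstep : ∑ a ∈ bx dd H, (∑ n ∈ T, (∏ i, pr (Fv (a i) (n : ℤ)).natAbs -
      ∏ i, nu z (Fv (a i) (n : ℤ)).natAbs)) ^ 2 ≤
      ∑ a ∈ Fintype.piFinset (fun i : Fin m => Fintype.piFinset fun _ : Fin (dd i + 1) => cs (R i)),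
        (∏ i, ∏ l, wt (R i) (M i) (a i l)) * (∑ k ∈ T, (∏ i, pR (R i) (x i) pr (Fv (a i) k) -
          ∏ i, pR (R i) (x i) (nu z) (Fv (a i) k))) ^ 2 := by
    refine le_trans (sum_le_sum fun a ha => ?_) (sum_le_sum_of_subset_of_nonneg hsub fun a _ _ => ?_)
    · have ha' : ∀ i l, a i l ∈ Icc (-(H : ℤ)) H := by
        intro i l
        unfold bx at ha
        exact Fintype.mem_piFinset.mp (Fintype.mem_piFinset.mp ha i) l
      have h1 : ∀ k ∈ T, ∏ i, pR (R i) (x i) pr (Fv (a i) k) = ∏ i, pr (Fv (a i) (k : ℤ)).natAbs := by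
        intro k hk
        exact prod_congr rfl fun i _ => pR_small (Fv_abs (ha' i) (hTK hk)) (hxR i)
      have h2 : ∀ k ∈ T, ∏ i, pR (R i) (x i) (nu z) (Fv (a i) k) =
          ∏ i, nu z (Fv (a i) (k : ℤ)).natAbs := by
        intro k hk
        exact prod_congr rfl fun i _ => pR_small (Fv_abs (ha' i) (hTK hk)) (hxR i)
      have h12 : ∑ k ∈ T, (∏ i, pR (R i) (x i) pr (Fv (a i) k) -
          ∏ i, pR (R i) (x i) (nu z) (Fv (a i) k)) = ∑ k ∈ T, (∏ i, pr (Fv (a i) (k : ℤ)).natAbs -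
          ∏ i, nu z (Fv (a i) (k : ℤ)).natAbs) :=
        sum_congr rfl fun k hk => by rw [h1 k hk, h2 k hk]
      rw [h12]
      refine le_mul_of_one_le_left (sq_nonneg _) ?_
      have h3 : ∀ i l, 1 ≤ wt (R i) (M i) (a i l) := by
        intro i l
        apply (hW (R i) (M i) (hM i) (hMN i)).2.2.2.1
        have h4 := ha' i l
        rw [mem_Icc] at h4
        have h5 : |a i l| ≤ H := abs_le.mpr h4
        have h6 : ((8 * H * M i : ℕ) : ℤ) ≤ ((2 * R i + 1 : ℕ) : ℤ) := by exact_mod_cast h8 i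
        push_cast at h6
        calc 8 * |a i l| * (M i : ℤ) ≤ 8 * (H : ℤ) * M i := by
              apply mul_le_mul_of_nonneg_right _ (Int.natCast_nonneg _)
              linarith
          _ ≤ 2 * R i + 1 := h6
      calc (1 : ℝ) = ∏ _i : Fin m, (1 : ℝ) := by simp
        _ ≤ ∏ i, ∏ l, wt (R i) (M i) (a i l) := by
          apply prod_le_prod (fun _ _ => zero_le_one)
          intro i _
          calc (1 : ℝ) = ∏ _l : Fin (dd i + 1), (1 : ℝ) := by simp
            _ ≤ ∏ l, wt (R i) (M i) (a i l) := prod_le_prod (fun _ _ => zero_le_one) fun l _ => h3 i l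
    · exact mul_nonneg (prod_nonneg fun i _ => prod_nonneg fun l _ => (hW (R i) (M i) (hM i) (hMN i)).1 _)
        (sq_nonneg _)
  refine (hstep.trans key).trans ?_
  -- the number of elements of the box
  have hcard : ∏ i : Fin m, (32 * H : ℝ) ^ (dd i + 1) ≤ 16 ^ D * ((bx dd H).card : ℝ) := by
    unfold bx
    rw [Fintype.card_piFinset]
    simp only [Fintype.card_piFinset, prod_const, card_univ, Fintype.card_fin]
    push_cast
    rw [hD, ← prod_pow_eq_pow_sum, ← prod_mul_distrib]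
    apply prod_le_prod (fun i _ => by positivity)
    intro i _
    rw [← mul_pow]
    apply pow_le_pow_left₀ (by positivity)
    have h1 : ((Icc (-(H : ℤ)) H).card : ℝ) = 2 * H + 1 := by
      rw [Int.card_Icc]
      have : ((H : ℤ) + 1 - -(H : ℤ)).toNat = 2 * H + 1 := by omega
      rw [this]
      push_cast
      ring
    rw [h1]
    linarith
  have hb0 : (0 : ℝ) ≤ ((bx dd H).card : ℝ) := Nat.cast_nonneg _
  have hfin : 2 * m * L ^ (2 * m) * ((K : ℝ) ^ 2 / L ^ U') * 16 ^ D ≤ (K : ℝ) ^ 2 / L ^ U := by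
    rw [le_div_iff₀ (by positivity)]
    have e1 : 2 * m * L ^ (2 * m) * ((K : ℝ) ^ 2 / L ^ U') * 16 ^ D * L ^ U =
        (2 * m * 16 ^ D) * (K : ℝ) ^ 2 * (L ^ (2 * m) * L ^ U) / L ^ U' := by
      ring
    rw [e1, div_le_iff₀ (by positivity), hU']
    have e2 : L ^ (U + 2 * m + 1) = L * (L ^ (2 * m) * L ^ U) := by
      rw [pow_add, pow_add, pow_one]
      ring
    rw [e2]
    have h3 : (2 * m * 16 ^ D) * ((K : ℝ) ^ 2 * (L ^ (2 * m) * L ^ U)) ≤
        L * ((K : ℝ) ^ 2 * (L ^ (2 * m) * L ^ U)) :=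
      mul_le_mul_of_nonneg_right hLm (by positivity)
    linarith
  calc 2 * m * L ^ (2 * m) * ((K : ℝ) ^ 2 / L ^ U') * ∏ i : Fin m, (32 * H : ℝ) ^ (dd i + 1)
      ≤ 2 * m * L ^ (2 * m) * ((K : ℝ) ^ 2 / L ^ U') * (16 ^ D * ((bx dd H).card : ℝ)) :=
        mul_le_mul_of_nonneg_left hcard (by positivity)
    _ = 2 * m * L ^ (2 * m) * ((K : ℝ) ^ 2 / L ^ U') * 16 ^ D * ((bx dd H).card : ℝ) := by ring
    _ ≤ (K : ℝ) ^ 2 / L ^ U * ((bx dd H).card : ℝ) := mul_le_mul_of_nonneg_right hfin hb0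
    _ = ((bx dd H).card : ℝ) * (K : ℝ) ^ 2 / L ^ U := by ring

end Pool.Agent.H12P.T1P
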