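import Pool.Agent.H12P.Stm
import Pool.Agent.H12P.SMP
import Pool.Agent.H13K.T2

/-!
# Project PA (helper12), stub T2P (helper95)
-/

set_option autoImplicit false

namespace Pool.Agent.H12P.T2P

open Finset Filter
open Pool.Agent.H373R2.T7 (lamz pz Vz Vz_pos)
open Pool.Agent.H13K
open Pool.Agent.H13K.T2 (abel_bd max_bd sf_bd)
open Pool.Agent.H12P.SMP (th_nonneg th_le)

lemma lw_nonneg (n : ℕ) : 0 ≤ lw n := by
  unfold lw
  have h : (1 : ℝ) ≤ max (n : ℝ) 2 := le_trans (by norm_num) (le_max_right _ _)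
  have := Real.log_nonneg h
  positivity

lemma lw_le (n : ℕ) : lw n ≤ 2 := by
  unfold lw
  have h1 : Real.log 2 ≤ Real.log (max (n : ℝ) 2) := Real.log_le_log (by norm_num) (le_max_right _ _)
  have h2 := Real.log_two_gt_d9
  rw [div_le_iff₀ (by linarith)]
  linarith

lemma lw_anti (n : ℕ) : lw (n + 1) ≤ lw n := by
  unfold lw
  have h0 : (0 : ℝ) < max (n : ℝ) 2 := lt_of_lt_of_le (by norm_num) (le_max_right _ _)
  have h1 : max (n : ℝ) 2 ≤ max ((n + 1 : ℕ) : ℝ) 2 := max_le_max (by push_cast; linarith) le_rfl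
  have h2 : 0 < Real.log (max (n : ℝ) 2) :=
    Real.log_pos (lt_of_lt_of_le (by norm_num) (le_max_right _ _))
  exact one_div_le_one_div_of_le h2 (Real.log_le_log h0 h1)

lemma lw_var (K : ℕ) : ∑ n ∈ Ico 1 K, |lw (n + 1) - lw n| ≤ 2 := by
  have h1 : ∀ n ∈ Ico 1 K, |lw (n + 1) - lw n| = lw n - lw (n + 1) := by
    intro n _
    rw [abs_sub_comm, abs_of_nonneg (by linarith [lw_anti n])]
  rw [sum_congr rfl h1]
  rcases Nat.lt_or_ge K 1 with h | h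
  · have : Ico 1 K = ∅ := Ico_eq_empty (by omega)
    rw [this, sum_empty]
    norm_num
  · have h2 : ∑ n ∈ Ico 1 K, (lw n - lw (n + 1)) = lw 1 - lw K := by
      have := Finset.sum_Ico_sub lw h
      have h3 : ∑ n ∈ Ico 1 K, (lw n - lw (n + 1)) = -∑ n ∈ Ico 1 K, (lw (n + 1) - lw n) := by
        rw [← sum_neg_distrib]
        exact sum_congr rfl fun _ _ => by ring
      rw [h3, this]
      ring
    rw [h2]
    have := lw_le 1
    have := lw_nonneg K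
    linarith

/-- powers of the logarithm are small -/
lemma log_pow_le (A : ℕ) : ∃ x0 : ℝ, 1 ≤ x0 ∧ ∀ x : ℝ, x0 ≤ x → Real.log x ^ A ≤ √x := by
  have h2 : (fun x : ℝ => Real.log x ^ (2 * A)) =o[atTop] id := Real.isLittleO_pow_log_id_atTop
  obtain ⟨x0, hx0⟩ := eventually_atTop.mp (h2.bound (show (0 : ℝ) < 1 by norm_num))
  refine ⟨max 1 x0, le_max_left _ _, fun x hx => ?_⟩
  have hx1 : 1 ≤ x := (le_max_left _ _).trans hx
  have h := hx0 x ((le_max_right _ _).trans hx)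
  have hl : 0 ≤ Real.log x := Real.log_nonneg hx1
  rw [Real.norm_of_nonneg (by positivity), id, Real.norm_of_nonneg (by linarith), one_mul] at h
  apply Real.le_sqrt_of_sq_le
  calc (Real.log x ^ A) ^ 2 = Real.log x ^ (2 * A) := by rw [← pow_mul, mul_comm]
    _ ≤ x := h

/-- one array -/
lemma one_array (W g : ℕ → ℝ) (K D : ℕ) (hD : 1 ≤ D) (CW Λ : ℝ) (hΛ : 0 ≤ Λ)
    (hW : |W K| ≤ CW) (hV : ∑ n ∈ Ico 1 K, |W (n + 1) - W n| ≤ CW)
    (hg : ∀ n ≤ K, |g n| ≤ Λ) :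
    (∑ n ∈ Icc 1 K, W n * g n) ^ 2 ≤
      8 * CW ^ 2 * (∑ j ∈ Icc 1 (K / D), (∑ n ∈ Icc 1 (D * j), g n) ^ 2 + (D * Λ) ^ 2) := by
  set g' : ℕ → ℝ := fun n => if n ≤ K then g n else 0 with hg'
  have hg'b : ∀ n, |g' n| ≤ Λ := by
    intro n
    simp only [hg']
    split_ifs with h
    · exact hg n h
    · simpa using hΛ
  have hs : ∀ N ≤ K, ∑ n ∈ Icc 1 N, g' n = ∑ n ∈ Icc 1 N, g n := by
    intro N hN
    refine sum_congr rfl fun n hn => ?_
    simp only [hg']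
    rw [if_pos ((mem_Icc.mp hn).2.trans hN)]
  have hs2 : ∑ n ∈ Icc 1 K, W n * g n = ∑ n ∈ Icc 1 K, W n * g' n := by
    refine sum_congr rfl fun n hn => ?_
    simp only [hg']
    rw [if_pos (mem_Icc.mp hn).2]
  have hmax := max_bd g' K D hD Λ hΛ hg'b
  set S := ∑ j ∈ Icc 1 (K / D), (∑ n ∈ Icc 1 (D * j), g' n) ^ 2 with hS
  have hSS : S = ∑ j ∈ Icc 1 (K / D), (∑ n ∈ Icc 1 (D * j), g n) ^ 2 := by
    rw [hS]
    refine sum_congr rfl fun j hj => ?_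
    rw [hs _ (le_trans (Nat.mul_le_mul_left D (mem_Icc.1 hj).2) (Nat.mul_div_le K D))]
  rw [← hSS, hs2]
  have hS0 : 0 ≤ S := sum_nonneg fun _ _ => sq_nonneg _
  have hM0 : 0 ≤ 2 * S + 2 * (D * Λ) ^ 2 := by positivity
  have h1 := abel_bd W g' K CW (Real.sqrt (2 * S + 2 * (D * Λ) ^ 2)) hW hV (Real.sqrt_nonneg _)
    (fun N hN => by
      rw [← Real.sqrt_sq_eq_abs]
      exact Real.sqrt_le_sqrt (hmax N hN))
  calc _ = |∑ n ∈ Icc 1 K, W n * g' n| ^ 2 := (sq_abs _).symm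
    _ ≤ (2 * CW * Real.sqrt (2 * S + 2 * (D * Λ) ^ 2)) ^ 2 := pow_le_pow_left₀ (abs_nonneg _) h1 2
    _ = 4 * CW ^ 2 * (2 * S + 2 * (D * Λ) ^ 2) := by
        rw [mul_pow, Real.sq_sqrt hM0]; ring
    _ = _ := by ring

theorem t (hVZ : S_VZ) (hSM : S_SMP) (hTV : S_TVP) (hLOW : S_LOWCP) : S_T2P := by
  obtain ⟨C', hC', hVZ⟩ := hVZ
  intro m dd E A hdd
  obtain ⟨C, hC, hTV⟩ := hTV m dd
  obtain ⟨c0, D0, -, hLOW⟩ := hLOW m dd
  set A1 : ℕ := A + 2 * m + 5 with hA1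
  set A' : ℕ := A + A1 + 2 with hA'
  obtain ⟨B1, H1, hSM⟩ := hSM m dd E A' hdd
  obtain ⟨x0, hx01, hx0⟩ := log_pow_le A1
  set Q : ℝ := 128 * C ^ 2 * (2 ^ (A' + 1) + 8) with hQ
  obtain ⟨H2, hH2⟩ := SMP.log_ge (Real.exp (C' + 8 + Q) + x0 + 3)
  refine ⟨2 * B1 + E + 1, max H1 H2, ?_⟩
  intro H hH z hz3 hz K hK hKH
  have hSM' := hSM H (le_trans (le_max_left _ _) hH) z hz3 hz
  have hL := hH2 H (le_trans (le_max_right _ _) hH)
  have hQ0 : 0 ≤ Q := by positivity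
  have hexp1 : 1 ≤ Real.exp (C' + 8 + Q) := Real.one_le_exp (by linarith)
  set L : ℝ := Real.log H with hLdef
  have hL1 : 1 ≤ L := by linarith
  have hL0 : 0 < L := by linarith
  have hpw : ∀ n : ℕ, n ≤ 2 * B1 + E + 1 → L ^ n ≤ K := fun n hn =>
    (pow_le_pow_right₀ hL1 hn).trans hK
  have hKL : L ≤ K := by simpa using hpw 1 (by omega)
  have hK0 : (0 : ℝ) < K := by linarith
  have hK1 : 1 ≤ K := by exact_mod_cast (by linarith : (1 : ℝ) ≤ K)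
  set ℓ : ℝ := Real.log K with hℓ
  have hℓL : ℓ ≤ L := Real.log_le_log hK0 (by exact_mod_cast hKH)
  have hℓC : C' + 8 + Q ≤ ℓ := by
    rw [← Real.log_exp (C' + 8 + Q)]
    exact Real.log_le_log (Real.exp_pos _) (by linarith)
  have hℓ8 : 8 ≤ ℓ := by linarith
  have hℓ0 : 0 < ℓ := by linarith
  have hℓ1 : 1 ≤ ℓ := by linarith
  have hℓA : ℓ ^ A1 ≤ √K := hx0 K (by linarith)
  have hsK : √(K : ℝ) * √K = K := Real.mul_self_sqrt hK0.le
  have hsK1 : 0 < √(K : ℝ) := Real.sqrt_pos.mpr hK0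
  have hH3 : 3 ≤ H := by
    have h1 : L ≤ H := by
      have := Real.log_le_sub_one_of_pos (show (0 : ℝ) < H from lt_of_lt_of_le hK0 (by exact_mod_cast hKH))
      linarith
    have : (3 : ℝ) ≤ H := by linarith
    exact_mod_cast this
  -- the sieve factor
  set V : ℝ := (Vz z)⁻¹ with hVdef
  have hV0 : 0 < V := inv_pos.mpr (Vz_pos z)
  have hVℓ : V ≤ ℓ ^ 2 := by
    have h1 := hVZ z (by omega)
    have h2 : Real.log z ≤ ℓ := by
      apply Real.log_le_log (by exact_mod_cast (by omega : 0 < z))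
      exact hz.trans (hpw E (by omega))
    calc V ≤ C' * Real.log z := h1
      _ ≤ ℓ * ℓ := by
          apply mul_le_mul (by linarith) h2 _ (by linarith)
          exact Real.log_nonneg (by exact_mod_cast (by omega : 1 ≤ z))
      _ = ℓ ^ 2 := by ring
  have hVm : V ^ m ≤ ℓ ^ (2 * m) := by
    rw [pow_mul]
    exact pow_le_pow_left₀ hV0.le hVℓ m
  set Λ : ℝ := ℓ ^ (2 * m + 1) with hΛ
  have hΛ0 : 0 ≤ Λ := by positivity
  have hg : ∀ a : (∀ i : Fin m, Fin (dd i + 1) → ℤ), ∀ n ≤ K, |th z n * sf z a (n : ℤ) - C1 z a| ≤ Λ := by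
    intro a n hn
    obtain ⟨h1, h2⟩ := sf_bd z a (n : ℤ)
    obtain ⟨h3, h4, -⟩ := hLOW z a hz3
    have h5 := th_nonneg z n
    have h6 := th_le z n K hn hK1
    have h7 : th z n * sf z a (n : ℤ) ≤ ℓ * ℓ ^ (2 * m) :=
      mul_le_mul h6 (h2.trans hVm) h1 hℓ0.le
    have h8 : ℓ * ℓ ^ (2 * m) = Λ := by rw [hΛ, pow_succ]; ring
    have h9 : C1 z a ≤ Λ := by
      refine (h4.trans hVm).trans ?_
      rw [hΛ]
      exact pow_le_pow_right₀ hℓ1 (by omega)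
    have h10 : 0 ≤ th z n * sf z a (n : ℤ) := mul_nonneg h5 h1
    rw [abs_le]
    constructor <;> linarith
  -- the step
  have hℓA0 : 0 < ℓ ^ A1 := by positivity
  set D : ℕ := ⌊(K : ℝ) / ℓ ^ A1⌋₊ + 1 with hD
  have hDlow : (K : ℝ) / ℓ ^ A1 ≤ D := by
    rw [hD]; push_cast; exact (Nat.lt_floor_add_one _).le
  have hKA : ℓ ^ A1 ≤ K := by
    refine hℓA.trans ?_
    have : 1 ≤ √(K : ℝ) := by
      rw [Real.one_le_sqrt]
      linarith
    nlinarith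
  have hDup : (D : ℝ) ≤ 2 * (K : ℝ) / ℓ ^ A1 := by
    have h1 : (⌊(K : ℝ) / ℓ ^ A1⌋₊ : ℝ) ≤ (K : ℝ) / ℓ ^ A1 := Nat.floor_le (by positivity)
    have h2 : 1 ≤ (K : ℝ) / ℓ ^ A1 := by
      rw [le_div_iff₀ (by positivity), one_mul]; exact hKA
    rw [hD]; push_cast
    have e : 2 * (K : ℝ) / ℓ ^ A1 = (K : ℝ) / ℓ ^ A1 + (K : ℝ) / ℓ ^ A1 := by ring
    linarith
  have hD1 : 1 ≤ D := by omega
  have hD0 : (0 : ℝ) < D := by exact_mod_cast hD1
  have hDs : √(K : ℝ) ≤ D := by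
    refine le_trans ?_ hDlow
    rw [le_div_iff₀ hℓA0]
    calc √(K : ℝ) * ℓ ^ A1 ≤ √(K : ℝ) * √K := by gcongr
      _ = K := hsK
  have hJ : ((K / D : ℕ) : ℝ) ≤ ℓ ^ A1 := by
    refine Nat.cast_div_le.trans ?_
    rw [div_le_iff₀ hD0]
    rw [div_le_iff₀ (by positivity)] at hDlow
    linarith
  have hLB1 : L ^ B1 ≤ √K := by
    apply Real.le_sqrt_of_sq_le
    rw [← pow_mul]
    exact hpw (B1 * 2) (by omega)
  set X : ℝ := ((bx dd H).card : ℝ) with hX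
  have hX0 : 0 ≤ X := by rw [hX]; positivity
  have hpart : ∀ j ∈ Icc 1 (K / D), ∑ a ∈ bx dd H, (∑ n ∈ Icc 1 (D * j),
      (th z n * sf z a (n : ℤ) - C1 z a)) ^ 2 ≤ X * (K : ℝ) ^ 2 * (2 ^ A' / ℓ ^ A') := by
    intro j hj
    have hj1 := (mem_Icc.1 hj).1
    have hjK : D * j ≤ K := le_trans (Nat.mul_le_mul_left D (mem_Icc.1 hj).2) (Nat.mul_div_le K D)
    have hDj : D ≤ D * j := Nat.le_mul_of_pos_right D (by omega)
    have hDj' : (D : ℝ) ≤ ((D * j : ℕ) : ℝ) := by exact_mod_cast hDj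
    have h1 : L ^ B1 ≤ ((D * j : ℕ) : ℝ) := hLB1.trans (hDs.trans hDj')
    have h2 := hSM' (D * j) h1 (hjK.trans hKH)
    refine h2.trans ?_
    have h3 : ℓ / 2 ≤ Real.log ((D * j : ℕ) : ℝ) := by
      rw [hℓ, ← Real.log_sqrt hK0.le]
      exact Real.log_le_log hsK1 (hDs.trans hDj')
    have h4 : ((D * j : ℕ) : ℝ) ≤ K := by exact_mod_cast hjK
    calc X * ((D * j : ℕ) : ℝ) ^ 2 / Real.log ((D * j : ℕ) : ℝ) ^ A' ≤ X * (K : ℝ) ^ 2 / (ℓ / 2) ^ A' := by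
          gcongr
      _ = X * (K : ℝ) ^ 2 * (2 ^ A' / ℓ ^ A') := by
          rw [div_pow]
          field_simp
  -- one array
  set CW : ℝ := 4 * C / L ^ m with hCW
  have hLm : 0 < L ^ m := by positivity
  have hone : ∀ a ∈ bx dd H, (∑ n ∈ Icc 1 K, Wh H a (n : ℤ) * lw n *
      (th z n * sf z a (n : ℤ) - C1 z a)) ^ 2 ≤
      8 * CW ^ 2 * (∑ j ∈ Icc 1 (K / D), (∑ n ∈ Icc 1 (D * j), (th z n * sf z a (n : ℤ) - C1 z a)) ^ 2 +
        (D * Λ) ^ 2) := by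
    intro a _
    obtain ⟨hW1, hW2⟩ := hTV H hH3 a
    refine one_array (fun n => Wh H a (n : ℤ) * lw n) (fun n => th z n * sf z a (n : ℤ) - C1 z a) K D hD1
      CW Λ hΛ0 ?_ ?_ (hg a)
    · have h1 := hW1 (K : ℤ)
      have h2 := lw_nonneg K
      have h3 := lw_le K
      rw [abs_of_nonneg (mul_nonneg h1.1 h2)]
      calc Wh H a (K : ℤ) * lw K ≤ (C / L ^ m) * 2 := mul_le_mul h1.2 h3 h2 (by positivity)
        _ ≤ CW := by
          rw [hCW]
          have : 0 ≤ C / L ^ m := by positivity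
          have e : 4 * C / L ^ m = 4 * (C / L ^ m) := by ring
          rw [e]
          linarith
    · calc ∑ n ∈ Ico 1 K, |Wh H a ((n + 1 : ℕ) : ℤ) * lw (n + 1) - Wh H a (n : ℤ) * lw n|
          ≤ ∑ n ∈ Ico 1 K, (2 * |Wh H a ((n : ℤ) + 1) - Wh H a (n : ℤ)| +
              C / L ^ m * |lw (n + 1) - lw n|) := by
            refine sum_le_sum fun n _ => ?_
            have h1 := hW1 (n : ℤ)
            have h2 := lw_nonneg (n + 1)
            have h3 := lw_le (n + 1)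
            push_cast
            have e : Wh H a ((n : ℤ) + 1) * lw (n + 1) - Wh H a (n : ℤ) * lw n =
                (Wh H a ((n : ℤ) + 1) - Wh H a (n : ℤ)) * lw (n + 1) +
                Wh H a (n : ℤ) * (lw (n + 1) - lw n) := by ring
            rw [e]
            refine (abs_add_le _ _).trans ?_
            rw [abs_mul, abs_mul, abs_of_nonneg h2, abs_of_nonneg h1.1]
            have h4 : 0 ≤ |Wh H a ((n : ℤ) + 1) - Wh H a (n : ℤ)| := abs_nonneg _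
            have h5 : 0 ≤ |lw (n + 1) - lw n| := abs_nonneg _
            have h6 := mul_le_mul_of_nonneg_left h3 h4
            have h7 := mul_le_mul_of_nonneg_right h1.2 h5
            linarith
        _ = 2 * ∑ n ∈ Ico 1 K, |Wh H a ((n : ℤ) + 1) - Wh H a (n : ℤ)| +
              C / L ^ m * ∑ n ∈ Ico 1 K, |lw (n + 1) - lw n| := by
            rw [sum_add_distrib, mul_sum, mul_sum]
        _ ≤ 2 * (C / L ^ m) + C / L ^ m * 2 := by
            gcongr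
            · exact hW2 K
            · exact lw_var K
        _ = CW := by rw [hCW]; ring
  have hDL : (D * Λ) ^ 2 ≤ 4 * (K : ℝ) ^ 2 / ℓ ^ (A + 2) := by
    have h1 : (D : ℝ) * Λ ≤ 2 * K / ℓ ^ (A + 4) := by
      calc (D : ℝ) * Λ ≤ (2 * (K : ℝ) / ℓ ^ A1) * Λ := by gcongr
        _ = 2 * K / ℓ ^ (A + 4) := by
            rw [hA1, hΛ, show A + 2 * m + 5 = (A + 4) + (2 * m + 1) by ring, pow_add ℓ (A + 4) (2 * m + 1)]
            field_simp
    calc (D * Λ) ^ 2 ≤ (2 * K / ℓ ^ (A + 4)) ^ 2 := pow_le_pow_left₀ (by positivity) h1 2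
      _ = 4 * (K : ℝ) ^ 2 / ℓ ^ (2 * A + 8) := by
          rw [div_pow, ← pow_mul]
          congr 1
          · ring
          · congr 1
            ring
      _ ≤ 4 * (K : ℝ) ^ 2 / ℓ ^ (A + 2) := by
          apply div_le_div_of_nonneg_left (by positivity) (by positivity)
          exact pow_le_pow_right₀ hℓ1 (by omega)
  have hsum : ∑ a ∈ bx dd H, ∑ j ∈ Icc 1 (K / D),
      (∑ n ∈ Icc 1 (D * j), (th z n * sf z a (n : ℤ) - C1 z a)) ^ 2 ≤
      X * (K : ℝ) ^ 2 * (2 ^ A' / ℓ ^ (A + 2)) := by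
    rw [sum_comm]
    calc _ ≤ ∑ j ∈ Icc 1 (K / D), X * (K : ℝ) ^ 2 * (2 ^ A' / ℓ ^ A') := sum_le_sum hpart
      _ = ((K / D : ℕ) : ℝ) * (X * (K : ℝ) ^ 2 * (2 ^ A' / ℓ ^ A')) := by
          rw [sum_const, Nat.card_Icc, nsmul_eq_mul, Nat.add_sub_cancel]
      _ ≤ ℓ ^ A1 * (X * (K : ℝ) ^ 2 * (2 ^ A' / ℓ ^ A')) :=
          mul_le_mul_of_nonneg_right hJ (by positivity)
      _ = _ := by
          have e : ℓ ^ A' = ℓ ^ A1 * ℓ ^ (A + 2) := by rw [hA', ← pow_add]; congr 1; omega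
          rw [e]
          field_simp
  calc _ ≤ ∑ a ∈ bx dd H, 8 * CW ^ 2 * (∑ j ∈ Icc 1 (K / D),
        (∑ n ∈ Icc 1 (D * j), (th z n * sf z a (n : ℤ) - C1 z a)) ^ 2 + (D * Λ) ^ 2) :=
        sum_le_sum hone
    _ = 8 * CW ^ 2 * (∑ a ∈ bx dd H, ∑ j ∈ Icc 1 (K / D),
        (∑ n ∈ Icc 1 (D * j), (th z n * sf z a (n : ℤ) - C1 z a)) ^ 2 + X * (D * Λ) ^ 2) := by
        rw [← mul_sum, sum_add_distrib, sum_const, nsmul_eq_mul]
    _ ≤ 8 * CW ^ 2 * (X * (K : ℝ) ^ 2 * (2 ^ A' / ℓ ^ (A + 2)) + X * (4 * (K : ℝ) ^ 2 / ℓ ^ (A + 2))) := by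
        gcongr
    _ = (128 * C ^ 2 * (2 ^ A' + 4)) / ℓ ^ 2 * (X * (K : ℝ) ^ 2 / (ℓ ^ A * L ^ (2 * m))) := by
        rw [hCW, pow_add ℓ A 2, show 2 * m = m + m by ring, pow_add L m m]
        field_simp
        ring
    _ ≤ 1 * (X * (K : ℝ) ^ 2 / (ℓ ^ A * L ^ (2 * m))) := by
        refine mul_le_mul_of_nonneg_right ?_ (by positivity)
        rw [div_le_one (by positivity)]
        have h1 : 128 * C ^ 2 * (2 ^ A' + 4) ≤ Q := by
          rw [hQ]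
          have h3 : (0 : ℝ) < 2 ^ A' := by positivity
          have h4 : (0 : ℝ) ≤ 128 * C ^ 2 := by positivity
          have h5 : (2 : ℝ) ^ (A' + 1) = 2 * 2 ^ A' := by ring
          exact mul_le_mul_of_nonneg_left (by linarith) h4
        have h2 : Q ≤ ℓ := by linarith
        nlinarith
    _ = _ := one_mul _

end Pool.Agent.H12P.T2P
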