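import Pool.Agent.H12P.Stm
import Pool.Agent.H13K.TV

/-!
# Project PA (helper12), stub TVP (helper95)
-/

set_option autoImplicit false

namespace Pool.Agent.H12P.TVP

open Finset Polynomial MeasureTheory
open Pool.Agent.H13K
open Pool.Agent.H13K.TV (PR PR_eval changes prod_diff)

lemma logH_pos (H : ℕ) (hH : 3 ≤ H) : 0 < Real.log H :=
  Real.log_pos (by exact_mod_cast (by omega : 1 < H))

lemma max_pos' (H : ℕ) (hH : 3 ≤ H) (y : ℤ) : 0 < max (Real.log |(y : ℝ)|) (Real.log H / 2) :=
  lt_max_of_lt_right (by have := logH_pos H hH; positivity)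

lemma lgH_nonneg (H : ℕ) (hH : 3 ≤ H) (y : ℤ) : 0 ≤ lgH H y := by
  unfold lgH
  have := max_pos' H hH y
  positivity

lemma lgH_le (H : ℕ) (hH : 3 ≤ H) (y : ℤ) : lgH H y ≤ 2 / Real.log H := by
  unfold lgH
  have h1 := logH_pos H hH
  have h2 : 1 / max (Real.log |(y : ℝ)|) (Real.log H / 2) ≤ 1 / (Real.log H / 2) :=
    one_div_le_one_div_of_le (by positivity) (le_max_right _ _)
  refine h2.trans (le_of_eq ?_)
  field_simp

/-- the level sets of `lgH` -/
lemma lgH_level (H : ℕ) (hH : 3 ≤ H) (y : ℤ) (t : ℝ) (ht : 0 < t) :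
    t ≤ lgH H y ↔ (Real.log H / 2 ≤ 1 / t ∧ ¬ (Real.exp (1 / t) < |(y : ℝ)|)) := by
  unfold lgH
  rw [le_one_div ht (max_pos' H hH y), max_le_iff, not_lt, and_comm]
  by_cases hy : y = 0
  · subst hy
    simp only [Int.cast_zero, abs_zero, Real.log_zero]
    have h1 : 0 ≤ 1 / t := by positivity
    have h2 : 0 ≤ Real.exp (1 / t) := (Real.exp_pos _).le
    simp only [h1, h2]
  · have h1 : 0 < |(y : ℝ)| := abs_pos.mpr (by exact_mod_cast hy)
    rw [Real.log_le_iff_le_exp h1]

open Classical in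
/-- the number of the changes of a level set -/
lemma level_count {d : ℕ} (H : ℕ) (hH : 3 ≤ H) (a : Fin (d + 1) → ℤ) (hd : (PR a).natDegree ≠ 0) (t : ℝ)
    (ht : 0 < t) (N : ℕ) :
    ((Ico 1 N).filter (fun n : ℕ => ¬ (t ≤ lgH H (Fv a (n : ℤ)) ↔ t ≤ lgH H (Fv a ((n : ℤ) + 1))))).card ≤
      4 * d := by
  have h2 := changes a hd (Real.exp (1 / t)) (Real.exp_pos _).le N
  refine (card_le_card ?_).trans h2
  intro n hn
  rw [mem_filter] at hn ⊢
  refine ⟨hn.1, fun h4 => hn.2 ?_⟩
  rw [lgH_level H hH _ _ ht, lgH_level H hH _ _ ht, h4]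

/-- total variation for one polynomial -/
lemma tv_one {d : ℕ} (H : ℕ) (hH : 3 ≤ H) (a : Fin (d + 1) → ℤ) (N : ℕ) :
    ∑ n ∈ Ico 1 N, |lgH H (Fv a ((n : ℤ) + 1)) - lgH H (Fv a (n : ℤ))| ≤ 8 * d / Real.log H := by
  classical
  have hL := logH_pos H hH
  by_cases hd : (PR a).natDegree = 0
  · have h1 : ∀ n : ℤ, Fv a (n + 1) = Fv a n := by
      intro n
      have h2 := PR_eval a (n + 1)
      have h3 := PR_eval a n
      rw [eq_C_of_natDegree_eq_zero hd, eval_C] at h2 h3
      have h4 : (Fv a (n + 1) : ℝ) = Fv a n := by rw [← h2, ← h3]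
      exact_mod_cast h4
    simp only [h1, sub_self, abs_zero, sum_const_zero]
    positivity
  set β : ℝ := 2 / Real.log H with hβ
  have hβ0 : 0 < β := by positivity
  set G : ℕ → ℝ := fun n => lgH H (Fv a (n : ℤ)) with hG
  set G' : ℕ → ℝ := fun n => lgH H (Fv a ((n : ℤ) + 1)) with hG'
  have hG0 : ∀ n, 0 ≤ G n := fun n => lgH_nonneg H hH _
  have hG'0 : ∀ n, 0 ≤ G' n := fun n => lgH_nonneg H hH _
  have hG2 : ∀ n, G n ≤ β := fun n => lgH_le H hH _
  have hG'2 : ∀ n, G' n ≤ β := fun n => lgH_le H hH _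
  set I : ℕ → Set ℝ := fun n => Set.Ioc (min (G n) (G' n)) (max (G n) (G' n)) with hI
  have hvol : ∀ n, ENNReal.ofReal |G' n - G n| = ∫⁻ t, (I n).indicator 1 t := by
    intro n
    rw [lintegral_indicator_one measurableSet_Ioc, Real.volume_Ioc, max_sub_min_eq_abs]
  have hpt : ∀ t : ℝ, ∑ n ∈ Ico 1 N, (I n).indicator (1 : ℝ → ENNReal) t ≤
      (Set.Ioc (0 : ℝ) β).indicator (fun _ => ((4 * d : ℕ) : ENNReal)) t := by
    intro t
    by_cases ht : t ∈ Set.Ioc (0 : ℝ) β
    · rw [Set.indicator_of_mem ht]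
      have h1 : ∑ n ∈ Ico 1 N, (I n).indicator (1 : ℝ → ENNReal) t =
          (((Ico 1 N).filter (fun n => t ∈ I n)).card : ENNReal) := by
        rw [card_filter]
        push_cast
        refine sum_congr rfl fun n _ => ?_
        simp only [Set.indicator_apply, Pi.one_apply]
      rw [h1]
      have h2 : ((Ico 1 N).filter (fun n => t ∈ I n)).card ≤ 4 * d := by
        refine (card_le_card ?_).trans (level_count H hH a hd t ht.1 N)
        intro n hn
        rw [mem_filter] at hn ⊢
        refine ⟨hn.1, ?_⟩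
        have h3 := hn.2
        simp only [hI, Set.mem_Ioc, min_lt_iff, le_max_iff] at h3
        intro h4
        rcases h3 with ⟨h5 | h5, h6⟩
        · rcases h6 with h6 | h6
          · linarith
          · have := h4.mpr h6
            simp only [hG] at h5
            linarith
        · rcases h6 with h6 | h6
          · have := h4.mp h6
            simp only [hG'] at h5
            linarith
          · linarith
      exact_mod_cast h2
    · rw [Set.indicator_of_notMem ht]
      have h1 : ∀ n ∈ Ico 1 N, (I n).indicator (1 : ℝ → ENNReal) t = 0 := by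
        intro n _
        apply Set.indicator_of_notMem
        intro h2
        apply ht
        simp only [hI, Set.mem_Ioc] at h2
        refine ⟨lt_of_le_of_lt (le_min (hG0 n) (hG'0 n)) h2.1, h2.2.trans (max_le (hG2 n) (hG'2 n))⟩
      rw [sum_congr rfl h1]
      simp
  have hsum : ENNReal.ofReal (∑ n ∈ Ico 1 N, |G' n - G n|) ≤ ENNReal.ofReal (8 * d / Real.log H) := by
    rw [ENNReal.ofReal_sum_of_nonneg (fun n _ => abs_nonneg _)]
    calc ∑ n ∈ Ico 1 N, ENNReal.ofReal |G' n - G n|
        = ∑ n ∈ Ico 1 N, ∫⁻ t, (I n).indicator 1 t := sum_congr rfl fun n _ => hvol n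
      _ = ∫⁻ t, ∑ n ∈ Ico 1 N, (I n).indicator 1 t := by
          rw [lintegral_finsetSum]
          intro n _
          exact measurable_one.indicator measurableSet_Ioc
      _ ≤ ∫⁻ t, (Set.Ioc (0 : ℝ) β).indicator (fun _ => ((4 * d : ℕ) : ENNReal)) t :=
          lintegral_mono hpt
      _ = ENNReal.ofReal (8 * d / Real.log H) := by
          rw [lintegral_indicator measurableSet_Ioc, lintegral_const, Measure.restrict_apply_univ,
            Real.volume_Ioc]
          have h1 : ((4 * d : ℕ) : ENNReal) = ENNReal.ofReal (4 * d) := by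
            rw [← ENNReal.ofReal_natCast]
            push_cast
            rfl
          rw [h1, ← ENNReal.ofReal_mul (by positivity)]
          congr 1
          rw [hβ]
          ring
  exact (ENNReal.ofReal_le_ofReal_iff (by positivity)).mp hsum

theorem t : S_TVP := by
  intro m dd
  set V : ℝ := ∑ i : Fin m, 4 * (dd i : ℝ) with hV
  have hV0 : 0 ≤ V := sum_nonneg fun i _ => by positivity
  have hm1 : (1 : ℝ) ≤ 2 ^ m := one_le_pow₀ (by norm_num)
  refine ⟨2 ^ m * (2 ^ m * (V + 1)), ?_, ?_⟩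
  · have h2 : 1 ≤ 2 ^ m * (V + 1) := by nlinarith
    nlinarith
  intro H hH a
  have hL := logH_pos H hH
  set x : ℤ → Fin m → ℝ := fun n i => lgH H (Fv (a i) n) * (Real.log H / 2) with hx
  have hb : ∀ n : ℤ, ∀ i, 0 ≤ x n i ∧ x n i ≤ 1 := by
    intro n i
    have h1 := lgH_nonneg H hH (Fv (a i) n)
    have h2 := lgH_le H hH (Fv (a i) n)
    refine ⟨by simp only [hx]; positivity, ?_⟩
    simp only [hx]
    calc lgH H (Fv (a i) n) * (Real.log H / 2) ≤ (2 / Real.log H) * (Real.log H / 2) := by gcongr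
      _ = 1 := by field_simp
  have hW : ∀ n : ℤ, Wh H a n = (2 / Real.log H) ^ m * ∏ i, x n i := by
    intro n
    unfold Wh
    simp only [hx]
    rw [prod_mul_distrib, prod_const, card_univ, Fintype.card_fin]
    have h1 : (2 / Real.log H) ^ m * (Real.log H / 2) ^ m = 1 := by
      rw [← mul_pow]
      have : 2 / Real.log H * (Real.log H / 2) = 1 := by field_simp
      rw [this, one_pow]
    calc ∏ i, lgH H (Fv (a i) n) = (∏ i, lgH H (Fv (a i) n)) * 1 := (mul_one _).symm
      _ = (∏ i, lgH H (Fv (a i) n)) * ((2 / Real.log H) ^ m * (Real.log H / 2) ^ m) := by rw [h1]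
      _ = _ := by ring
  have hpow : (2 / Real.log H) ^ m = 2 ^ m / Real.log H ^ m := div_pow _ _ _
  refine ⟨fun n => ⟨?_, ?_⟩, fun N => ?_⟩
  · rw [hW]
    have := prod_nonneg (s := (univ : Finset (Fin m))) fun i _ => (hb n i).1
    positivity
  · rw [hW, hpow]
    have h1 : ∏ i, x n i ≤ 1 := prod_le_one (fun i _ => (hb n i).1) fun i _ => (hb n i).2
    calc 2 ^ m / Real.log H ^ m * ∏ i, x n i ≤ 2 ^ m / Real.log H ^ m * 1 := by gcongr
      _ ≤ 2 ^ m / Real.log H ^ m * (2 ^ m * (V + 1)) := by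
          gcongr
          nlinarith
      _ = _ := by ring
  · calc ∑ n ∈ Ico 1 N, |Wh H a ((n : ℤ) + 1) - Wh H a (n : ℤ)|
        ≤ ∑ n ∈ Ico 1 N, (2 / Real.log H) ^ m *
            (2 ^ m * ∑ i : Fin m, |x ((n : ℤ) + 1) i - x (n : ℤ) i|) := by
          refine sum_le_sum fun n _ => ?_
          rw [hW, hW, ← mul_sub, abs_mul, abs_of_nonneg (by positivity)]
          have h1 := prod_diff (univ : Finset (Fin m)) (x ((n : ℤ) + 1)) (x (n : ℤ))
            (fun i => ⟨(hb _ i).1, (hb _ i).2.trans (by norm_num)⟩)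
            (fun i => ⟨(hb _ i).1, (hb _ i).2.trans (by norm_num)⟩)
          rw [card_univ, Fintype.card_fin] at h1
          gcongr
      _ = (2 / Real.log H) ^ m * (2 ^ m * ∑ i : Fin m, (Real.log H / 2) *
            ∑ n ∈ Ico 1 N, |lgH H (Fv (a i) ((n : ℤ) + 1)) - lgH H (Fv (a i) (n : ℤ))|) := by
          rw [← mul_sum, ← mul_sum, sum_comm]
          congr 2
          refine sum_congr rfl fun i _ => ?_
          rw [mul_sum]
          refine sum_congr rfl fun n _ => ?_
          simp only [hx]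
          rw [← sub_mul, abs_mul, abs_of_nonneg (by positivity : 0 ≤ Real.log H / 2)]
          ring
      _ ≤ (2 / Real.log H) ^ m * (2 ^ m * ∑ i : Fin m, 4 * (dd i : ℝ)) := by
          apply mul_le_mul_of_nonneg_left _ (by positivity)
          apply mul_le_mul_of_nonneg_left _ (by positivity)
          refine sum_le_sum fun i _ => ?_
          calc (Real.log H / 2) *
              ∑ n ∈ Ico 1 N, |lgH H (Fv (a i) ((n : ℤ) + 1)) - lgH H (Fv (a i) (n : ℤ))|
              ≤ (Real.log H / 2) * (8 * dd i / Real.log H) := by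
                gcongr
                exact tv_one H hH (a i) N
            _ = 4 * (dd i : ℝ) := by field_simp; ring
      _ ≤ 2 ^ m / Real.log H ^ m * (2 ^ m * (V + 1)) := by
          rw [hpow]
          gcongr
          linarith
      _ = _ := by ring

end Pool.Agent.H12P.TVP
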