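import Pool.Agent.H12P.Stm
import Pool.Agent.H13K.AV

/-!
# VARP: the variance of the primes in progressions (project PA)
-/

set_option autoImplicit false

namespace Pool.Agent.H12P.VARP

open Finset
open Pool.Agent.H373R2.T7 (lamz pz Vz mem_pz prod_dvd_iff)
open Pool.Agent.H13K
open Pool.Agent.H13K.AV (ga ga_nonneg Ym_eq prod_pos')

lemma tot (S : Finset ℕ) (hS : ∀ p ∈ S, p.Prime) :
    (Nat.totient (∏ p ∈ S, p) : ℝ) = ∏ p ∈ S, ((p : ℝ) - 1) := by
  induction S using Finset.induction_on with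
  | empty => simp
  | insert p S hp ih =>
    have h1 := hS p (Finset.mem_insert_self _ _)
    have h2 : Nat.Coprime p (∏ q ∈ S, q) := by
      apply Nat.Coprime.prod_right
      intro q hq
      refine (Nat.coprime_primes h1 (hS q (Finset.mem_insert_of_mem hq))).2 ?_
      rintro rfl
      exact hp hq
    rw [Finset.prod_insert hp, Finset.prod_insert hp, Nat.totient_mul h2, Nat.cast_mul,
      ih (fun q hq => hS q (Finset.mem_insert_of_mem hq)), Nat.totient_prime h1,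
      Nat.cast_sub h1.one_le, Nat.cast_one]

lemma Y1_eq (m z : ℕ) : Y1 m z = ∑ S ∈ (pz z).powerset,
    (∏ p ∈ S, ga m p) / (Nat.totient (∏ p ∈ S, p) : ℝ) := by
  unfold Y1
  rw [Finset.prod_one_add]
  apply Finset.sum_congr rfl
  intro S hS
  rw [Finset.mem_powerset] at hS
  rw [tot S (fun p hp => (mem_pz.1 (hS hp)).2), Finset.prod_div_distrib]
  rfl

lemma sum_ga (m z : ℕ) : ((Vz z)⁻¹) ^ m = ∑ S ∈ (pz z).powerset, ∏ p ∈ S, ga m p := by
  rw [← Finset.prod_one_add]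
  unfold Vz
  rw [← Finset.prod_inv_distrib, ← Finset.prod_pow]
  apply Finset.prod_congr rfl
  intro p _
  unfold ga
  rw [inv_pow]
  ring

/-- the sum over a progression -/
noncomputable def Th (w : ℕ → ℝ) (N e c : ℕ) : ℝ :=
  ∑ n ∈ (Icc 1 N).filter (fun n => n ≡ c [MOD e]), w n

lemma sum_Th (w : ℕ → ℝ) (N e : ℕ) (he : 0 < e) :
    ∑ c ∈ range e, Th w N e c = ∑ n ∈ Icc 1 N, w n := by
  rw [← Finset.sum_fiberwise_of_maps_to (s := Icc 1 N) (t := range e) (g := fun n => n % e)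
    (fun n _ => Finset.mem_range.2 (Nat.mod_lt n he))]
  apply Finset.sum_congr rfl
  intro c hc
  unfold Th
  apply Finset.sum_congr _ (fun _ _ => rfl)
  apply Finset.filter_congr
  intro n _
  unfold Nat.ModEq
  rw [Nat.mod_eq_of_lt (Finset.mem_range.1 hc)]

lemma sum_sq (w : ℕ → ℝ) (N e : ℕ) (he : 0 < e) :
    ∑ n ∈ Icc 1 N, ∑ n' ∈ Icc 1 N, w n * w n' * (if (e : ℤ) ∣ ((n : ℤ) - n') then 1 else 0) =
      ∑ c ∈ range e, Th w N e c ^ 2 := by
  have h1 : ∀ n ∈ Icc 1 N, ∑ n' ∈ Icc 1 N, w n * w n' * (if (e : ℤ) ∣ ((n : ℤ) - n') then 1 else 0) =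
      w n * Th w N e (n % e) := by
    intro n _
    unfold Th
    rw [Finset.sum_filter, Finset.mul_sum]
    apply Finset.sum_congr rfl
    intro n' _
    have h2 : ((e : ℤ) ∣ ((n : ℤ) - n')) ↔ n' ≡ n % e [MOD e] := by
      rw [← Int.modEq_iff_dvd, Int.natCast_modEq_iff]
      constructor
      · intro h
        exact h.trans (Nat.mod_modEq n e).symm
      · intro h
        exact h.trans (Nat.mod_modEq n e)
    by_cases h3 : n' ≡ n % e [MOD e]
    · rw [if_pos h3, if_pos (h2.2 h3)]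
      ring
    · rw [if_neg h3, if_neg (fun h => h3 (h2.1 h))]
      ring
  rw [Finset.sum_congr rfl h1, ← Finset.sum_fiberwise_of_maps_to (s := Icc 1 N) (t := range e)
    (g := fun n => n % e) (fun n _ => Finset.mem_range.2 (Nat.mod_lt n he))]
  apply Finset.sum_congr rfl
  intro c hc
  have h4 : (Icc 1 N).filter (fun n => n % e = c) = (Icc 1 N).filter (fun n => n ≡ c [MOD e]) := by
    apply Finset.filter_congr
    intro n _
    unfold Nat.ModEq
    rw [Nat.mod_eq_of_lt (Finset.mem_range.1 hc)]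
  rw [Finset.sum_congr rfl (fun n hn => by rw [(Finset.mem_filter.1 hn).2] :
    ∀ n ∈ (Icc 1 N).filter (fun n => n % e = c), w n * Th w N e (n % e) = w n * Th w N e c),
    ← Finset.sum_mul, h4, sq]
  rfl

lemma card_mod (N e c : ℕ) (he : 0 < e) :
    (((Icc 1 N).filter (fun n => n ≡ c [MOD e])).card : ℝ) ≤ N / e + 1 := by
  have h0 : Icc 1 N = Ioc 0 N := by
    ext x; rw [Finset.mem_Icc, Finset.mem_Ioc]; omega
  have h1 := Nat.Ioc_filter_modEq_card 0 N he c
  have he' : (0 : ℚ) < e := by exact_mod_cast he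
  have h2 : ((((Ioc 0 N).filter (fun n => n ≡ c [MOD e])).card : ℤ) : ℚ) ≤ N / e + 1 := by
    rw [h1]
    push_cast
    apply max_le
    · have h3 := Int.floor_le (((N : ℚ) - c) / e)
      have h4 := Int.lt_floor_add_one (((0 : ℚ) - c) / e)
      have h5 : ((N : ℚ) - c) / e - ((0 : ℚ) - c) / e = N / e := by
        field_simp
        ring
      linarith
    · positivity
  rw [h0]
  have h6 : ((((Ioc 0 N).filter (fun n => n ≡ c [MOD e])).card : ℚ) : ℝ) ≤ (((N / e + 1 : ℚ)) : ℝ) := by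
    exact_mod_cast h2
  push_cast at h6
  exact h6

lemma th_nonneg (z n : ℕ) : 0 ≤ th z n := by
  unfold th
  split_ifs with h
  · exact Real.log_nonneg (by exact_mod_cast h.1.one_le)
  · exact le_refl _

lemma th_le (z n N : ℕ) (h1 : 1 ≤ n) (h2 : n ≤ N) : th z n ≤ Real.log N := by
  unfold th
  have h3 : (1 : ℝ) ≤ n := by exact_mod_cast h1
  have h4 : (n : ℝ) ≤ N := by exact_mod_cast h2
  split_ifs with h
  · exact Real.log_le_log (by linarith) h4
  · exact Real.log_nonneg (by linarith)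

lemma Th_nonneg (z N e c : ℕ) : 0 ≤ Th (th z) N e c :=
  Finset.sum_nonneg fun n _ => th_nonneg z n

lemma Th_le (z N e c : ℕ) (he : 0 < e) (hN : 1 ≤ N) : Th (th z) N e c ≤ Real.log N * (N / e + 1) := by
  unfold Th
  have h1 : ∀ n ∈ (Icc 1 N).filter (fun n => n ≡ c [MOD e]), th z n ≤ Real.log N := by
    intro n hn
    have := Finset.mem_Icc.1 (Finset.mem_filter.1 hn).1
    exact th_le z n N this.1 this.2
  have h2 := Finset.sum_le_card_nsmul _ _ _ h1
  rw [nsmul_eq_mul] at h2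
  have h3 := card_mod N e c he
  have h4 : 0 ≤ Real.log N := Real.log_nonneg (by exact_mod_cast hN)
  calc _ ≤ _ := h2
    _ ≤ (N / e + 1) * Real.log N := mul_le_mul_of_nonneg_right h3 h4
    _ = _ := mul_comm _ _

/-- no primes in the classes which are not reduced -/
lemma Th_zero (z N c : ℕ) (S : Finset ℕ) (hS : S ⊆ pz z) (hc : ¬ Nat.Coprime (∏ p ∈ S, p) c) :
    Th (th z) N (∏ p ∈ S, p) c = 0 := by
  unfold Th
  apply Finset.sum_eq_zero
  intro n hn
  have h1 := (Finset.mem_filter.1 hn).2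
  rw [Nat.Prime.not_coprime_iff_dvd] at hc
  obtain ⟨p, hp, h2, h3⟩ := hc
  obtain ⟨q, hq, h4⟩ := (Prime.dvd_finsetProd_iff hp.prime _).1 h2
  have h5 : p = q := (Nat.prime_dvd_prime_iff_eq hp (mem_pz.1 (hS hq)).2).1 h4
  have h6 : p ≤ z := by rw [h5]; exact (mem_pz.1 (hS hq)).1
  have h7 : p ∣ n := (Nat.ModEq.dvd_iff h1 h2).2 h3
  unfold th
  rw [if_neg]
  rintro ⟨h8, h9⟩
  have := (Nat.prime_dvd_prime_iff_eq hp h8).1 h7
  omega

/-- the variance -/
lemma var_eq (R : Finset ℕ) (f : ℕ → ℝ) (θ : ℝ) (h : ∑ c ∈ R, f c = θ) (hR : R.Nonempty) :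
    ∑ c ∈ R, f c ^ 2 - θ ^ 2 / R.card = ∑ c ∈ R, (f c - θ / R.card) ^ 2 := by
  have h1 : (R.card : ℝ) ≠ 0 := by exact_mod_cast (Finset.card_pos.2 hR).ne'
  have h2 : ∀ c ∈ R, (f c - θ / R.card) ^ 2 = f c ^ 2 - 2 * (θ / R.card) * f c + (θ / R.card) ^ 2 := by
    intro c _
    ring
  rw [Finset.sum_congr rfl h2, Finset.sum_add_distrib, Finset.sum_sub_distrib, ← Finset.mul_sum, h,
    Finset.sum_const, nsmul_eq_mul]
  field_simp
  ring

lemma main_eq (m z N : ℕ) :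
    ∑ n ∈ Icc 1 N, ∑ n' ∈ Icc 1 N, th z n * th z n' * (Ym m z ((n : ℤ) - n') - Y1 m z) =
      ∑ S ∈ (pz z).powerset, (∏ p ∈ S, ga m p) *
        (∑ c ∈ range (∏ p ∈ S, p), Th (th z) N (∏ p ∈ S, p) c ^ 2 -
          (∑ n ∈ Icc 1 N, th z n) ^ 2 / (Nat.totient (∏ p ∈ S, p) : ℝ)) := by
  have h1 : ∀ n ∈ Icc 1 N, ∀ n' ∈ Icc 1 N, th z n * th z n' * (Ym m z ((n : ℤ) - n') - Y1 m z) =
      ∑ S ∈ (pz z).powerset, (∏ p ∈ S, ga m p) *
        (th z n * th z n' * (if ((∏ p ∈ S, p : ℕ) : ℤ) ∣ ((n : ℤ) - n') then 1 else 0) -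
          th z n * th z n' / (Nat.totient (∏ p ∈ S, p) : ℝ)) := by
    intro n _ n' _
    rw [Ym_eq, Y1_eq, ← Finset.sum_sub_distrib, Finset.mul_sum]
    apply Finset.sum_congr rfl
    intro S _
    ring
  rw [Finset.sum_congr rfl (fun n hn => Finset.sum_congr rfl (h1 n hn))]
  rw [Finset.sum_congr rfl (fun n (_ : n ∈ Icc 1 N) => Finset.sum_comm), Finset.sum_comm]
  apply Finset.sum_congr rfl
  intro S hS
  rw [Finset.mem_powerset] at hS
  rw [Finset.sum_congr rfl (fun n (_ : n ∈ Icc 1 N) => (Finset.mul_sum _ _ _).symm), ← Finset.mul_sum]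
  congr 1
  rw [Finset.sum_congr rfl (fun n (_ : n ∈ Icc 1 N) => Finset.sum_sub_distrib _ _), Finset.sum_sub_distrib,
    sum_sq _ _ _ (prod_pos' hS)]
  congr 1
  rw [sq, Finset.sum_mul_sum, Finset.sum_div]
  apply Finset.sum_congr rfl
  intro n _
  rw [Finset.sum_div]

/-- small moduli -/
lemma small (z N : ℕ) (S : Finset ℕ) (hS : S ⊆ pz z) (b M : ℝ) (hb : 0 ≤ b)
    (h1 : |∑ n ∈ Icc 1 N, th z n - N| ≤ b)
    (h2 : ∀ c : ℕ, c.Coprime (∏ p ∈ S, p) →
      |Th (th z) N (∏ p ∈ S, p) c - (N : ℝ) / (Nat.totient (∏ p ∈ S, p) : ℝ)| ≤ b)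
    (h3 : ((∏ p ∈ S, p : ℕ) : ℝ) ≤ M) :
    ∑ c ∈ range (∏ p ∈ S, p), Th (th z) N (∏ p ∈ S, p) c ^ 2 -
          (∑ n ∈ Icc 1 N, th z n) ^ 2 / (Nat.totient (∏ p ∈ S, p) : ℝ) ≤ M * (2 * b) ^ 2 := by
  set e := ∏ p ∈ S, p with he
  have he0 : 0 < e := prod_pos' hS
  set R := (range e).filter (fun c => Nat.Coprime e c) with hR
  have hRc : R.card = Nat.totient e := rfl
  have hφ : 0 < Nat.totient e := Nat.totient_pos.2 he0
  have hz : ∀ c ∈ range e, c ∉ R → Th (th z) N e c = 0 := by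
    intro c hc hcR
    apply Th_zero z N c S hS
    intro h
    exact hcR (Finset.mem_filter.2 ⟨hc, h⟩)
  have hs1 : ∑ c ∈ R, Th (th z) N e c = ∑ n ∈ Icc 1 N, th z n := by
    rw [← sum_Th (th z) N e he0]
    exact Finset.sum_subset (Finset.filter_subset _ _) hz
  have hs2 : ∑ c ∈ R, Th (th z) N e c ^ 2 = ∑ c ∈ range e, Th (th z) N e c ^ 2 := by
    apply Finset.sum_subset (Finset.filter_subset _ _)
    intro c hc hcR
    rw [hz c hc hcR]
    ring
  have hv := var_eq R (fun c => Th (th z) N e c) _ hs1 (Finset.card_pos.1 (by rw [hRc]; exact hφ))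
  rw [hRc, hs2] at hv
  rw [hv]
  have hφ1 : (1 : ℝ) ≤ Nat.totient e := by exact_mod_cast hφ
  have hb2 : ∀ c ∈ R, (Th (th z) N e c - (∑ n ∈ Icc 1 N, th z n) / (Nat.totient e : ℝ)) ^ 2 ≤ (2 * b) ^ 2 := by
    intro c hc
    have h4 := h2 c (Nat.Coprime.symm (Finset.mem_filter.1 hc).2)
    have h5 : |(∑ n ∈ Icc 1 N, th z n) / (Nat.totient e : ℝ) - (N : ℝ) / (Nat.totient e : ℝ)| ≤ b := by
      rw [← sub_div, abs_div, abs_of_pos (by linarith : (0 : ℝ) < Nat.totient e), div_le_iff₀ (by linarith)]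
      calc _ ≤ b := h1
        _ = b * 1 := by ring
        _ ≤ _ := mul_le_mul_of_nonneg_left hφ1 hb
    rw [abs_le] at h4 h5
    apply sq_le_sq'
    · linarith [h4.1, h5.2]
    · linarith [h4.2, h5.1]
  have h6 := Finset.sum_le_card_nsmul _ _ _ hb2
  rw [nsmul_eq_mul, hRc] at h6
  refine le_trans h6 (mul_le_mul_of_nonneg_right (le_trans ?_ h3) (sq_nonneg _))
  exact_mod_cast Nat.totient_le e

/-- large moduli -/
lemma large (z N : ℕ) (S : Finset ℕ) (hS : S ⊆ pz z) (hN : 1 ≤ N) (M : ℝ) (hM : 0 < M)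
    (h1 : ∑ n ∈ Icc 1 N, th z n ≤ 2 * N) (h3 : M ≤ ((∏ p ∈ S, p : ℕ) : ℝ)) :
    ∑ c ∈ range (∏ p ∈ S, p), Th (th z) N (∏ p ∈ S, p) c ^ 2 -
          (∑ n ∈ Icc 1 N, th z n) ^ 2 / (Nat.totient (∏ p ∈ S, p) : ℝ) ≤
      Real.log N * (N / M + 1) * (2 * N) := by
  set e := ∏ p ∈ S, p with he
  have he0 : 0 < e := prod_pos' hS
  have he1 : (0 : ℝ) < e := by exact_mod_cast he0
  have h2 : 0 ≤ (∑ n ∈ Icc 1 N, th z n) ^ 2 / (Nat.totient e : ℝ) := by positivity
  have h4 : ∑ c ∈ range e, Th (th z) N e c ^ 2 ≤ ∑ c ∈ range e, (Real.log N * (N / e + 1)) * Th (th z) N e c := by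
    apply Finset.sum_le_sum
    intro c _
    rw [sq]
    exact mul_le_mul_of_nonneg_right (Th_le z N e c he0 hN) (Th_nonneg _ _ _ _)
  rw [← Finset.mul_sum, sum_Th _ _ _ he0] at h4
  have h5 : 0 ≤ Real.log N := Real.log_nonneg (by exact_mod_cast hN)
  have h6 : (N : ℝ) / e ≤ N / M := div_le_div_of_nonneg_left (Nat.cast_nonneg _) hM h3
  have h7 : 0 ≤ ∑ n ∈ Icc 1 N, th z n := Finset.sum_nonneg fun n _ => th_nonneg z n
  calc _ ≤ Real.log N * (N / e + 1) * ∑ n ∈ Icc 1 N, th z n := by linarith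
    _ ≤ Real.log N * (N / M + 1) * ∑ n ∈ Icc 1 N, th z n := by
        apply mul_le_mul_of_nonneg_right _ h7
        exact mul_le_mul_of_nonneg_left (by linarith) h5
    _ ≤ _ := by
        apply mul_le_mul_of_nonneg_left h1
        positivity

theorem t : S_VZ → S_SWT → S_VARP := by
  intro hVZ hSW m E A
  obtain ⟨C, hC1, hC⟩ := hVZ
  obtain ⟨B1, H1, h1⟩ := hSW E (A + m + 5) (A + m + 5 + (A + m + 5))
  -- largeness of N
  have hN0 : ∃ N0 : ℕ, ∀ N : ℕ, N0 ≤ N → 4 ≤ Real.log N ∧ C ^ m ≤ Real.log N ∧ Real.log N ^ (A + m + 5) ≤ N := by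
    have e1 : ∀ᶠ x : ℝ in Filter.atTop, 4 ≤ Real.log x := Real.tendsto_log_atTop.eventually_ge_atTop 4
    have e2 : ∀ᶠ x : ℝ in Filter.atTop, C ^ m ≤ Real.log x := Real.tendsto_log_atTop.eventually_ge_atTop _
    have e3 : ∀ᶠ x : ℝ in Filter.atTop, Real.log x ^ (A + m + 5) ≤ x := by
      have h := (Real.isLittleO_pow_log_id_atTop (n := A + m + 5)).bound (c := 1) (by norm_num)
      filter_upwards [h, Filter.eventually_ge_atTop 1] with x hx hx1
      rw [one_mul, id, Real.norm_eq_abs, Real.norm_eq_abs, abs_of_nonneg (by linarith : (0:ℝ) ≤ x)] at hx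
      exact le_trans (le_abs_self _) hx
    have e4 := tendsto_natCast_atTop_atTop.eventually ((e1.and e2).and e3)
    obtain ⟨N0, hN0⟩ := Filter.eventually_atTop.1 e4
    exact ⟨N0, fun N hN => ⟨(hN0 N hN).1.1, (hN0 N hN).1.2, (hN0 N hN).2⟩⟩
  obtain ⟨N0, hN0⟩ := hN0
  -- largeness of H
  have hH0 : ∃ H0 : ℕ, ∀ H : ℕ, H0 ≤ H → 1 ≤ Real.log H ∧ (N0 : ℝ) ≤ Real.log H := by
    have e1 : ∀ᶠ x : ℝ in Filter.atTop, 1 ≤ Real.log x ∧ (N0 : ℝ) ≤ Real.log x :=
      (Real.tendsto_log_atTop.eventually_ge_atTop 1).and (Real.tendsto_log_atTop.eventually_ge_atTop _)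
    have e4 := tendsto_natCast_atTop_atTop.eventually e1
    obtain ⟨H0, hH0⟩ := Filter.eventually_atTop.1 e4
    exact ⟨H0, fun H hH => hH0 H hH⟩
  obtain ⟨H2, hH2⟩ := hH0
  refine ⟨B1 + E + 1, max H1 H2, fun H hH z hz N hN => ?_⟩
  obtain ⟨hL1, hLN⟩ := hH2 H (le_trans (le_max_right _ _) hH)
  have hLN' : Real.log H ≤ N := le_trans (by
    calc Real.log H = Real.log H ^ 1 := (pow_one _).symm
      _ ≤ _ := pow_le_pow_right₀ hL1 (by omega)) hN
  have hNN0 : N0 ≤ N := by exact_mod_cast le_trans hLN hLN'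
  obtain ⟨hl4, hlC, hlD⟩ := hN0 N hNN0
  set l := Real.log N with hl
  have hl1 : 1 ≤ l := by linarith
  have hl0 : 0 < l := by linarith
  have hN1 : 1 ≤ N := by
    have : (1 : ℝ) ≤ N := le_trans hL1 hLN'
    exact_mod_cast this
  have hNr : (1 : ℝ) ≤ N := by exact_mod_cast hN1
  have hNB1 : Real.log H ^ B1 ≤ N := le_trans (pow_le_pow_right₀ hL1 (by omega)) hN
  have hzN : (z : ℝ) ≤ N := le_trans hz (le_trans (pow_le_pow_right₀ hL1 (by omega)) hN)
  have h1' := h1 H (le_trans (le_max_left _ _) hH) z hz N hNB1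
  -- the weights
  have hVz : ((Vz z)⁻¹) ^ m ≤ l ^ (m + 1) := by
    by_cases h2z : 2 ≤ z
    · have h3 : (2 : ℝ) ≤ z := by exact_mod_cast h2z
      have h4 : Real.log z ≤ l := Real.log_le_log (by linarith) hzN
      have h5 : (Vz z)⁻¹ ≤ C * l := le_trans (hC z h2z) (mul_le_mul_of_nonneg_left h4 (by linarith))
      have h6 : 0 ≤ (Vz z)⁻¹ := by
        apply inv_nonneg.2
        unfold Vz
        apply Finset.prod_nonneg
        intro p hp
        have : (2 : ℝ) ≤ p := by exact_mod_cast (mem_pz.1 hp).2.two_le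
        have : 1 / (p : ℝ) ≤ 1 := by
          rw [div_le_one (by linarith)]
          linarith
        linarith
      calc ((Vz z)⁻¹) ^ m ≤ (C * l) ^ m := pow_le_pow_left₀ h6 h5 m
        _ = C ^ m * l ^ m := mul_pow _ _ _
        _ ≤ l * l ^ m := mul_le_mul_of_nonneg_right hlC (pow_nonneg hl0.le _)
        _ = _ := by ring
    · have h3 : pz z = ∅ := by
        rw [Finset.eq_empty_iff_forall_notMem]
        intro p hp
        have := (mem_pz.1 hp).2.two_le
        have := (mem_pz.1 hp).1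
        omega
      have h4 : Vz z = 1 := by
        unfold Vz
        rw [h3, Finset.prod_empty]
      rw [h4, inv_one, one_pow]
      exact one_le_pow₀ hl1
  -- the total
  have hθ : |∑ n ∈ Icc 1 N, th z n - N| ≤ N / l ^ (A + m + 5 + (A + m + 5)) := by
    have h2 := h1' 1 le_rfl (by rw [Nat.cast_one]; exact one_le_pow₀ hl1) 0 (Nat.coprime_one_right 0)
    rw [Nat.totient_one, Nat.cast_one, div_one] at h2
    have h3 : (Icc 1 N).filter (fun n => n ≡ 0 [MOD 1]) = Icc 1 N := by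
      apply Finset.filter_true_of_mem
      intro n _
      exact Nat.modEq_one
    rwa [h3] at h2
  have hθ2 : ∑ n ∈ Icc 1 N, th z n ≤ 2 * N := by
    have h2 : (N : ℝ) / l ^ (A + m + 5 + (A + m + 5)) ≤ N := div_le_self (by linarith) (one_le_pow₀ hl1)
    have h3 := (abs_le.1 hθ).2
    linarith
  have hterm : ∀ S ∈ (pz z).powerset, ∑ c ∈ range (∏ p ∈ S, p), Th (th z) N (∏ p ∈ S, p) c ^ 2 -
          (∑ n ∈ Icc 1 N, th z n) ^ 2 / (Nat.totient (∏ p ∈ S, p) : ℝ) ≤ 4 * (N : ℝ) ^ 2 / l ^ (A + m + 4) := by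
    intro S hS
    rw [Finset.mem_powerset] at hS
    rcases le_total (((∏ p ∈ S, p : ℕ) : ℝ)) (l ^ (A + m + 5)) with h2 | h2
    · have h3 := small z N S hS (N / l ^ (A + m + 5 + (A + m + 5))) (l ^ (A + m + 5)) (by positivity) hθ
        (fun c hc => h1' (∏ p ∈ S, p) (prod_pos' hS) h2 c hc) h2
      refine le_trans h3 ?_
      have h4 : l ^ (A + m + 5) * (2 * (N / l ^ (A + m + 5 + (A + m + 5)))) ^ 2 =
          4 * (N : ℝ) ^ 2 / (l ^ (A + m + 4) * l ^ (2 * A + 2 * m + 11)) := by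
        rw [← pow_add]
        field_simp
        ring
      rw [h4]
      apply div_le_div_of_nonneg_left (by positivity) (by positivity)
      calc l ^ (A + m + 4) = l ^ (A + m + 4) * 1 := by ring
        _ ≤ _ := mul_le_mul_of_nonneg_left (one_le_pow₀ hl1) (by positivity)
    · have h3 := large z N S hS hN1 (l ^ (A + m + 5)) (by positivity) hθ2 h2
      refine le_trans h3 ?_
      have h4 : 1 ≤ (N : ℝ) / l ^ (A + m + 5) := by
        rw [le_div_iff₀ (by positivity), one_mul]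
        exact hlD
      calc Real.log N * (N / l ^ (A + m + 5) + 1) * (2 * N)
          ≤ Real.log N * (N / l ^ (A + m + 5) + N / l ^ (A + m + 5)) * (2 * N) := by
            apply mul_le_mul_of_nonneg_right _ (by positivity)
            apply mul_le_mul_of_nonneg_left _ hl0.le
            linarith
        _ = _ := by
            rw [← hl, pow_succ l (A + m + 4)]
            field_simp
            ring
  rw [main_eq]
  calc _ ≤ ∑ S ∈ (pz z).powerset, (∏ p ∈ S, ga m p) * (4 * (N : ℝ) ^ 2 / l ^ (A + m + 4)) := by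
        apply Finset.sum_le_sum
        intro S hS
        apply mul_le_mul_of_nonneg_left (hterm S hS)
        rw [Finset.mem_powerset] at hS
        exact Finset.prod_nonneg fun p hp => ga_nonneg m (hS hp)
    _ = ((Vz z)⁻¹) ^ m * (4 * (N : ℝ) ^ 2 / l ^ (A + m + 4)) := by
        rw [← Finset.sum_mul, ← sum_ga]
    _ ≤ l ^ (m + 1) * (4 * (N : ℝ) ^ 2 / l ^ (A + m + 4)) := by
        apply mul_le_mul_of_nonneg_right hVz
        positivity
    _ = 4 * (N : ℝ) ^ 2 / (l ^ A * l ^ 3) := by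
        rw [show A + m + 4 = A + 3 + (m + 1) by ring, pow_add l (A + 3) (m + 1), pow_add l A 3]
        field_simp
    _ ≤ (N : ℝ) ^ 2 / l ^ A := by
        rw [div_le_div_iff₀ (by positivity) (by positivity)]
        have h5 : (4 : ℝ) ≤ l ^ 3 := by nlinarith [mul_pos hl0 hl0]
        have h6 : 0 ≤ (N : ℝ) ^ 2 * l ^ A := by positivity
        nlinarith [mul_le_mul_of_nonneg_left h5 h6]

end Pool.Agent.H12P.VARP
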