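import Pool.Agent.H13K.Main
import Pool.Agent.H12P.T1P
import Pool.Agent.H12P.CRTP
import Pool.Agent.H12P.AVP
import Pool.Agent.H12P.SWT
import Pool.Agent.H12P.VARP
import Pool.Agent.H12P.LOWCP
import Pool.Agent.H12P.SMP
import Pool.Agent.H12P.TVP
import Pool.Agent.H12P.EXCP
import Pool.Agent.H12P.T2P
import Pool.Agent.H12P.LOWLP
import Pool.Agent.H12P.SECP
import Pool.Agent.H12P.BLKP
import Pool.Agent.H12P.ALLP
import Pool.Agent.H12P.PYP
import Pool.Agent.H12P.Fin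

/-! Project PA: composition of the stubs. -/

set_option autoImplicit false

namespace Pool.Agent.H12P.Main

open Finset
open Pool.Agent.H13K Pool.Agent.H12P

theorem t1p : S_T1P := T1P.t VZ.t WTF.t Pool.Agent.H13K.Main.kern TEN.t
theorem varp : S_VARP := VARP.t VZ.t SWT.t
theorem lowcp : S_LOWCP := LOWCP.t VZ.t
theorem smp : S_SMP := SMP.t VZ.t Pool.Agent.H13K.Main.fl CRTP.t AVP.t SWT.t varp lowcp
theorem t2p : S_T2P := T2P.t VZ.t smp TVP.t lowcp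
theorem secp : S_SECP := SECP.t VZ.t t1p t2p TVP.t EXCP.t lowcp TV.t
theorem blkp : S_BLKP := BLKP.t VZ.t secp TVP.t EXCP.t lowcp LOWLP.t TV.t
theorem allp : S_ALLP := ALLP.t blkp lowcp
theorem pyp : S_PYP := PYP.t Pool.Agent.H13K.Main.py (LOWC.t VZ.t)

theorem hbl (m : ℕ) (dd : Fin m → ℕ) (A : ℕ) : ∃ H0 : ℕ, ∀ H : ℕ, H0 ≤ H →
    (((bx dd H) \ (bl dd H)).card : ℝ) ≤ ((bx dd H).card : ℝ) / Real.log (Real.log H) ^ A := by
  obtain ⟨H3, hH3⟩ := Pool.Agent.H373R2.T7.ev_log' A (3 * m)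
  obtain ⟨H4, hH4⟩ := Pool.Agent.H373R2.T7.ev_L' 3
  refine ⟨max (max H3 H4) 3, fun H hH => ?_⟩
  have a3 := hH3 H (le_trans (le_trans (le_max_left _ _) (le_max_left _ _)) hH)
  have a4 := hH4 H (le_trans (le_trans (le_max_right _ _) (le_max_left _ _)) hH)
  have hH1 : (1 : ℝ) ≤ H := by
    have : 1 ≤ H := le_trans (by norm_num) (le_trans (le_max_right _ _) hH)
    exact_mod_cast this
  have h1 := ALLP.small_lead dd H
  have hLp : 0 < Real.log (H : ℝ) := by linarith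
  have hll0 : 0 < Real.log (Real.log H) := Real.log_pos (by linarith)
  have hll : Real.log (Real.log H) ≤ Real.log H := by
    have := Real.log_le_sub_one_of_pos hLp
    linarith
  have hs0 : 0 ≤ √(H : ℝ) := Real.sqrt_nonneg _
  have hs1 : 1 ≤ √(H : ℝ) := Real.one_le_sqrt.2 hH1
  have hs2 : √(H : ℝ) * √(H : ℝ) = H := Real.mul_self_sqrt (by linarith)
  obtain ⟨X, hX⟩ : ∃ X : ℝ, X = ((bx dd H).card : ℝ) := ⟨_, rfl⟩
  obtain ⟨Y, hY⟩ : ∃ Y : ℝ, Y = (((bx dd H) \ (bl dd H)).card : ℝ) := ⟨_, rfl⟩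
  have hX0 : 0 ≤ X := by rw [hX]; exact Nat.cast_nonneg _
  have hY0 : 0 ≤ Y := by rw [hY]; exact Nat.cast_nonneg _
  rw [← hX, ← hY] at h1 ⊢
  have hm0 : (0 : ℝ) ≤ m := Nat.cast_nonneg _
  have h2 : Y * H ≤ (3 * m) * √(H : ℝ) * X := by
    have h3 : (m : ℝ) * (2 * √(H : ℝ) + 1) * X ≤ (3 * m) * √(H : ℝ) * X := by
      refine mul_le_mul_of_nonneg_right ?_ hX0
      nlinarith
    nlinarith
  have h4 : Y * √(H : ℝ) ≤ 3 * m * X := by
    have h5 : (Y * √(H : ℝ)) * √(H : ℝ) ≤ (3 * m * X) * √(H : ℝ) := by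
      calc (Y * √(H : ℝ)) * √(H : ℝ) = Y * (√(H : ℝ) * √(H : ℝ)) := by ring
        _ = Y * H := by rw [hs2]
        _ ≤ (3 * m) * √(H : ℝ) * X := h2
        _ = (3 * m * X) * √(H : ℝ) := by ring
    exact le_of_mul_le_mul_right h5 (by linarith)
  rw [le_div_iff₀ (by positivity)]
  have h6 : 3 * (m : ℝ) * Real.log (Real.log H) ^ A ≤ √(H : ℝ) := by
    refine le_trans ?_ a3
    exact mul_le_mul_of_nonneg_left (pow_le_pow_left₀ hll0.le hll _) (by positivity)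
  rcases Nat.eq_zero_or_pos m with h0 | h0
  · have h7 : Y * √(H : ℝ) ≤ 0 := by
      refine h4.trans (le_of_eq ?_)
      rw [h0, Nat.cast_zero]
      ring
    have h8 : Y ≤ 0 := by
      by_contra hcon
      push Not at hcon
      have : 0 < Y * √(H : ℝ) := mul_pos hcon (by linarith)
      linarith
    have : Y = 0 := le_antisymm h8 hY0
    rw [this, zero_mul]
    exact hX0
  · have hmp : (0 : ℝ) < 3 * m := by
      have : (0 : ℝ) < m := by exact_mod_cast h0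
      linarith
    have h7 : (3 * m) * (Y * Real.log (Real.log H) ^ A) ≤ (3 * m) * X := by
      calc (3 * m) * (Y * Real.log (Real.log H) ^ A) = Y * (3 * m * Real.log (Real.log H) ^ A) := by ring
        _ ≤ Y * √(H : ℝ) := mul_le_mul_of_nonneg_left h6 hY0
        _ ≤ 3 * m * X := h4
    exact le_of_mul_le_mul_left h7 hmp

theorem core (m : ℕ) (dd : Fin m → ℕ) (hdd : ∀ i, 1 ≤ dd i) (A : ℕ) :
    ∃ B H0 : ℕ, ∀ H : ℕ, H0 ≤ H → ∃ Bad ⊆ bx dd H,
      (Bad.card : ℝ) ≤ ((bx dd H).card : ℝ) / Real.log (Real.log H) ^ A ∧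
    ∀ a ∈ bx dd H, a ∉ Bad → (∀ i, a i (Fin.last (dd i)) ≠ 0) ∧
      ((∀ p : ℕ, p.Prime → om1 p a ≠ p - 1) → ∀ z : ℕ, Real.log H ^ B ≤ z → z ^ 4 ≤ H → 0 < C1 z a ∧
        ∀ u v : ℕ, Real.log H ^ B ≤ v → (v : ℝ) * Real.log H ^ B ≤ H → (v : ℝ) ≤ ((v : ℝ) - u) * Real.log v ^ A →
          Real.log H ≤ C1 z a * (L1 a v - L1 a u) ∧
          |(P1 a v - P1 a u) - C1 z a * (L1 a v - L1 a u)| ≤ C1 z a * (L1 a v - L1 a u) / Real.log v ^ A) :=
  Pool.Agent.H12P.Fin.core allp pyp lowcp LOWLP.t TVP.t EXCP.t TV.t hbl m dd hdd A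

end Pool.Agent.H12P.Main
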