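import Pool.Agent.H12P.BLKP
import Pool.Agent.H13K.LOWC

/-! Project PA (helper12): final assembly, windows and cut of the constant. -/

set_option autoImplicit false

namespace Pool.Agent.H12P.Fin

open Finset
open Pool.Agent.H373R2.T7 (lamz pz Vz mem_pz)
open Pool.Agent.H13K
open Pool.Agent.H12P.BLKP (P1_mono L1_mono L1_diff)

lemma P1_nonneg {m : ℕ} {dd : Fin m → ℕ} (a : ∀ i : Fin m, Fin (dd i + 1) → ℤ) (K : ℕ) : 0 ≤ P1 a K := by
  unfold P1
  exact sum_nonneg fun _ _ => prod_nonneg fun i _ => Pool.Agent.H13K.ALL.pr_nonneg _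

lemma L1_nonneg {m : ℕ} {dd : Fin m → ℕ} (a : ∀ i : Fin m, Fin (dd i + 1) → ℤ) (K : ℕ) : 0 ≤ L1 a K := by
  unfold L1
  exact sum_nonneg fun n _ => div_nonneg (Pool.Agent.H13K.LOWL.Wf_nonneg a _) (Real.log_natCast_nonneg n)

lemma om_ne {m : ℕ} {dd : Fin m → ℕ} (p : ℕ) (hp : p.Prime) (a : ∀ i : Fin m, Fin (dd i + 1) → ℤ) (h : om1 p a ≠ p - 1) :
    om p a ≠ p := by
  intro h1
  apply h
  unfold om at h1
  have h2 : (range p).filter (fun n : ℕ => (p : ℤ) ∣ ∏ i, Fv (a i) (n : ℤ)) = range p := by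
    apply eq_of_subset_of_card_le (filter_subset _ _)
    rw [h1, card_range]
  unfold om1
  have h3 : (range p).filter (fun n : ℕ => ¬ p ∣ n ∧ (p : ℤ) ∣ ∏ i, Fv (a i) (n : ℤ)) = (range p).erase 0 := by
    ext n
    rw [mem_filter, mem_erase, mem_range]
    constructor
    · rintro ⟨h4, h5, -⟩
      exact ⟨fun h6 => h5 (h6 ▸ dvd_zero p), h4⟩
    · rintro ⟨h4, h5⟩
      refine ⟨h5, fun h6 => ?_, ?_⟩
      · have := Nat.le_of_dvd (Nat.pos_of_ne_zero h4) h6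
        omega
      · have : n ∈ (range p).filter (fun n : ℕ => (p : ℤ) ∣ ∏ i, Fv (a i) (n : ℤ)) := by
          rw [h2, mem_range]
          exact h5
        exact (mem_filter.1 this).2
  rw [h3, card_erase_of_mem (mem_range.2 hp.pos), card_range]

/-- the real analysis of one window -/
lemma window (c0 Pu Pv Lu Lv Q v w ℓ LL : ℝ) (m A U : ℕ) (Z CT : ℝ) (hℓ : 1 ≤ ℓ) (hc0 : 0 < c0) (hLL : 0 < LL)
    (hZ : 1 ≤ Z) (hCT : 1 ≤ CT) (hv : 0 < v)
    (hU : U = 2 * A + 2) (hbig : 96 * Q * (CT * Z) ≤ ℓ) (hQ : 0 < Q)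
    (e1 : |Pv - c0 * Lv| ≤ c0 * (4 * CT * Z) * v / (LL ^ m * ℓ ^ U))
    (e2 : |Pu - c0 * Lu| ≤ 2 * (c0 * (4 * CT * Z) * v / (LL ^ m * ℓ ^ U)))
    (hw : w / (Q * LL ^ m * ℓ) ≤ Lv - Lu) (hvw : v ≤ w * ℓ ^ A) :
    |(Pv - Pu) - c0 * (Lv - Lu)| ≤ c0 * (Lv - Lu) / (8 * ℓ ^ A) := by
  have hℓ0 : 0 < ℓ := by linarith
  have h1 : v / (Q * LL ^ m * ℓ ^ (A + 1)) ≤ Lv - Lu := by
    refine le_trans ?_ hw
    rw [div_le_div_iff₀ (by positivity) (by positivity)]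
    calc v * (Q * LL ^ m * ℓ) ≤ (w * ℓ ^ A) * (Q * LL ^ m * ℓ) := mul_le_mul_of_nonneg_right hvw (by positivity)
      _ = w * (Q * LL ^ m * ℓ ^ (A + 1)) := by ring
  have h2 : |(Pv - Pu) - c0 * (Lv - Lu)| ≤ 3 * (c0 * (4 * CT * Z) * v / (LL ^ m * ℓ ^ U)) := by
    have e3 : (Pv - Pu) - c0 * (Lv - Lu) = (Pv - c0 * Lv) - (Pu - c0 * Lu) := by ring
    rw [e3]
    have := abs_sub (Pv - c0 * Lv) (Pu - c0 * Lu)
    linarith
  refine h2.trans ?_
  calc 3 * (c0 * (4 * CT * Z) * v / (LL ^ m * ℓ ^ U))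
      = c0 * (v / (Q * LL ^ m * ℓ ^ (A + 1))) / (8 * ℓ ^ A) * (96 * Q * (CT * Z) / ℓ) := by
        rw [hU, show 2 * A + 2 = A + 1 + A + 1 by ring, pow_add ℓ (A + 1 + A) 1, pow_add ℓ (A + 1) A]
        field_simp
        ring
    _ ≤ c0 * (v / (Q * LL ^ m * ℓ ^ (A + 1))) / (8 * ℓ ^ A) * 1 := by
        refine mul_le_mul_of_nonneg_left ?_ (by positivity)
        rw [div_le_one hℓ0]
        exact hbig
    _ = c0 * (v / (Q * LL ^ m * ℓ ^ (A + 1))) / (8 * ℓ ^ A) := mul_one _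
    _ ≤ c0 * (Lv - Lu) / (8 * ℓ ^ A) :=
        div_le_div_of_nonneg_right (mul_le_mul_of_nonneg_left h1 hc0.le) (by positivity)

/-- error at one point -/
lemma point (c0 Pk Lk CT CE CW LL ℓ v κ K : ℝ) (m U : ℕ) (hc0 : 0 < c0) (hCT : 1 ≤ CT) (hCE : 1 ≤ CE) (hCW : 1 ≤ CW) (hLL : 1 ≤ LL)
    (hℓ : 1 ≤ ℓ) (hv0 : 0 < v) (hκ : 0 < κ) (hK0 : 0 ≤ K) (hKv : K ≤ v) (hLk0 : 0 ≤ Lk)
    (hLk : Lk ≤ 2 * (K * (CT / LL ^ m) + CE * CW)) (hev : |Pk - c0 * Lk| ≤ c0 * Lk / κ ^ U)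
    (hsm : CE * CW * (LL ^ m * ℓ ^ U) ≤ v) (hκ1 : 1 ≤ κ) (hcase : ℓ / 2 ≤ κ ∨ K * ℓ ^ U ≤ v) :
    |Pk - c0 * Lk| ≤ c0 * (4 * CT * 2 ^ U) * v / (LL ^ m * ℓ ^ U) := by
  have hLL0 : 0 < LL := by linarith
  have hℓ0 : 0 < ℓ := by linarith
  have h2U : (1 : ℝ) ≤ 2 ^ U := one_le_pow₀ (by norm_num)
  have hCE0 : 0 < CE * CW := mul_pos (by linarith) (by linarith)
  have hsm' : CE * CW ≤ CT * v / (LL ^ m * ℓ ^ U) := by
    rw [le_div_iff₀ (by positivity)]
    refine hsm.trans (le_mul_of_one_le_left hv0.le hCT)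
  rcases hcase with h | h
  · have h1 : Lk ≤ 4 * CT * v / LL ^ m := by
      refine hLk.trans ?_
      have h2 : K * (CT / LL ^ m) ≤ CT * v / LL ^ m := by
        calc K * (CT / LL ^ m) ≤ v * (CT / LL ^ m) := mul_le_mul_of_nonneg_right hKv (by positivity)
          _ = CT * v / LL ^ m := by ring
      have h3 : CE * CW ≤ CT * v / LL ^ m := by
        refine hsm'.trans (div_le_div_of_nonneg_left (by positivity) (by positivity) ?_)
        exact le_mul_of_one_le_right (by positivity) (one_le_pow₀ hℓ)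
      calc 2 * (K * (CT / LL ^ m) + CE * CW) ≤ 2 * (CT * v / LL ^ m + CT * v / LL ^ m) := by linarith
        _ = 4 * CT * v / LL ^ m := by ring
    have h4 : (ℓ / 2) ^ U ≤ κ ^ U := pow_le_pow_left₀ (by positivity) h _
    calc |Pk - c0 * Lk| ≤ c0 * Lk / κ ^ U := hev
      _ ≤ c0 * Lk / (ℓ / 2) ^ U := div_le_div_of_nonneg_left (mul_nonneg hc0.le hLk0) (by positivity) h4
      _ ≤ c0 * (4 * CT * v / LL ^ m) / (ℓ / 2) ^ U :=
          div_le_div_of_nonneg_right (mul_le_mul_of_nonneg_left h1 hc0.le) (by positivity)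
      _ = c0 * (4 * CT * 2 ^ U) * v / (LL ^ m * ℓ ^ U) := by
          rw [div_pow]
          field_simp
  · have h1 : Lk ≤ 4 * CT * v / (LL ^ m * ℓ ^ U) := by
      refine hLk.trans ?_
      have h2 : K * (CT / LL ^ m) ≤ CT * v / (LL ^ m * ℓ ^ U) := by
        rw [le_div_iff₀ (by positivity)]
        calc K * (CT / LL ^ m) * (LL ^ m * ℓ ^ U) = CT * (K * ℓ ^ U) := by field_simp
          _ ≤ CT * v := mul_le_mul_of_nonneg_left h (by linarith)
      calc 2 * (K * (CT / LL ^ m) + CE * CW) ≤ 2 * (CT * v / (LL ^ m * ℓ ^ U) + CT * v / (LL ^ m * ℓ ^ U)) := by linarith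
        _ = 4 * CT * v / (LL ^ m * ℓ ^ U) := by ring
    calc |Pk - c0 * Lk| ≤ c0 * Lk / κ ^ U := hev
      _ ≤ c0 * Lk := div_le_self (mul_nonneg hc0.le hLk0) (one_le_pow₀ hκ1)
      _ ≤ c0 * (4 * CT * v / (LL ^ m * ℓ ^ U)) := mul_le_mul_of_nonneg_left h1 hc0.le
      _ = c0 * (4 * CT * 1) * v / (LL ^ m * ℓ ^ U) := by ring
      _ ≤ c0 * (4 * CT * 2 ^ U) * v / (LL ^ m * ℓ ^ U) := by gcongr

/-- the main term at a small point -/
lemma point2 (c0 Lk CT CE CW LL ℓ v K : ℝ) (m U : ℕ) (hc0 : 0 < c0) (hCT : 1 ≤ CT) (hLL : 1 ≤ LL)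
    (hℓ : 1 ≤ ℓ) (hv0 : 0 < v) (hLk : Lk ≤ 2 * (K * (CT / LL ^ m) + CE * CW))
    (hsm : CE * CW * (LL ^ m * ℓ ^ U) ≤ v) (h : K * ℓ ^ U ≤ v) :
    c0 * Lk ≤ c0 * (4 * CT * 2 ^ U) * v / (LL ^ m * ℓ ^ U) := by
  have hLL0 : 0 < LL := by linarith
  have hℓ0 : 0 < ℓ := by linarith
  have h2U : (1 : ℝ) ≤ 2 ^ U := one_le_pow₀ (by norm_num)
  have hsm' : CE * CW ≤ CT * v / (LL ^ m * ℓ ^ U) := by
    rw [le_div_iff₀ (by positivity)]
    refine hsm.trans (le_mul_of_one_le_left hv0.le hCT)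
  have h1 : Lk ≤ 4 * CT * v / (LL ^ m * ℓ ^ U) := by
    refine hLk.trans ?_
    have h2 : K * (CT / LL ^ m) ≤ CT * v / (LL ^ m * ℓ ^ U) := by
      rw [le_div_iff₀ (by positivity)]
      calc K * (CT / LL ^ m) * (LL ^ m * ℓ ^ U) = CT * (K * ℓ ^ U) := by field_simp
        _ ≤ CT * v := mul_le_mul_of_nonneg_left h (by linarith)
    calc 2 * (K * (CT / LL ^ m) + CE * CW) ≤ 2 * (CT * v / (LL ^ m * ℓ ^ U) + CT * v / (LL ^ m * ℓ ^ U)) := by linarith
      _ = 4 * CT * v / (LL ^ m * ℓ ^ U) := by ring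
  calc c0 * Lk ≤ c0 * (4 * CT * v / (LL ^ m * ℓ ^ U)) := mul_le_mul_of_nonneg_left h1 hc0.le
    _ = c0 * (4 * CT * 1) * v / (LL ^ m * ℓ ^ U) := by ring
    _ ≤ c0 * (4 * CT * 2 ^ U) * v / (LL ^ m * ℓ ^ U) := by gcongr

/-- change of the constant -/
lemma change (X c c0 Δ ℓ L : ℝ) (A U : ℕ) (hc0 : 0 < c0) (hΔ : 0 < Δ) (hℓ : 1 ≤ ℓ) (hL : 8 ≤ L) (hℓL : ℓ ≤ L) (hAU : A ≤ U)
    (h1 : |X - c0 * Δ| ≤ c0 * Δ / (8 * ℓ ^ A)) (h2 : |c - c0| ≤ c0 / L ^ (U + 1)) :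
    |X - c * Δ| ≤ c * Δ / ℓ ^ A := by
  have hℓ0 : 0 < ℓ := by linarith
  have hL0 : 0 < L := by linarith
  have h3 : 8 * ℓ ^ A ≤ L ^ (U + 1) := by
    calc 8 * ℓ ^ A ≤ L * L ^ A := mul_le_mul hL (pow_le_pow_left₀ hℓ0.le hℓL _) (by positivity) hL0.le
      _ = L ^ (A + 1) := by ring
      _ ≤ L ^ (U + 1) := pow_le_pow_right₀ (by linarith) (by omega)
  have h4 : c0 / L ^ (U + 1) ≤ c0 / (8 * ℓ ^ A) := div_le_div_of_nonneg_left hc0.le (by positivity) h3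
  have h5 : |(c - c0) * Δ| ≤ c0 * Δ / (8 * ℓ ^ A) := by
    rw [abs_mul, abs_of_pos hΔ]
    calc |c - c0| * Δ ≤ c0 / (8 * ℓ ^ A) * Δ := mul_le_mul_of_nonneg_right (h2.trans h4) hΔ.le
      _ = c0 * Δ / (8 * ℓ ^ A) := by ring
  have h6 : c0 / 2 ≤ c := by
    have h7 : c0 / (8 * ℓ ^ A) ≤ c0 / 2 := by
      refine div_le_div_of_nonneg_left hc0.le (by norm_num) ?_
      have := one_le_pow₀ hℓ (n := A)
      linarith
    have := (abs_le.1 (h2.trans (h4.trans h7))).1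
    linarith
  have h8 : X - c * Δ = (X - c0 * Δ) - (c - c0) * Δ := by ring
  rw [h8]
  refine (abs_sub _ _).trans ((add_le_add h1 h5).trans ?_)
  calc c0 * Δ / (8 * ℓ ^ A) + c0 * Δ / (8 * ℓ ^ A) = (c0 / 4) * Δ / ℓ ^ A := by field_simp; ring
    _ ≤ c * Δ / ℓ ^ A := by
        refine div_le_div_of_nonneg_right (mul_le_mul_of_nonneg_right ?_ hΔ.le) (by positivity)
        linarith

/-- the value below the range, by monotonicity -/
lemma below (c0 Pu Lu Pu' Lu' X : ℝ) (hPu : 0 ≤ Pu) (hLu : 0 ≤ Lu) (hc0 : 0 < c0) (hP : Pu ≤ Pu') (hL : Lu ≤ Lu')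
    (h1 : |Pu' - c0 * Lu'| ≤ X) (h2 : c0 * Lu' ≤ X) : |Pu - c0 * Lu| ≤ 2 * X := by
  have h3 := (abs_le.1 h1).2
  have h4 : c0 * Lu ≤ c0 * Lu' := mul_le_mul_of_nonneg_left hL hc0.le
  have h5 : 0 ≤ c0 * Lu := mul_nonneg hc0.le hLu
  rw [abs_le]
  constructor <;> linarith

theorem core (hALL : S_ALLP) (hPY : S_PYP) (hLC : S_LOWCP) (hLL : S_LOWLP) (hTVP : S_TVP) (hEX : S_EXCP) (hTV : S_TV)
    (hBL : ∀ (m : ℕ) (dd : Fin m → ℕ) (A : ℕ), ∃ H0 : ℕ, ∀ H : ℕ, H0 ≤ H →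
      (((bx dd H) \ (bl dd H)).card : ℝ) ≤ ((bx dd H).card : ℝ) / Real.log (Real.log H) ^ A)
    (m : ℕ) (dd : Fin m → ℕ) (hdd : ∀ i, 1 ≤ dd i) (A : ℕ) :
    ∃ B H0 : ℕ, ∀ H : ℕ, H0 ≤ H → ∃ Bad ⊆ bx dd H,
      (Bad.card : ℝ) ≤ ((bx dd H).card : ℝ) / Real.log (Real.log H) ^ A ∧
    ∀ a ∈ bx dd H, a ∉ Bad → (∀ i, a i (Fin.last (dd i)) ≠ 0) ∧
      ((∀ p : ℕ, p.Prime → om1 p a ≠ p - 1) → ∀ z : ℕ, Real.log H ^ B ≤ z → z ^ 4 ≤ H → 0 < C1 z a ∧
        ∀ u v : ℕ, Real.log H ^ B ≤ v → (v : ℝ) * Real.log H ^ B ≤ H → (v : ℝ) ≤ ((v : ℝ) - u) * Real.log v ^ A →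
          Real.log H ≤ C1 z a * (L1 a v - L1 a u) ∧
          |(P1 a v - P1 a u) - C1 z a * (L1 a v - L1 a u)| ≤ C1 z a * (L1 a v - L1 a u) / Real.log v ^ A) := by
  obtain ⟨CT, hCT1, hCT⟩ := hTVP m dd
  obtain ⟨CE, hCE1, hCE⟩ := hEX m dd hdd
  obtain ⟨CW, hCW1, hCW⟩ := hTV m dd
  obtain ⟨Cp, z1, hCp, hpy⟩ := hPY m dd hdd
  obtain ⟨cl, Dl, hcl, hlc⟩ := hLC m dd
  obtain ⟨K0, hll⟩ := hLL m dd hdd
  obtain ⟨H2, hbl⟩ := hBL m dd (A + 1)
  obtain ⟨U, hU⟩ : ∃ U, U = 2 * A + 2 := ⟨_, rfl⟩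
  obtain ⟨E1, hE1⟩ := hALL m dd U hdd
  obtain ⟨E, hE⟩ : ∃ E, E = E1 + 20 * (U + 2) := ⟨_, rfl⟩
  obtain ⟨B1, H1, hall⟩ := hE1 E (by omega)
  obtain ⟨P, hP⟩ : ∃ P : ℝ, P = ∏ i, ((dd i : ℝ) + 2) := ⟨_, rfl⟩
  have hP1 : 1 ≤ P := by
    rw [hP]
    calc (1 : ℝ) = ∏ _i : Fin m, (1 : ℝ) := by simp
      _ ≤ ∏ i, ((dd i : ℝ) + 2) := prod_le_prod (fun _ _ => zero_le_one) (fun i _ => by
          have : (0 : ℝ) ≤ dd i := Nat.cast_nonneg _
          linarith)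
  obtain ⟨B, hB⟩ : ∃ B, B = B1 + E + 2 * U + 2 * m + Dl + 20 := ⟨_, rfl⟩
  obtain ⟨X0, hX0⟩ : ∃ X0 : ℝ, X0 = 96 * (4 * P) * (CT * 2 ^ U) + 8 * Cp + 8 * (CE * CW + CT) + 4 * P / cl + z1 + K0 + 100 := ⟨_, rfl⟩
  have q1 : 0 ≤ 96 * (4 * P) * (CT * 2 ^ U) := by positivity
  have q2 : 0 ≤ 8 * (CE * CW + CT) := by positivity
  have q3 : 0 ≤ 4 * P / cl := by positivity
  have q4 : (0 : ℝ) ≤ z1 := Nat.cast_nonneg _
  have q5 : (0 : ℝ) ≤ K0 := Nat.cast_nonneg _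
  obtain ⟨H3, hH3⟩ : ∃ H3 : ℕ, ∀ H : ℕ, H3 ≤ H → X0 ≤ Real.log (Real.log H) := by
    have := (Real.tendsto_log_atTop.comp (Real.tendsto_log_atTop.comp tendsto_natCast_atTop_atTop)).eventually_ge_atTop X0
    exact Filter.eventually_atTop.1 this
  refine ⟨B, max (max H1 H2) (max H3 16), fun H hH => ?_⟩
  have hHa : H1 ≤ H := le_trans (le_trans (le_max_left _ _) (le_max_left _ _)) hH
  have hHb : H2 ≤ H := le_trans (le_trans (le_max_right _ _) (le_max_left _ _)) hH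
  have hHc : H3 ≤ H := le_trans (le_trans (le_max_left _ _) (le_max_right _ _)) hH
  have hH16 : 16 ≤ H := le_trans (le_trans (le_max_right _ _) (le_max_right _ _)) hH
  obtain ⟨BadA, hA1, hA2, hA3⟩ := hall H hHa
  have hB0 := hbl H hHb
  have hlX := hH3 H hHc
  have hHr : (16 : ℝ) ≤ H := by exact_mod_cast hH16
  obtain ⟨L, hL⟩ : ∃ L : ℝ, L = Real.log H := ⟨_, rfl⟩
  rw [← hL] at hA2 hA3 hB0 hlX
  rw [← hL]
  have hLpos : 0 < L := by rw [hL]; exact Real.log_pos (by linarith)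
  have hXL : X0 ≤ L := by
    have := Real.log_le_sub_one_of_pos hLpos
    linarith
  have hL100 : 100 ≤ L := by linarith
  have hL1 : 1 ≤ L := by linarith
  have hl0 : 0 < Real.log L := by linarith
  obtain ⟨z0, hz0⟩ : ∃ z0 : ℕ, z0 = ⌊L ^ E⌋₊ := ⟨_, rfl⟩
  rw [← hz0] at hA3
  have hLE : L ^ 3 ≤ L ^ E := pow_le_pow_right₀ hL1 (by omega)
  have hL3 : L ≤ L ^ 3 := le_self_pow₀ hL1 (by norm_num)
  have hz0le : (z0 : ℝ) ≤ L ^ E := by rw [hz0]; exact Nat.floor_le (by positivity)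
  have hz0ge : L ^ E / 2 ≤ z0 := by
    have := Nat.lt_floor_add_one (L ^ E)
    rw [← hz0] at this
    linarith
  have hz0z1 : z1 ≤ z0 := by
    rw [hz0]
    refine Nat.le_floor ?_
    linarith
  have hL2z : L ^ 2 ≤ z0 := by
    refine le_trans ?_ hz0ge
    have : L ^ 3 = L ^ 2 * L := by ring
    have h2 : 0 < L ^ 2 := by positivity
    nlinarith
  have hz0one : (1 : ℝ) ≤ z0 := le_trans (one_le_pow₀ hL1) hL2z
  have hz20 : (z0 : ℝ) ^ (-(1 / 20) : ℝ) ≤ 2 / L ^ (U + 2) := by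
    have h1 : (z0 : ℝ) ^ (-(1 / 20) : ℝ) ≤ (L ^ E / 2) ^ (-(1 / 20) : ℝ) :=
      Real.rpow_le_rpow_of_nonpos (by positivity) hz0ge (by norm_num)
    refine h1.trans ?_
    rw [Real.rpow_neg (by positivity), Real.div_rpow (by positivity) (by norm_num), inv_div]
    have h2 : (2 : ℝ) ^ (1 / 20 : ℝ) ≤ 2 := by
      calc (2 : ℝ) ^ (1 / 20 : ℝ) ≤ (2 : ℝ) ^ (1 : ℝ) := Real.rpow_le_rpow_of_exponent_le (by norm_num) (by norm_num)
        _ = 2 := Real.rpow_one _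
    have h3 : L ^ (U + 2) ≤ (L ^ E) ^ (1 / 20 : ℝ) := by
      rw [← Real.rpow_natCast, ← Real.rpow_natCast, ← Real.rpow_mul hLpos.le]
      refine Real.rpow_le_rpow_of_exponent_le hL1 ?_
      have : 20 * (U + 2) ≤ E := by omega
      have h4 : (20 : ℝ) * ((U : ℝ) + 2) ≤ E := by exact_mod_cast this
      push_cast
      linarith
    exact div_le_div₀ (by norm_num) h2 (by positivity) h3
  have hz4 : (z0 : ℝ) ^ (-(1 / 4) : ℝ) ≤ 2 / L ^ (U + 2) :=
    (Real.rpow_le_rpow_of_exponent_le hz0one (by norm_num)).trans hz20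
  obtain ⟨BadP, hP1', hP2, hP3⟩ := hpy H z0 hz0z1 (by rw [← hL]; exact hL2z) (by omega)
  refine ⟨BadA ∪ BadP ∪ (bx dd H \ bl dd H), union_subset (union_subset hA1 hP1') sdiff_subset, ?_, ?_⟩
  · have hb0 : (0 : ℝ) ≤ ((bx dd H).card : ℝ) := Nat.cast_nonneg _
    obtain ⟨X, hX⟩ : ∃ X : ℝ, X = ((bx dd H).card : ℝ) := ⟨_, rfl⟩
    obtain ⟨y, hy⟩ : ∃ y : ℝ, y = Real.log L := ⟨_, rfl⟩
    rw [← hX] at hb0 hA2 hP2 hB0 ⊢
    rw [← hy] at hA2 hB0 hlX hl0 ⊢
    have hy1 : 1 ≤ y := by linarith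
    have hyL : y ≤ L := by
      have := Real.log_le_sub_one_of_pos hLpos
      linarith
    have hyp : 0 < y ^ (A + 1) := by positivity
    have g1 : (BadA.card : ℝ) ≤ X / y ^ (A + 1) :=
      hA2.trans (div_le_div_of_nonneg_left hb0 hyp (pow_le_pow_right₀ hy1 (by omega)))
    have g2 : (BadP.card : ℝ) ≤ X / y ^ (A + 1) := by
      refine hP2.trans ?_
      calc Cp * X * (z0 : ℝ) ^ (-(1 / 4) : ℝ) ≤ Cp * X * (2 / L ^ (U + 2)) :=
            mul_le_mul_of_nonneg_left hz4 (by positivity)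
        _ = X / L ^ (U + 1) * (2 * Cp / L) := by
            rw [show U + 2 = (U + 1) + 1 by ring, pow_succ L (U + 1)]
            field_simp
        _ ≤ X / L ^ (U + 1) * 1 := by
            refine mul_le_mul_of_nonneg_left ?_ (by positivity)
            rw [div_le_one hLpos]
            linarith
        _ = X / L ^ (U + 1) := mul_one _
        _ ≤ X / y ^ (A + 1) := by
            refine div_le_div_of_nonneg_left hb0 hyp ?_
            calc y ^ (A + 1) ≤ L ^ (A + 1) := pow_le_pow_left₀ (by linarith) hyL _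
              _ ≤ L ^ (U + 1) := pow_le_pow_right₀ hL1 (by omega)
    have g3 : ((BadA ∪ BadP ∪ (bx dd H \ bl dd H)).card : ℝ) ≤ BadA.card + BadP.card + ((bx dd H) \ (bl dd H)).card := by
      exact_mod_cast (card_union_le _ _).trans (Nat.add_le_add_right (card_union_le _ _) _)
    calc ((BadA ∪ BadP ∪ (bx dd H \ bl dd H)).card : ℝ) ≤ X / y ^ (A + 1) + X / y ^ (A + 1) + X / y ^ (A + 1) := by linarith
      _ = X / y ^ A * (3 / y) := by
          rw [pow_succ]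
          field_simp
          ring
      _ ≤ X / y ^ A * 1 := by
          refine mul_le_mul_of_nonneg_left ?_ (by positivity)
          rw [div_le_one (by linarith)]
          linarith
      _ = X / y ^ A := mul_one _
  · intro a ha hab
    rw [mem_union, mem_union, not_or, not_or, mem_sdiff, not_and, not_not] at hab
    obtain ⟨⟨hab1, hab2⟩, hab3⟩ := hab
    have habl := hab3 ha
    obtain ⟨hlead, hrest⟩ := hA3 a ha hab1
    refine ⟨hlead, fun hadm z hz hz4' => ?_⟩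
    have hadm0 : ∀ p ∈ pz z0, om1 p a ≠ p - 1 := fun p hp => hadm p (mem_pz.1 hp).2
    obtain ⟨hc0, hK⟩ := hrest hadm0
    obtain ⟨c0, hc0d⟩ : ∃ c0 : ℝ, c0 = C1 z0 a := ⟨_, rfl⟩
    rw [← hc0d] at hc0 hK
    have hz0z : z0 ≤ z := by
      have h1 : L ^ E ≤ L ^ B := pow_le_pow_right₀ hL1 (by omega)
      have h2 : (z0 : ℝ) ≤ z := hz0le.trans (h1.trans hz)
      exact_mod_cast h2
    have hcc : |C1 z a - c0| ≤ c0 / L ^ (U + 1) := by
      have h0 := hP3 a ha hab2 (fun p hp => om_ne p (mem_pz.1 hp).2 a (hadm0 p hp)) z hz0z hz4'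
      rw [← hc0d] at h0
      refine h0.trans ?_
      calc Cp * (z0 : ℝ) ^ (-(1 / 20) : ℝ) * c0 ≤ Cp * (2 / L ^ (U + 2)) * c0 :=
            mul_le_mul_of_nonneg_right (mul_le_mul_of_nonneg_left hz20 (by positivity)) hc0.le
        _ = c0 / L ^ (U + 1) * (2 * Cp / L) := by
            rw [show U + 2 = (U + 1) + 1 by ring, pow_succ L (U + 1)]
            field_simp
        _ ≤ c0 / L ^ (U + 1) * 1 := by
            refine mul_le_mul_of_nonneg_left ?_ (by positivity)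
            rw [div_le_one hLpos]
            linarith
        _ = c0 / L ^ (U + 1) := mul_one _
    have hLU : 10 ≤ L ^ (U + 1) := le_trans (by linarith) (le_self_pow₀ hL1 (by omega))
    have hcpos : 0 < C1 z a := by
      have h1 : c0 / L ^ (U + 1) ≤ c0 / 10 := div_le_div_of_nonneg_left hc0.le (by norm_num) hLU
      have := (abs_le.1 hcc).1
      linarith
    refine ⟨hcpos, fun u v hv1 hv2 huv => ?_⟩
    obtain ⟨c, hcd⟩ : ∃ c : ℝ, c = C1 z a := ⟨_, rfl⟩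
    rw [← hcd] at hcc hcpos ⊢
    have hvpos : (0 : ℝ) < v := lt_of_lt_of_le (by positivity) hv1
    have hvL : L ≤ v := le_trans (le_self_pow₀ hL1 (by omega)) hv1
    obtain ⟨ℓ, hℓ⟩ : ∃ ℓ : ℝ, ℓ = Real.log v := ⟨_, rfl⟩
    have hvHr : (v : ℝ) ≤ H := le_trans (le_mul_of_one_le_right hvpos.le (one_le_pow₀ hL1)) hv2
    have hvH : v ≤ H := by exact_mod_cast hvHr
    have hℓL : ℓ ≤ L := by
      rw [hℓ, hL]
      exact Real.log_le_log hvpos hvHr
    have hℓX : X0 ≤ ℓ := by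
      rw [hℓ]
      exact hlX.trans (Real.log_le_log hLpos hvL)
    have hℓ1 : 1 ≤ ℓ := by linarith
    have hℓ0 : 0 < ℓ := by linarith
    rw [← hℓ] at huv ⊢
    obtain ⟨w, hw⟩ : ∃ w : ℝ, w = (v : ℝ) - u := ⟨_, rfl⟩
    rw [← hw] at huv
    have hℓA : ℓ ^ A ≤ L ^ A := pow_le_pow_left₀ hℓ0.le hℓL _
    have hw0 : 0 < w := by
      by_contra hcon
      push Not at hcon
      have : w * ℓ ^ A ≤ 0 := mul_nonpos_of_nonpos_of_nonneg hcon (by positivity)
      linarith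
    have hwB : L ^ (B - A) ≤ w := by
      have h1 : L ^ (B - A) * L ^ A ≤ w * L ^ A := by
        rw [← pow_add, show B - A + A = B by omega]
        exact hv1.trans (huv.trans (mul_le_mul_of_nonneg_left hℓA hw0.le))
      exact le_of_mul_le_mul_right h1 (by positivity)
    have huv' : u ≤ v := by
      have : (u : ℝ) ≤ v := by linarith
      exact_mod_cast this
    have huK0 : u + K0 ≤ v := by
      have h1 : (K0 : ℝ) ≤ w := by
        calc (K0 : ℝ) ≤ L := by linarith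
          _ ≤ L ^ (B - A) := le_self_pow₀ hL1 (by omega)
          _ ≤ w := hwB
      have h2 : (u : ℝ) + K0 ≤ v := by linarith
      exact_mod_cast h2
    have hlow := hll H u v huK0 hvH a ha hlead
    rw [← hP, ← hL, ← hℓ, ← hw] at hlow
    -- upper bounds for the main term
    obtain ⟨hWh, -⟩ := hCT H (by omega) a
    obtain ⟨hWf, -⟩ := hCW a
    have hup : ∀ x : ℕ, L1 a x ≤ 2 * ((x : ℝ) * (CT / L ^ m) + CE * CW) := by
      intro x
      have h1 := L1_diff a H CW CE (CT / L ^ m) (fun n => (hWf n).2) (fun n => by rw [hL]; exact (hWh n).2) (by positivity)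
        0 x (Nat.zero_le _) (hCE H hH16 a habl x)
      have e5 : L1 a 0 = 0 := by unfold L1; simp
      rwa [e5, sub_zero, Nat.cast_zero, sub_zero] at h1
    have hsm : CE * CW * (L ^ m * ℓ ^ U) ≤ v := by
      calc CE * CW * (L ^ m * ℓ ^ U) ≤ L * (L ^ m * L ^ U) := by
            have h1 : CE * CW ≤ L := by
              have : 0 ≤ CE * CW := by positivity
              linarith
            exact mul_le_mul h1 (mul_le_mul_of_nonneg_left (pow_le_pow_left₀ hℓ0.le hℓL _) (by positivity))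
              (by positivity) hLpos.le
        _ = L ^ (m + U + 1) := by ring
        _ ≤ L ^ B := pow_le_pow_right₀ hL1 (by omega)
        _ ≤ v := hv1
    have hB1v : L ^ B1 ≤ v := (pow_le_pow_right₀ hL1 (by omega)).trans hv1
    have hB1v2 : (v : ℝ) * L ^ B1 ≤ H :=
      (mul_le_mul_of_nonneg_left (pow_le_pow_right₀ hL1 (by omega)) hvpos.le).trans hv2
    have hev := hK v hB1v hB1v2
    have e1 := point c0 (P1 a v) (L1 a v) CT CE CW L ℓ v ℓ v m U hc0 hCT1 hCE1 hCW1 hL1 hℓ1 hvpos hℓ0 hvpos.le le_rfl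
      (L1_nonneg a v) (hup v) (by rw [hℓ]; exact hev) hsm hℓ1 (Or.inl (by linarith))
    have e2 : |P1 a u - c0 * L1 a u| ≤ 2 * (c0 * (4 * CT * 2 ^ U) * v / (L ^ m * ℓ ^ U)) := by
      have hbase : 0 ≤ c0 * (4 * CT * 2 ^ U) * v / (L ^ m * ℓ ^ U) := by positivity
      rcases le_or_gt (L ^ (B1 + 1)) (u : ℝ) with hu | hu
      · have huL : L ≤ u := le_trans (le_self_pow₀ hL1 (by omega)) hu
        have hupos : (0 : ℝ) < u := by linarith
        have huvr : (u : ℝ) ≤ v := by exact_mod_cast huv'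
        have hlu : 1 ≤ Real.log u := by
          have h1 := Real.log_le_log hLpos huL
          linarith
        have hcase : ℓ / 2 ≤ Real.log u ∨ (u : ℝ) * ℓ ^ U ≤ v := by
          rcases le_or_gt (v : ℝ) ((u : ℝ) ^ 2) with h | h
          · left
            have h1 := Real.log_le_log hvpos h
            rw [Real.log_pow] at h1
            push_cast at h1
            rw [hℓ]
            linarith
          · right
            have h1 : ((u : ℝ) * ℓ ^ U) ^ 2 ≤ (v : ℝ) ^ 2 := by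
              calc ((u : ℝ) * ℓ ^ U) ^ 2 = (u : ℝ) ^ 2 * ℓ ^ (2 * U) := by ring
                _ ≤ (v : ℝ) * (v : ℝ) := by
                    refine mul_le_mul h.le ?_ (by positivity) hvpos.le
                    calc ℓ ^ (2 * U) ≤ L ^ (2 * U) := pow_le_pow_left₀ hℓ0.le hℓL _
                      _ ≤ L ^ B := pow_le_pow_right₀ hL1 (by omega)
                      _ ≤ v := hv1
                _ = (v : ℝ) ^ 2 := by ring
            exact (pow_le_pow_iff_left₀ (by positivity) hvpos.le (by norm_num)).1 h1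
        have h1 := hK u ((pow_le_pow_right₀ hL1 (by omega)).trans hu)
          ((mul_le_mul_of_nonneg_right huvr (by positivity)).trans hB1v2)
        have h2 := point c0 (P1 a u) (L1 a u) CT CE CW L ℓ v (Real.log u) u m U hc0 hCT1 hCE1 hCW1 hL1 hℓ1 hvpos (by linarith)
          hupos.le huvr (L1_nonneg a u) (hup u) h1 hsm hlu hcase
        linarith
      · obtain ⟨u', hu'⟩ : ∃ u' : ℕ, u' = ⌈L ^ (B1 + 1)⌉₊ := ⟨_, rfl⟩
        have hu'1 : L ^ (B1 + 1) ≤ u' := by rw [hu']; exact Nat.le_ceil _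
        have hu'2 : (u' : ℝ) ≤ 2 * L ^ (B1 + 1) := by
          have h1 := Nat.ceil_lt_add_one (show 0 ≤ L ^ (B1 + 1) by positivity)
          rw [← hu'] at h1
          have h2 : 1 ≤ L ^ (B1 + 1) := one_le_pow₀ hL1
          linarith
        have hu'L : L ≤ u' := le_trans (le_self_pow₀ hL1 (by omega)) hu'1
        have hu'3 : (u' : ℝ) * ℓ ^ U ≤ v := by
          calc (u' : ℝ) * ℓ ^ U ≤ (2 * L ^ (B1 + 1)) * L ^ U :=
                mul_le_mul hu'2 (pow_le_pow_left₀ hℓ0.le hℓL _) (by positivity) (by positivity)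
            _ ≤ (L * L ^ (B1 + 1)) * L ^ U := by
                refine mul_le_mul_of_nonneg_right (mul_le_mul_of_nonneg_right (by linarith) (by positivity)) (by positivity)
            _ = L ^ (B1 + 1 + U + 1) := by ring
            _ ≤ L ^ B := pow_le_pow_right₀ hL1 (by omega)
            _ ≤ v := hv1
        have hu'4 : (u' : ℝ) ≤ v := le_trans (le_mul_of_one_le_right (Nat.cast_nonneg _) (one_le_pow₀ hℓ1)) hu'3
        have hlu : 1 ≤ Real.log u' := by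
          have h1 := Real.log_le_log hLpos hu'L
          linarith
        have h1 := hK u' ((pow_le_pow_right₀ hL1 (by omega)).trans hu'1)
          ((mul_le_mul_of_nonneg_right hu'4 (by positivity)).trans hB1v2)
        have h2 := point c0 (P1 a u') (L1 a u') CT CE CW L ℓ v (Real.log u') u' m U hc0 hCT1 hCE1 hCW1 hL1 hℓ1 hvpos
          (by linarith) (Nat.cast_nonneg _) hu'4 (L1_nonneg a u') (hup u') h1 hsm hlu (Or.inr hu'3)
        have h3 := point2 c0 (L1 a u') CT CE CW L ℓ v u' m U hc0 hCT1 hL1 hℓ1 hvpos (hup u') hsm hu'3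
        have huu : u ≤ u' := by
          have : (u : ℝ) ≤ u' := hu.le.trans hu'1
          exact_mod_cast this
        exact below c0 (P1 a u) (L1 a u) (P1 a u') (L1 a u') _ (P1_nonneg a u) (L1_nonneg a u) hc0 (P1_mono a huu)
          (L1_mono a huu) h2 h3
    have hwin := window c0 (P1 a u) (P1 a v) (L1 a u) (L1 a v) (4 * P) v w ℓ L m A U (2 ^ U) CT hℓ1 hc0 hLpos
      (one_le_pow₀ (by norm_num)) hCT1 hvpos hU (by linarith) (by positivity) e1 e2 hlow huv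
    have hΔlow : v / (4 * P * L ^ m * ℓ ^ (A + 1)) ≤ L1 a v - L1 a u := by
      refine le_trans ?_ hlow
      rw [div_le_div_iff₀ (by positivity) (by positivity)]
      calc v * (4 * P * L ^ m * ℓ) ≤ (w * ℓ ^ A) * (4 * P * L ^ m * ℓ) := mul_le_mul_of_nonneg_right huv (by positivity)
        _ = w * (4 * P * L ^ m * ℓ ^ (A + 1)) := by ring
    have hΔpos : 0 < L1 a v - L1 a u := lt_of_lt_of_le (by positivity) hΔlow
    refine ⟨?_, change _ c c0 _ ℓ L A U hc0 hΔpos hℓ1 (by linarith) hℓL (by omega) hwin hcc⟩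
    -- the main term is large
    have hz3 : 3 ≤ z := by
      have h1 : (3 : ℝ) ≤ z := by
        calc (3 : ℝ) ≤ L := by linarith
          _ ≤ L ^ B := le_self_pow₀ hL1 (by omega)
          _ ≤ z := hz
      exact_mod_cast h1
    have hzr : (3 : ℝ) ≤ z := by exact_mod_cast hz3
    have h1 := (hlc z a hz3).2.2 (fun p hp => hadm p (mem_pz.1 hp).2)
    rw [← hcd] at h1
    have hzH : (z : ℝ) ≤ H := by
      have h3 : z ≤ z ^ 4 := Nat.le_self_pow (by norm_num) z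
      exact_mod_cast h3.trans hz4'
    have hlogz : Real.log z ≤ L := by rw [hL]; exact Real.log_le_log (by linarith) hzH
    have hlogz0 : 0 < Real.log z := Real.log_pos (by linarith)
    have h4 : cl / L ^ Dl ≤ c := by
      refine le_trans ?_ h1
      exact div_le_div_of_nonneg_left hcl.le (by positivity) (pow_le_pow_left₀ hlogz0.le hlogz _)
    have h5 : L ^ B / (4 * P * L ^ m * L ^ (A + 1)) ≤ L1 a v - L1 a u := by
      refine le_trans ?_ hΔlow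
      refine div_le_div₀ hvpos.le hv1 (by positivity) ?_
      exact mul_le_mul_of_nonneg_left (pow_le_pow_left₀ hℓ0.le hℓL _) (by positivity)
    calc L = cl / (4 * P) * (L * (4 * P / cl)) := by field_simp
      _ ≤ cl / (4 * P) * (L * L) := by
          refine mul_le_mul_of_nonneg_left (mul_le_mul_of_nonneg_left (by linarith) hLpos.le) (by positivity)
      _ = cl / (4 * P) * L ^ 2 := by ring
      _ ≤ cl / (4 * P) * L ^ (B - Dl - m - (A + 1)) :=
          mul_le_mul_of_nonneg_left (pow_le_pow_right₀ hL1 (by omega)) (by positivity)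
      _ = cl / L ^ Dl * (L ^ B / (4 * P * L ^ m * L ^ (A + 1))) := by
          have hB' : B = (B - Dl - m - (A + 1)) + Dl + m + (A + 1) := by omega
          obtain ⟨q, hq⟩ : ∃ q, q = B - Dl - m - (A + 1) := ⟨_, rfl⟩
          rw [← hq] at hB' ⊢
          rw [hB', pow_add, pow_add, pow_add L q Dl]
          field_simp
      _ ≤ c * (L1 a v - L1 a u) := mul_le_mul h4 h5 (by positivity) hcpos.le

end Pool.Agent.H12P.Fin
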